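import Pool.Agent.H43.TP.Defs

/-!
# Hardy-Littlewood for `m^3+k`, almost all `k`, `X^(1/18+ε) <= M <= X^(6/13-ε)`, errors `(log X)^(-B)` (H43/HY)

* `Thy`, `Fz`: windows of the primes minus the model, in residue classes (from `HX.win`).
* `Rgz`, `Sm`: the range `M^3 <= X` (transfer theorem `TP.tra`).
* `Trb`, `Lgv`, `Lg`: dyadic ranges `(M, 2M]` with `8M^3 >= X`: blocks of length `X/(32M^2)`.
* `All`, `Msy`, `Finy`: all `M`, main term, the theorem.
-/

namespace Pool.Agent.H43.HY

open Finset

/-- indicator of the primes -/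
noncomputable def pr (n : ℕ) : ℝ := if n.Prime then 1 else 0

/-- the density of the primes -/
noncomputable def il (n : ℕ) : ℝ := 1 / Real.log n

/-- primes minus the local model -/
noncomputable def az (Q n : ℕ) : ℝ := pr n - il n * TP.lq Q n

end Pool.Agent.H43.HY
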