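import Pool.Agent.H43.HY.Defs
import Pool.Agent.H43.TP.Ram

/-!
# Elementary facts on `il`, `lq`, and the statement `FzS` of `fz` (HY/Fz)
-/

namespace Pool.Agent.H43.HY

open Finset

theorem fz_log_ge (n : ℕ) (hn : 3 ≤ n) : 1 ≤ Real.log n := by
  have h1 : (3 : ℝ) ≤ n := by exact_mod_cast hn
  rw [Real.le_log_iff_exp_le (by linarith)]
  have := Real.exp_one_lt_d9
  linarith

theorem fz_il (n : ℕ) (hn : 3 ≤ n) : 0 ≤ il n ∧ il n ≤ 1 := by
  have h1 := fz_log_ge n hn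
  unfold il
  refine ⟨by positivity, ?_⟩
  rw [div_le_one (by linarith)]
  exact h1

theorem fz_ild (n m : ℕ) (hn : 3 ≤ n) (hm : n ≤ m) :
    |il m - il n| ≤ ((m : ℝ) - n) / n := by
  have h1 := fz_log_ge n hn
  have h2 := fz_log_ge m (hn.trans hm)
  have hnR : (0 : ℝ) < n := by
    have : 0 < n := by omega
    exact_mod_cast this
  have hmR : (n : ℝ) ≤ m := by exact_mod_cast hm
  have hlog : Real.log n ≤ Real.log m := Real.log_le_log hnR hmR
  have h3 : Real.log m - Real.log n ≤ ((m : ℝ) - n) / n := by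
    rw [← Real.log_div (by linarith) (by linarith)]
    have h4 := Real.log_le_sub_one_of_pos (x := (m : ℝ) / n) (div_pos (by linarith) hnR)
    have h5 : (m : ℝ) / n - 1 = ((m : ℝ) - n) / n := by field_simp
    linarith
  unfold il
  rw [abs_sub_comm]
  have h6 : 1 / Real.log n - 1 / Real.log m =
      (Real.log m - Real.log n) / (Real.log n * Real.log m) := by
    have e1 : Real.log n ≠ 0 := by linarith
    have e2 : Real.log m ≠ 0 := by linarith
    field_simp
  rw [h6, abs_of_nonneg (div_nonneg (by linarith) (mul_nonneg (by linarith) (by linarith)))]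
  refine (div_le_self (by linarith) ?_).trans h3
  nlinarith

theorem fz_lq (Q n : ℕ) : |TP.lq Q n| ≤ Q := by
  unfold TP.lq
  refine (abs_sum_le_sum_abs _ _).trans ?_
  have h1 : ∀ r ∈ Icc 1 Q, |((ArithmeticFunction.moebius r : ℤ) : ℝ) / (r.totient : ℝ) *
      (TP.crd r n : ℝ)| ≤ 1 := by
    intro r hr
    rw [mem_Icc] at hr
    have h2 := TP.ram_abs r n hr.1
    have htot : (0 : ℝ) < r.totient := by exact_mod_cast Nat.totient_pos.2 hr.1
    have hmu : |((ArithmeticFunction.moebius r : ℤ) : ℝ)| ≤ 1 := by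
      exact_mod_cast ArithmeticFunction.abs_moebius_le_one
    rw [abs_mul, abs_div, abs_of_pos htot]
    calc |((ArithmeticFunction.moebius r : ℤ) : ℝ)| / r.totient * |(TP.crd r n : ℝ)|
        ≤ 1 / r.totient * r.totient := by
          refine mul_le_mul (div_le_div_of_nonneg_right hmu htot.le) h2 (abs_nonneg _)
            (by positivity)
      _ = 1 := by field_simp
  refine (sum_le_sum h1).trans ?_
  simp

/-- the statement of `fz` (windows of `az`) -/
def FzS : Prop := ∀ B A ε : ℝ, 0 < B → 0 < A → 0 < ε →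
    ∃ A1 X0 : ℝ, 0 < A1 ∧ 10 ≤ X0 ∧ ∀ X : ℝ, X0 ≤ X →
    ∀ Q q c : ℕ, (Q : ℝ) ≤ (Real.log X) ^ B → 1 ≤ q → q ≤ Q → c < q → ∀ H : ℕ,
    X ^ ((1 : ℝ) / 6 + ε) ≤ H → (H : ℝ) ≤ X * (Real.log X) ^ (-A1) →
    ∑ n ∈ Ioc ⌊X⌋₊ ⌊2 * X⌋₊,
      (∑ m ∈ (Ioc n (n + H)).filter (fun m => m % q = c), az Q m) ^ 2 ≤
      X * (H : ℝ) ^ 2 * (Real.log X) ^ (-A)

end Pool.Agent.H43.HY
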