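import Pool.Agent.H43.HX.Win
import Pool.Agent.H43.HY.Defs

/-!
# [H43 HY THY] Primes in windows, all residue classes

PROOF. `ℓ = log X`, `A' = A + 2`. `HX.win` with `(B, A', ε)`. (1) `(c,q) = 1`: `c` is a unit of `ZMod q`, `m % q = c` iff `(m : ZMod q) = c`. For `m ∈ (n, n+H]`:
`0 <= log m - log n <= H/n`. `th = Σ Λ(m) = Σ_p log p + PP(n)`, `PP` = the sum over the proper prime powers of the window. So with `# = Σ pr` over the window
(`m % q = c`): `|log n * # - th| <= (H/n) # + PP(n) <= H^2/X + PP(n)`, hence `|# - H/(log n φ(q))| <= |th - H/φ(q)| + H^2/X + PP(n)` (`log n >= 1`). Squares, sum over `n`: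
`3X H^2 ℓ^(-A') + 6X H^4/X^2 + 3 Σ_n PP(n)^2`, `H^2/X^2 <= ℓ^(-2A1)`; `PP(n)^2 <= H Σ_{m ∈ window} Λ(m)^2 1[proper power]`, each `m` lies in at most `H` windows:
`Σ PP^2 <= H^2 (log 3X)^2 #{proper prime powers <= 3X} <= H^2 X^(0.6)`. With `A1 >= A` everything is `<= X H^2 ℓ^(-A)` for `X` large.
(2) `(c,q) > 1`: a prime `m ≡ c` is divisible by `gcd(c,q)`, so it divides `q`, `m <= q <= ℓ^B < X`: no such primes in the windows; both terms are `0`.
-/

namespace Pool.Agent.H43.HY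

open Finset

private noncomputable def bb (m : ℕ) : ℝ := if m.Prime then 0 else ArithmeticFunction.vonMangoldt m

private theorem bb_nonneg (m : ℕ) : 0 ≤ bb m := by
  unfold bb
  split_ifs
  · exact le_rfl
  · exact ArithmeticFunction.vonMangoldt_nonneg

private theorem bb_sum (M : ℕ) (hM : 1 ≤ M) :
    ∑ k ∈ Ioc 0 M, bb k ≤ 2 * Real.sqrt M * Real.log M := by
  have h1 := Chebyshev.psi_sub_theta_le (x := (M : ℝ)) (by exact_mod_cast hM)
  rw [Chebyshev.psi_sub_theta_eq_sum_not_prime, Nat.floor_natCast, sum_filter] at h1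
  refine le_trans (le_of_eq (sum_congr rfl fun k _ => ?_)) h1
  unfold bb
  split_ifs <;> rfl

private theorem bb_sq (M : ℕ) (hM : 1 ≤ M) :
    ∑ k ∈ Ioc 0 M, bb k ^ 2 ≤ 2 * Real.sqrt M * (Real.log M) ^ 2 := by
  have hM1 : (1 : ℝ) ≤ (M : ℝ) := by exact_mod_cast hM
  have hl : 0 ≤ Real.log M := Real.log_nonneg hM1
  calc ∑ n ∈ Ioc 0 M, bb n ^ 2 ≤ ∑ n ∈ Ioc 0 M, Real.log M * bb n := by
        refine sum_le_sum fun n hn => ?_
        rw [mem_Ioc] at hn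
        rw [sq]
        refine mul_le_mul_of_nonneg_right ?_ (bb_nonneg _)
        unfold bb
        split_ifs
        · exact hl
        · refine ArithmeticFunction.vonMangoldt_le_log.trans ?_
          exact Real.log_le_log (by exact_mod_cast hn.1) (by exact_mod_cast hn.2)
    _ = Real.log M * ∑ n ∈ Ioc 0 M, bb n := by rw [mul_sum]
    _ ≤ Real.log M * (2 * Real.sqrt M * Real.log M) :=
        mul_le_mul_of_nonneg_left (bb_sum M hM) hl
    _ = 2 * Real.sqrt M * (Real.log M) ^ 2 := by ring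

private theorem win_sq (f : ℕ → ℝ) (hf : ∀ n, 0 ≤ f n) (q c N1 N2 H M : ℕ) (hM : N2 + H ≤ M) :
    ∑ n ∈ Ioc N1 N2, (∑ m ∈ (Ioc n (n + H)).filter (fun m => m % q = c), f m) ^ 2 ≤
      (H : ℝ) ^ 2 * ∑ m ∈ Ioc 0 M, f m ^ 2 := by
  calc ∑ n ∈ Ioc N1 N2, (∑ m ∈ (Ioc n (n + H)).filter (fun m => m % q = c), f m) ^ 2
      ≤ ∑ n ∈ Ioc N1 N2, (H : ℝ) * ∑ i ∈ Ioc 0 H, f (n + i) ^ 2 := by
        refine sum_le_sum fun n _ => ?_
        have h1 : ∑ m ∈ (Ioc n (n + H)).filter (fun m => m % q = c), f m ≤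
            ∑ m ∈ Ioc n (n + H), f m :=
          sum_le_sum_of_subset_of_nonneg (filter_subset _ _) fun _ _ _ => hf _
        have h2 : 0 ≤ ∑ m ∈ (Ioc n (n + H)).filter (fun m => m % q = c), f m :=
          sum_nonneg fun _ _ => hf _
        have h3 : Ioc n (n + H) = (Ioc 0 H).map (addLeftEmbedding n) := by
          rw [map_add_left_Ioc, add_zero]
        have h4 : ∑ m ∈ Ioc n (n + H), f m = ∑ i ∈ Ioc 0 H, f (n + i) := by
          rw [h3, sum_map]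
          rfl
        have h5 := sq_sum_le_card_mul_sum_sq (s := Ioc 0 H) (f := fun i => f (n + i))
        rw [Nat.card_Ioc, Nat.sub_zero] at h5
        refine le_trans (pow_le_pow_left₀ h2 h1 2) ?_
        rw [h4]
        exact h5
    _ = (H : ℝ) * ∑ i ∈ Ioc 0 H, ∑ n ∈ Ioc N1 N2, f (n + i) ^ 2 := by
        rw [← mul_sum, sum_comm]
    _ ≤ (H : ℝ) * ∑ i ∈ Ioc 0 H, ∑ m ∈ Ioc 0 M, f m ^ 2 := by
        refine mul_le_mul_of_nonneg_left (sum_le_sum fun i hi => ?_) (by positivity)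
        rw [mem_Ioc] at hi
        have h3 : ∑ n ∈ Ioc N1 N2, f (n + i) ^ 2 = ∑ m ∈ Ioc (N1 + i) (N2 + i), f m ^ 2 := by
          rw [← map_add_right_Ioc, sum_map]
          rfl
        rw [h3]
        refine sum_le_sum_of_subset_of_nonneg ?_ fun _ _ _ => sq_nonneg _
        intro m hm
        rw [mem_Ioc] at hm ⊢
        omega
    _ = (H : ℝ) ^ 2 * ∑ m ∈ Ioc 0 M, f m ^ 2 := by
        rw [sum_const, Nat.card_Ioc, nsmul_eq_mul, Nat.sub_zero]
        ring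

/-- from `th` to the number of primes in one window -/
private theorem one_win (q c n H : ℕ) (X φ : ℝ) (hX : 3 ≤ X) (hXn : X < n) (hφ : 0 < φ) :
    (∑ m ∈ (Ioc n (n + H)).filter (fun m => m % q = c), pr m - il n * H / φ) ^ 2 ≤
      3 * (∑ m ∈ (Ioc n (n + H)).filter (fun m => m % q = c), ArithmeticFunction.vonMangoldt m -
        H / φ) ^ 2 + 3 * ((H : ℝ) ^ 2 / X) ^ 2 +
      3 * (∑ m ∈ (Ioc n (n + H)).filter (fun m => m % q = c), bb m) ^ 2 := by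
  have hX0 : 0 < X := by linarith
  have hn0 : (0 : ℝ) < n := by linarith
  have hlog : 1 ≤ Real.log n := by
    have h1 : Real.exp 1 ≤ n := by
      have := Real.exp_one_lt_d9
      linarith
    rw [Real.le_log_iff_exp_le hn0]
    exact h1
  obtain ⟨W, hW⟩ : ∃ W, W = (Ioc n (n + H)).filter (fun m => m % q = c) := ⟨_, rfl⟩
  rw [← hW]
  have hWm : ∀ m ∈ W, n < m ∧ m ≤ n + H := by
    intro m hm
    rw [hW, mem_filter, mem_Ioc] at hm
    exact hm.1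
  have hsplit : ∀ m, ArithmeticFunction.vonMangoldt m = pr m * Real.log m + bb m := by
    intro m
    unfold pr bb
    split_ifs with h
    · rw [ArithmeticFunction.vonMangoldt_apply_prime h, one_mul, add_zero]
    · rw [zero_mul, zero_add]
  have hpr0 : ∀ m, 0 ≤ pr m := by
    intro m
    unfold pr
    split_ifs <;> norm_num
  have hpr1 : ∀ m, pr m ≤ 1 := by
    intro m
    unfold pr
    split_ifs <;> norm_num
  have hP : ∑ m ∈ W, pr m ≤ H := by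
    calc ∑ m ∈ W, pr m ≤ ∑ m ∈ W, (1 : ℝ) := sum_le_sum fun m _ => hpr1 m
      _ = (W.card : ℝ) := by rw [sum_const, nsmul_eq_mul, mul_one]
      _ ≤ H := by
        have h1 : W.card ≤ H := by
          rw [hW]
          refine (card_le_card (filter_subset _ _)).trans ?_
          rw [Nat.card_Ioc]
          omega
        exact_mod_cast h1
  have hP0 : 0 ≤ ∑ m ∈ W, pr m := sum_nonneg fun m _ => hpr0 m
  have hTH : ∑ m ∈ W, ArithmeticFunction.vonMangoldt m =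
      ∑ m ∈ W, pr m * Real.log m + ∑ m ∈ W, bb m := by
    rw [← sum_add_distrib]
    exact sum_congr rfl fun m _ => hsplit m
  have hlo : Real.log n * ∑ m ∈ W, pr m ≤ ∑ m ∈ W, pr m * Real.log m := by
    rw [mul_sum]
    refine sum_le_sum fun m hm => ?_
    rw [mul_comm]
    refine mul_le_mul_of_nonneg_left ?_ (hpr0 m)
    exact Real.log_le_log hn0 (by exact_mod_cast (hWm m hm).1.le)
  have hhi : ∑ m ∈ W, pr m * Real.log m ≤ (Real.log n + H / n) * ∑ m ∈ W, pr m := by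
    rw [mul_sum]
    refine sum_le_sum fun m hm => ?_
    rw [mul_comm (Real.log n + H / n)]
    refine mul_le_mul_of_nonneg_left ?_ (hpr0 m)
    have h1 : (m : ℝ) ≤ n + H := by exact_mod_cast (hWm m hm).2
    have h2 : (n : ℝ) < m := by exact_mod_cast (hWm m hm).1
    have h3 : Real.log m - Real.log n ≤ H / n := by
      rw [← Real.log_div (by linarith) hn0.ne']
      refine (Real.log_le_sub_one_of_pos (div_pos (by linarith) hn0)).trans ?_
      rw [div_sub_one hn0.ne']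
      gcongr
      linarith
    linarith
  have hHn : (H : ℝ) / n * ∑ m ∈ W, pr m ≤ (H : ℝ) ^ 2 / X := by
    calc (H : ℝ) / n * ∑ m ∈ W, pr m ≤ (H : ℝ) / X * H := by gcongr
      _ = _ := by ring
  have hbb : 0 ≤ ∑ m ∈ W, bb m := sum_nonneg fun m _ => bb_nonneg m
  obtain ⟨P, hPd⟩ : ∃ P, P = ∑ m ∈ W, pr m := ⟨_, rfl⟩
  obtain ⟨TH, hTHd⟩ : ∃ TH, TH = ∑ m ∈ W, ArithmeticFunction.vonMangoldt m := ⟨_, rfl⟩
  obtain ⟨S, hS⟩ : ∃ S, S = ∑ m ∈ W, pr m * Real.log m := ⟨_, rfl⟩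
  obtain ⟨b, hb⟩ : ∃ b, b = ∑ m ∈ W, bb m := ⟨_, rfl⟩
  rw [← hPd, ← hTHd, ← hb]
  rw [← hPd, ← hS] at hlo hhi
  rw [← hPd] at hHn
  rw [← hTHd, ← hS, ← hb] at hTH
  rw [← hb] at hbb
  have hx : |P - il n * H / φ| ≤ |TH - H / φ| + ((H : ℝ) ^ 2 / X) + b := by
    have h1 : Real.log n * (P - il n * H / φ) = (TH - H / φ) - (TH - Real.log n * P) := by
      unfold il
      field_simp
      ring
    have h2 : |TH - Real.log n * P| ≤ (H : ℝ) ^ 2 / X + b := by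
      rw [abs_le]
      constructor
      · have : 0 ≤ (H : ℝ) ^ 2 / X := by positivity
        linarith
      · have h3 : (Real.log n + H / n) * P = Real.log n * P + (H : ℝ) / n * P := by ring
        rw [h3] at hhi
        linarith
    have h4 : |P - il n * H / φ| ≤ |Real.log n * (P - il n * H / φ)| := by
      rw [abs_mul, abs_of_pos (by linarith : 0 < Real.log n)]
      exact le_mul_of_one_le_left (abs_nonneg _) hlog
    rw [h1] at h4
    have h5 := abs_sub (TH - H / φ) (TH - Real.log n * P)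
    linarith
  have hY : 0 ≤ (H : ℝ) ^ 2 / X := by positivity
  obtain ⟨Y, hYd⟩ : ∃ Y, Y = (H : ℝ) ^ 2 / X := ⟨_, rfl⟩
  rw [← hYd] at hx hY ⊢
  have h6 : (P - il n * H / φ) ^ 2 ≤ (|TH - H / φ| + Y + b) ^ 2 := by
    rw [← sq_abs]
    exact pow_le_pow_left₀ (abs_nonneg _) hx 2
  have h7 : |TH - H / φ| ^ 2 = (TH - H / φ) ^ 2 := sq_abs _
  rw [← h7]
  have g1 := sq_nonneg (|TH - H / φ| - Y)
  have g2 := sq_nonneg (|TH - H / φ| - b)
  have g3 := sq_nonneg (Y - b)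
  have g4 : (|TH - H / φ| + Y + b) ^ 2 = 3 * |TH - H / φ| ^ 2 + 3 * Y ^ 2 + 3 * b ^ 2 -
      ((|TH - H / φ| - Y) ^ 2 + (|TH - H / φ| - b) ^ 2 + (Y - b) ^ 2) := by ring
  linarith

theorem thy (B A ε : ℝ) (hB : 0 < B) (hA : 0 < A) (hε : 0 < ε) :
    ∃ A1 X0 : ℝ, 0 < A1 ∧ 10 ≤ X0 ∧ ∀ X : ℝ, X0 ≤ X →
    ∀ q c : ℕ, 1 ≤ q → (q : ℝ) ≤ (Real.log X) ^ B → c < q → ∀ H : ℕ,
    X ^ ((1 : ℝ) / 6 + ε) ≤ H → (H : ℝ) ≤ X * (Real.log X) ^ (-A1) →
    ∑ n ∈ Ioc ⌊X⌋₊ ⌊2 * X⌋₊,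
      (∑ m ∈ (Ioc n (n + H)).filter (fun m => m % q = c), pr m -
        (if Nat.Coprime c q then il n * H / q.totient else 0)) ^ 2 ≤
      X * (H : ℝ) ^ 2 * (Real.log X) ^ (-A) := by
  obtain ⟨A1, X1, hA1, hX1, hwin⟩ := HX.win B (A + 1) ε hB (by linarith) hε
  have ev1 : ∀ᶠ X : ℝ in Filter.atTop, 144 * (Real.log X) ^ (A + 2) ≤ X ^ (1 / 2 : ℝ) := by
    have h := (isLittleO_log_rpow_rpow_atTop (A + 2)
      (by norm_num : (0 : ℝ) < 1 / 2)).bound (by norm_num : (0 : ℝ) < 1 / 144)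
    filter_upwards [h, Filter.eventually_ge_atTop 1] with X hX hX1
    have h1 : 0 ≤ (Real.log X) ^ (A + 2) :=
      Real.rpow_nonneg (Real.log_nonneg hX1) _
    have h2 : 0 ≤ X ^ (1 / 2 : ℝ) := Real.rpow_nonneg (by linarith) _
    rw [Real.norm_of_nonneg h1, Real.norm_of_nonneg h2] at hX
    linarith
  have ev2 : ∀ᶠ X : ℝ in Filter.atTop, (Real.log X) ^ B < X := by
    have h := (isLittleO_log_rpow_rpow_atTop B
      (by norm_num : (0 : ℝ) < 1)).bound (by norm_num : (0 : ℝ) < 1 / 2)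
    filter_upwards [h, Filter.eventually_ge_atTop 1] with X hX hX1
    have h1 : 0 ≤ (Real.log X) ^ B :=
      Real.rpow_nonneg (Real.log_nonneg hX1) _
    rw [Real.norm_of_nonneg h1, Real.rpow_one, Real.norm_of_nonneg (by linarith : (0 : ℝ) ≤ X)] at hX
    linarith
  have ev3 : ∀ᶠ X : ℝ in Filter.atTop, 18 ≤ Real.log X :=
    Real.tendsto_log_atTop.eventually_ge_atTop 18
  obtain ⟨X2, hX2⟩ := Filter.eventually_atTop.1 (ev1.and (ev2.and ev3))
  refine ⟨max A1 (A + 1), max X1 (max X2 10), lt_max_of_lt_left hA1, le_max_of_le_left hX1, ?_⟩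
  intro X hX q c hq1 hq hcq H hH1 hH2
  have hXX1 : X1 ≤ X := (le_max_left _ _).trans hX
  have hXX2 : X2 ≤ X := ((le_max_left _ _).trans (le_max_right _ _)).trans hX
  have hX10 : 10 ≤ X := hX1.trans hXX1
  obtain ⟨e1, e2, e3⟩ := hX2 X hXX2
  have hX0 : 0 < X := by linarith
  obtain ⟨ℓ, hℓ⟩ : ∃ ℓ, ℓ = Real.log X := ⟨_, rfl⟩
  rw [← hℓ] at hq hH2 e1 e2 e3 ⊢
  have hℓ0 : 0 < ℓ := by linarith
  have hℓ1 : 1 ≤ ℓ := by linarith
  have : NeZero q := ⟨by omega⟩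
  have hrhs : 0 ≤ X * (H : ℝ) ^ 2 * ℓ ^ (-A) := by positivity
  by_cases hc : Nat.Coprime c q
  · have hu : IsUnit (c : ZMod q) := (ZMod.isUnit_iff_coprime c q).2 hc
    have hH3 : (H : ℝ) ≤ X * ℓ ^ (-A1) := by
      refine hH2.trans ?_
      refine mul_le_mul_of_nonneg_left ?_ hX0.le
      exact Real.rpow_le_rpow_of_exponent_le hℓ1 (neg_le_neg (le_max_left _ _))
    have hH4 : (H : ℝ) ≤ X * ℓ ^ (-(A + 1)) := by
      refine hH2.trans ?_
      refine mul_le_mul_of_nonneg_left ?_ hX0.le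
      exact Real.rpow_le_rpow_of_exponent_le hℓ1 (neg_le_neg (le_max_right _ _))
    have h1 := hwin X hXX1 q (by rw [← hℓ]; exact hq) (c : ZMod q) hu H hH1
      (by rw [← hℓ]; exact hH3)
    rw [← hℓ] at h1
    have hfil : ∀ n, (Ioc n (n + H)).filter (fun m : ℕ => (m : ZMod q) = (c : ZMod q)) =
        (Ioc n (n + H)).filter (fun m => m % q = c) := by
      intro n
      ext m
      simp only [mem_filter]
      rw [ZMod.natCast_eq_natCast_iff, Nat.ModEq, Nat.mod_eq_of_lt hcq]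
    unfold SI.th at h1
    simp only [hfil] at h1
    simp only [if_pos hc]
    obtain ⟨M, hM⟩ : ∃ M : ℕ, M = ⌊2 * X⌋₊ + H := ⟨_, rfl⟩
    have hHX : (H : ℝ) ≤ X := by
      refine hH3.trans ?_
      have : ℓ ^ (-A1) ≤ 1 := Real.rpow_le_one_of_one_le_of_nonpos hℓ1 (by linarith)
      exact mul_le_of_le_one_right (by linarith) this
    have hMX : (M : ℝ) ≤ 3 * X := by
      rw [hM]
      push_cast
      have := Nat.floor_le (by linarith : 0 ≤ 2 * X)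
      linarith
    have hM1 : 1 ≤ M := by
      have : 1 ≤ ⌊2 * X⌋₊ := Nat.le_floor (by push_cast; linarith)
      omega
    have hM1r : (1 : ℝ) ≤ (M : ℝ) := by exact_mod_cast hM1
    have h2 := win_sq bb bb_nonneg q c ⌊X⌋₊ ⌊2 * X⌋₊ H M hM.ge
    have h3 := bb_sq M hM1
    have hlM : Real.log M ≤ 2 * ℓ := by
      have h4 : (M : ℝ) ≤ X ^ 2 := by
        have g1 : 3 * X ≤ X * X := mul_le_mul_of_nonneg_right (by linarith) (by linarith)
        have g2 : X ^ 2 = X * X := by ring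
        linarith
      have h5 := Real.log_le_log (by linarith) h4
      rw [Real.log_pow, ← hℓ] at h5
      push_cast at h5
      exact h5
    have hlM0 : 0 ≤ Real.log M := Real.log_nonneg hM1r
    have hsM : Real.sqrt M ≤ 2 * X ^ (1 / 2 : ℝ) := by
      rw [← Real.sqrt_eq_rpow]
      have h6 : Real.sqrt M ≤ Real.sqrt (2 ^ 2 * X) := Real.sqrt_le_sqrt (by linarith)
      rw [Real.sqrt_mul (by norm_num), Real.sqrt_sq (by norm_num)] at h6
      exact h6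
    have hS : 2 * Real.sqrt M * (Real.log M) ^ 2 ≤ 16 * ℓ ^ (2 : ℝ) * X ^ (1 / 2 : ℝ) := by
      have h7 : (Real.log M) ^ 2 ≤ 4 * ℓ ^ (2 : ℝ) := by
        have h8 := pow_le_pow_left₀ hlM0 hlM 2
        rw [Real.rpow_two]
        linarith
      calc 2 * Real.sqrt M * (Real.log M) ^ 2
          ≤ 2 * (2 * X ^ (1 / 2 : ℝ)) * (4 * ℓ ^ (2 : ℝ)) := by
            gcongr
        _ = _ := by ring
    have hinv : ℓ ^ (-(A + 1)) ≤ ℓ ^ (-A) / 18 := by
      have h9 : ℓ ^ (-(A + 1)) = ℓ ^ (-A) * ℓ⁻¹ := by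
        rw [← Real.rpow_neg_one, ← Real.rpow_add hℓ0]
        congr 1
        ring
      rw [h9]
      have h10 : ℓ⁻¹ ≤ 1 / 18 := by
        rw [inv_eq_one_div]
        exact one_div_le_one_div_of_le (by norm_num) e3
      have h11 : 0 ≤ ℓ ^ (-A) := by positivity
      have h12 := mul_le_mul_of_nonneg_left h10 h11
      linarith
    have hfin2 : 48 * ℓ ^ (2 : ℝ) * X ^ (1 / 2 : ℝ) ≤ X * ℓ ^ (-A) / 3 := by
      have h12 : ℓ ^ (2 : ℝ) = ℓ ^ (A + 2) * ℓ ^ (-A) := by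
        rw [← Real.rpow_add hℓ0]
        congr 1
        ring
      have h13 : X = X ^ (1 / 2 : ℝ) * X ^ (1 / 2 : ℝ) := by
        rw [← Real.rpow_add hX0]
        norm_num
      have h14 : 0 ≤ ℓ ^ (-A) * X ^ (1 / 2 : ℝ) := by positivity
      calc 48 * ℓ ^ (2 : ℝ) * X ^ (1 / 2 : ℝ)
          = (144 * ℓ ^ (A + 2)) * (ℓ ^ (-A) * X ^ (1 / 2 : ℝ)) / 3 := by
            rw [h12]
            ring
        _ ≤ X ^ (1 / 2 : ℝ) * (ℓ ^ (-A) * X ^ (1 / 2 : ℝ)) / 3 := by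
            have := mul_le_mul_of_nonneg_right e1 h14
            linarith
        _ = (X ^ (1 / 2 : ℝ) * X ^ (1 / 2 : ℝ)) * ℓ ^ (-A) / 3 := by ring
        _ = X * ℓ ^ (-A) / 3 := by rw [← h13]
    have hφ : (0 : ℝ) < q.totient := by
      exact_mod_cast Nat.totient_pos.2 (by omega)
    have hall : ∀ n ∈ Ioc ⌊X⌋₊ ⌊2 * X⌋₊,
        (∑ m ∈ (Ioc n (n + H)).filter (fun m => m % q = c), pr m -
          il n * H / q.totient) ^ 2 ≤
        3 * (∑ m ∈ (Ioc n (n + H)).filter (fun m => m % q = c),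
          ArithmeticFunction.vonMangoldt m - H / q.totient) ^ 2 + 3 * ((H : ℝ) ^ 2 / X) ^ 2 +
        3 * (∑ m ∈ (Ioc n (n + H)).filter (fun m => m % q = c), bb m) ^ 2 := by
      intro n hn
      rw [mem_Ioc] at hn
      exact one_win q c n H X q.totient (by linarith) (Nat.lt_of_floor_lt hn.1) hφ
    refine (sum_le_sum hall).trans ?_
    rw [sum_add_distrib, sum_add_distrib, ← mul_sum, ← mul_sum, ← mul_sum, sum_const,
      nsmul_eq_mul]
    have hcard : ((Ioc ⌊X⌋₊ ⌊2 * X⌋₊).card : ℝ) ≤ 2 * X := by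
      rw [Nat.card_Ioc]
      have h15 : ((⌊2 * X⌋₊ - ⌊X⌋₊ : ℕ) : ℝ) ≤ ((⌊2 * X⌋₊ : ℕ) : ℝ) := by
        exact_mod_cast Nat.sub_le _ _
      exact h15.trans (Nat.floor_le (by linarith))
    have hH0 : 0 ≤ (H : ℝ) ^ 2 := by positivity
    have g1 : 3 * ∑ n ∈ Ioc ⌊X⌋₊ ⌊2 * X⌋₊,
        (∑ m ∈ (Ioc n (n + H)).filter (fun m => m % q = c),
          ArithmeticFunction.vonMangoldt m - H / q.totient) ^ 2 ≤
        X * (H : ℝ) ^ 2 * (ℓ ^ (-A) / 3) := by
      calc 3 * ∑ n ∈ Ioc ⌊X⌋₊ ⌊2 * X⌋₊,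
        (∑ m ∈ (Ioc n (n + H)).filter (fun m => m % q = c),
          ArithmeticFunction.vonMangoldt m - H / q.totient) ^ 2
          ≤ 3 * (X * (H : ℝ) ^ 2 * ℓ ^ (-(A + 1))) := by linarith
        _ ≤ 3 * (X * (H : ℝ) ^ 2 * (ℓ ^ (-A) / 18)) := by gcongr
        _ ≤ _ := by
          have h11 : 0 ≤ X * (H : ℝ) ^ 2 * ℓ ^ (-A) := hrhs
          linarith
    have g2 : 3 * (((Ioc ⌊X⌋₊ ⌊2 * X⌋₊).card : ℝ) * ((H : ℝ) ^ 2 / X) ^ 2) ≤
        X * (H : ℝ) ^ 2 * (ℓ ^ (-A) / 3) := by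
      have h16 : (H : ℝ) / X ≤ ℓ ^ (-(A + 1)) := by
        rw [div_le_iff₀ hX0]
        linarith
      have h17 : ℓ ^ (-(A + 1)) ≤ 1 :=
        Real.rpow_le_one_of_one_le_of_nonpos hℓ1 (by linarith)
      have h18 : ((H : ℝ) / X) ^ 2 ≤ ℓ ^ (-A) / 18 := by
        have h19 : 0 ≤ (H : ℝ) / X := by positivity
        calc ((H : ℝ) / X) ^ 2 ≤ (ℓ ^ (-(A + 1))) ^ 2 := by gcongr
          _ ≤ ℓ ^ (-(A + 1)) := by
            have h20 : 0 ≤ ℓ ^ (-(A + 1)) := by positivity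
            have h21 := mul_le_mul_of_nonneg_left h17 h20
            rw [sq]
            linarith
          _ ≤ _ := hinv
      calc 3 * (((Ioc ⌊X⌋₊ ⌊2 * X⌋₊).card : ℝ) * ((H : ℝ) ^ 2 / X) ^ 2)
          ≤ 3 * ((2 * X) * ((H : ℝ) ^ 2 / X) ^ 2) := by gcongr
        _ = 6 * (X * (H : ℝ) ^ 2 * ((H : ℝ) / X) ^ 2) := by
          field_simp
          ring
        _ ≤ 6 * (X * (H : ℝ) ^ 2 * (ℓ ^ (-A) / 18)) := by gcongr
        _ = _ := by ring
    have g3 : 3 * ∑ n ∈ Ioc ⌊X⌋₊ ⌊2 * X⌋₊,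
        (∑ m ∈ (Ioc n (n + H)).filter (fun m => m % q = c), bb m) ^ 2 ≤
        X * (H : ℝ) ^ 2 * (ℓ ^ (-A) / 3) := by
      calc 3 * ∑ n ∈ Ioc ⌊X⌋₊ ⌊2 * X⌋₊,
        (∑ m ∈ (Ioc n (n + H)).filter (fun m => m % q = c), bb m) ^ 2
          ≤ 3 * ((H : ℝ) ^ 2 * (16 * ℓ ^ (2 : ℝ) * X ^ (1 / 2 : ℝ))) := by
            have h21 : (H : ℝ) ^ 2 * ∑ m ∈ Ioc 0 M, bb m ^ 2 ≤
              (H : ℝ) ^ 2 * (16 * ℓ ^ (2 : ℝ) * X ^ (1 / 2 : ℝ)) :=
              mul_le_mul_of_nonneg_left (h3.trans hS) hH0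
            linarith
        _ = (H : ℝ) ^ 2 * (48 * ℓ ^ (2 : ℝ) * X ^ (1 / 2 : ℝ)) := by ring
        _ ≤ (H : ℝ) ^ 2 * (X * ℓ ^ (-A) / 3) := by gcongr
        _ = _ := by ring
    have g4 : X * (H : ℝ) ^ 2 * (ℓ ^ (-A) / 3) + X * (H : ℝ) ^ 2 * (ℓ ^ (-A) / 3) +
        X * (H : ℝ) ^ 2 * (ℓ ^ (-A) / 3) = X * (H : ℝ) ^ 2 * ℓ ^ (-A) := by ring
    linarith
  · have hz : ∀ n ∈ Ioc ⌊X⌋₊ ⌊2 * X⌋₊,
        (∑ m ∈ (Ioc n (n + H)).filter (fun m => m % q = c), pr m -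
          (if Nat.Coprime c q then il n * H / q.totient else 0)) ^ 2 = 0 := by
      intro n hn
      rw [mem_Ioc] at hn
      have hXn : X < n := Nat.lt_of_floor_lt hn.1
      rw [if_neg hc, sub_zero, sum_eq_zero, zero_pow (by norm_num)]
      intro m hm
      rw [mem_filter, mem_Ioc] at hm
      unfold pr
      rw [if_neg]
      intro hmp
      obtain ⟨p0, h0, h0c, h0q⟩ := Nat.Prime.not_coprime_iff_dvd.1 hc
      have h0m : p0 ∣ m := by
        rw [← hm.2] at h0c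
        exact (Nat.dvd_mod_iff h0q).1 h0c
      have hp0q : p0 ≤ q := Nat.le_of_dvd hq1 h0q
      have h1 := (Nat.prime_dvd_prime_iff_eq h0 hmp).1 h0m
      have h2 : (m : ℝ) ≤ q := by
        rw [← h1]
        exact_mod_cast hp0q
      have h3 : (n : ℝ) < m := by exact_mod_cast hm.1.1
      linarith
    rw [sum_eq_zero hz]
    exact hrhs

end Pool.Agent.H43.HY
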