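import Pool.Agent.H43.TP.Mw
import Pool.Agent.H43.HY.Thy
import Pool.Agent.H43.HY.Fz0

/-!
# [H43 HY FZ] Windows of `az`

PROOF. `ℓ = log X`. `thy` with `(B, A+2, ε)`. For `n ∈ (X,2X]`: `Σ_{m∈window, m%q=c} az Q m = (Σ pr - 1[(c,q)=1] il n H/φ(q)) - il n (Σ lq - 1[(c,q)=1] H/φ(q))`
`- Σ (il m - il n) lq Q m`. Second: `<= 2Q^2` (`TP.mw`, `0 <= il n <= 1`). Third: `|il m - il n| <= log m - log n <= H/X` (`1/u - 1/v <= v - u` for `1 <= u <= v`), `|lq| <= Q`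
(`TP.ram_abs`), at most `H` terms: `<= H^2 Q/X <= H ℓ^(B-A1)`. Squares (`<= 3(..)`), at most `X+1` values of `n`:
`3X H^2 ℓ^(-A-2) + 3(X+1) 4Q^4 + 3(X+1) H^2 ℓ^(2B-2A1) <= X H^2 ℓ^(-A)`, if `A1 >= B + A/2 + 2` (`Q^4 <= ℓ^(4B)`, `H >= X^(1/6)`).
-/

namespace Pool.Agent.H43.HY

open Finset

theorem fz_win (X : ℝ) (Q q c n H : ℕ) (hX : 10 ≤ X) (hn : X < n) (hq : 1 ≤ q) (hqQ : q ≤ Q)
    (hc : c < q) :
    (∑ m ∈ (Ioc n (n + H)).filter (fun m => m % q = c), az Q m) ^ 2 ≤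
      3 * (∑ m ∈ (Ioc n (n + H)).filter (fun m => m % q = c), pr m -
        (if Nat.Coprime c q then il n * H / q.totient else 0)) ^ 2 + 12 * (Q : ℝ) ^ 4 +
        3 * ((H : ℝ) * (H / X * Q)) ^ 2 := by
  have hn3 : 3 ≤ n := by
    have h1 : (3 : ℝ) ≤ n := by linarith
    exact_mod_cast h1
  have hX0 : (0 : ℝ) < X := by linarith
  obtain ⟨W, hW⟩ : ∃ W : Finset ℕ, W = (Ioc n (n + H)).filter (fun m => m % q = c) := ⟨_, rfl⟩
  have hcard : (W.card : ℝ) ≤ H := by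
    have h1 : W.card ≤ H := by
      rw [hW]
      refine (card_filter_le _ _).trans ?_
      rw [Nat.card_Ioc]
      omega
    exact_mod_cast h1
  have hmw := TP.mw Q q c n H hq hqQ hc
  rw [← hW] at hmw ⊢
  obtain ⟨T, hT⟩ : ∃ T : ℝ, T = ∑ m ∈ W, (il m - il n) * TP.lq Q m := ⟨_, rfl⟩
  have hTb : |T| ≤ (H : ℝ) * (H / X * Q) := by
    rw [hT]
    refine (abs_sum_le_sum_abs _ _).trans ?_
    have h1 : ∀ m ∈ W, |(il m - il n) * TP.lq Q m| ≤ (H : ℝ) / X * Q := by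
      intro m hm
      rw [hW, mem_filter, mem_Ioc] at hm
      rw [abs_mul]
      refine mul_le_mul ?_ (fz_lq Q m) (abs_nonneg _) (by positivity)
      refine (fz_ild n m hn3 hm.1.1.le).trans ?_
      have h2 : (m : ℝ) - n ≤ H := by
        have h3 : (m : ℝ) ≤ n + H := by exact_mod_cast hm.1.2
        linarith
      exact div_le_div₀ (by positivity) h2 hX0 hn.le
    refine (sum_le_sum h1).trans ?_
    rw [sum_const, nsmul_eq_mul]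
    exact mul_le_mul_of_nonneg_right hcard (by positivity)
  obtain ⟨D, hD⟩ : ∃ D : ℝ, D = (if Nat.Coprime c q then (H : ℝ) / q.totient else 0) := ⟨_, rfl⟩
  have hD2 : (if Nat.Coprime c q then il n * H / q.totient else 0) = il n * D := by
    rw [hD]
    split_ifs
    · ring
    · ring
  obtain ⟨P, hP⟩ : ∃ P : ℝ, P = ∑ m ∈ W, pr m := ⟨_, rfl⟩
  obtain ⟨L, hL⟩ : ∃ L : ℝ, L = ∑ m ∈ W, TP.lq Q m := ⟨_, rfl⟩
  have hsplit : ∑ m ∈ W, az Q m = (P - il n * D) - il n * (L - D) - T := by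
    rw [hP, hL, hT]
    have h1 : ∀ m ∈ W, az Q m = pr m - il n * TP.lq Q m - (il m - il n) * TP.lq Q m := by
      intro m _
      unfold az
      ring
    rw [sum_congr rfl h1, sum_sub_distrib, sum_sub_distrib, ← mul_sum]
    ring
  rw [← hD, ← hL] at hmw
  rw [hD2, ← hP, hsplit]
  have hil := fz_il n hn3
  have hb : |il n * (L - D)| ≤ 2 * (Q : ℝ) ^ 2 := by
    rw [abs_mul, abs_of_nonneg hil.1]
    calc il n * |L - D| ≤ 1 * (2 * (Q : ℝ) ^ 2) :=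
          mul_le_mul hil.2 hmw (abs_nonneg _) (by norm_num)
      _ = 2 * (Q : ℝ) ^ 2 := one_mul _
  have hb2 : (il n * (L - D)) ^ 2 ≤ 4 * (Q : ℝ) ^ 4 := by
    have h1 := pow_le_pow_left₀ (abs_nonneg _) hb 2
    rw [sq_abs] at h1
    refine h1.trans (le_of_eq ?_)
    ring
  have hc2 : T ^ 2 ≤ ((H : ℝ) * (H / X * Q)) ^ 2 := by
    have h1 := pow_le_pow_left₀ (abs_nonneg _) hTb 2
    rwa [sq_abs] at h1
  obtain ⟨a, ha⟩ : ∃ a : ℝ, a = P - il n * D := ⟨_, rfl⟩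
  obtain ⟨b, hb'⟩ : ∃ b : ℝ, b = il n * (L - D) := ⟨_, rfl⟩
  rw [← hb'] at hb2 ⊢
  rw [← ha]
  nlinarith [sq_nonneg (a + b), sq_nonneg (a + T), sq_nonneg (b - T)]

theorem fz (B A ε : ℝ) (hB : 0 < B) (hA : 0 < A) (hε : 0 < ε) :
    ∃ A1 X0 : ℝ, 0 < A1 ∧ 10 ≤ X0 ∧ ∀ X : ℝ, X0 ≤ X →
    ∀ Q q c : ℕ, (Q : ℝ) ≤ (Real.log X) ^ B → 1 ≤ q → q ≤ Q → c < q → ∀ H : ℕ,
    X ^ ((1 : ℝ) / 6 + ε) ≤ H → (H : ℝ) ≤ X * (Real.log X) ^ (-A1) →
    ∑ n ∈ Ioc ⌊X⌋₊ ⌊2 * X⌋₊,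
      (∑ m ∈ (Ioc n (n + H)).filter (fun m => m % q = c), az Q m) ^ 2 ≤
      X * (H : ℝ) ^ 2 * (Real.log X) ^ (-A) := by
  obtain ⟨A1', X0', hA1', hX0', hthy⟩ := thy B (A + 2) ε hB (by linarith) hε
  have hlog : ∀ᶠ X : ℝ in Filter.atTop, (3 : ℝ) ≤ Real.log X :=
    Real.tendsto_log_atTop.eventually_ge_atTop 3
  have hlo : ∀ᶠ X : ℝ in Filter.atTop, 72 * (Real.log X) ^ (4 * B + A) ≤ X ^ ((1 : ℝ) / 3) := by
    have h1 := isLittleO_log_rpow_rpow_atTop (4 * B + A) (by norm_num : (0 : ℝ) < 1 / 3)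
    have h2 := h1.bound (by norm_num : (0 : ℝ) < 1 / 72)
    filter_upwards [h2, Filter.eventually_ge_atTop (3 : ℝ)] with X hX hX3
    have hl : 0 ≤ Real.log X := Real.log_nonneg (by linarith)
    rw [Real.norm_of_nonneg (Real.rpow_nonneg hl _),
      Real.norm_of_nonneg (Real.rpow_nonneg (by linarith) _)] at hX
    linarith
  obtain ⟨X1, hX1⟩ := Filter.eventually_atTop.1 (hlog.and hlo)
  refine ⟨A1' + (B + A / 2 + 2), max X0' X1, by linarith, hX0'.trans (le_max_left _ _), ?_⟩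
  intro X hX Q q c hQ hq hqQ hc H hH1 hH2
  have hXX0 : X0' ≤ X := (le_max_left _ _).trans hX
  obtain ⟨hl3, hlo3⟩ := hX1 X ((le_max_right _ _).trans hX)
  have hX10 : 10 ≤ X := hX0'.trans hXX0
  have hXp : (0 : ℝ) < X := by linarith
  obtain ⟨l, hl⟩ : ∃ l : ℝ, l = Real.log X := ⟨_, rfl⟩
  rw [← hl] at hQ hH2 hl3 hlo3 ⊢
  have hlp : (0 : ℝ) < l := by linarith
  have hl1 : (1 : ℝ) ≤ l := by linarith
  have hqR : (q : ℝ) ≤ l ^ B := by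
    refine le_trans ?_ hQ
    exact_mod_cast hqQ
  have hH2' : (H : ℝ) ≤ X * l ^ (-A1') := by
    refine hH2.trans (mul_le_mul_of_nonneg_left ?_ hXp.le)
    exact Real.rpow_le_rpow_of_exponent_le hl1 (by linarith)
  have hmain := hthy X hXX0 q c hq (by rw [← hl]; exact hqR) hc H hH1 (by rw [← hl]; exact hH2')
  rw [← hl] at hmain
  have hQ0 : (0 : ℝ) ≤ Q := Nat.cast_nonneg _
  have hH0 : (0 : ℝ) ≤ H := Nat.cast_nonneg _
  -- the sum of the pointwise bounds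
  have hpt : ∀ n ∈ Ioc ⌊X⌋₊ ⌊2 * X⌋₊,
      (∑ m ∈ (Ioc n (n + H)).filter (fun m => m % q = c), az Q m) ^ 2 ≤
      3 * (∑ m ∈ (Ioc n (n + H)).filter (fun m => m % q = c), pr m -
        (if Nat.Coprime c q then il n * H / q.totient else 0)) ^ 2 + (12 * (Q : ℝ) ^ 4 +
        3 * ((H : ℝ) * (H / X * Q)) ^ 2) := by
    intro n hn
    rw [mem_Ioc] at hn
    have h1 := fz_win X Q q c n H hX10 ((Nat.floor_lt hXp.le).1 hn.1) hq hqQ hc
    linarith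
  refine (sum_le_sum hpt).trans ?_
  rw [sum_add_distrib, ← mul_sum, sum_const, nsmul_eq_mul, Nat.card_Ioc]
  have hcard : ((⌊2 * X⌋₊ - ⌊X⌋₊ : ℕ) : ℝ) ≤ 2 * X := by
    have h1 : ((⌊2 * X⌋₊ - ⌊X⌋₊ : ℕ) : ℝ) ≤ (⌊2 * X⌋₊ : ℝ) := by
      exact_mod_cast Nat.sub_le _ _
    exact h1.trans (Nat.floor_le (by linarith))
  -- first term
  obtain ⟨LA, hLA⟩ : ∃ LA : ℝ, LA = l ^ (-A) := ⟨_, rfl⟩
  have hLAp : 0 < LA := by rw [hLA]; positivity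
  have hA2 : l ^ (-(A + 2)) = LA * (l ^ 2)⁻¹ := by
    rw [hLA, show -(A + 2) = -A + -2 by ring, Real.rpow_add hlp]
    congr 1
    rw [Real.rpow_neg hlp.le]
    norm_num
  have hl2 : (l ^ 2)⁻¹ ≤ 1 / 9 := by
    rw [inv_le_comm₀ (by positivity) (by norm_num)]
    norm_num
    nlinarith
  have hfirst : 3 * (X * (H : ℝ) ^ 2 * l ^ (-(A + 2))) ≤ X * (H : ℝ) ^ 2 * LA * (1 / 3) := by
    rw [hA2]
    have h1 := mul_le_mul_of_nonneg_left hl2 (by positivity : 0 ≤ 3 * (X * (H : ℝ) ^ 2 * LA))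
    linarith
  -- second term
  have hQ4 : (Q : ℝ) ^ 4 ≤ l ^ (4 * B) := by
    have h1 := pow_le_pow_left₀ hQ0 hQ 4
    refine h1.trans (le_of_eq ?_)
    rw [← Real.rpow_natCast, ← Real.rpow_mul hlp.le]
    congr 1
    push_cast
    ring
  have hHsq : X ^ ((1 : ℝ) / 3) ≤ (H : ℝ) ^ 2 := by
    have h1 : X ^ ((1 : ℝ) / 6) ≤ H := by
      refine le_trans ?_ hH1
      exact Real.rpow_le_rpow_of_exponent_le (by linarith) (by linarith)
    have h2 := pow_le_pow_left₀ (by positivity) h1 2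
    refine le_trans (le_of_eq ?_) h2
    rw [← Real.rpow_natCast, ← Real.rpow_mul hXp.le]
    congr 1
    push_cast
    ring
  have hsecond : 24 * (Q : ℝ) ^ 4 ≤ (H : ℝ) ^ 2 * LA * (1 / 3) := by
    have h1 : l ^ (4 * B + A) * LA = l ^ (4 * B) := by
      rw [hLA, ← Real.rpow_add hlp]
      congr 1
      ring
    have h2 : 72 * l ^ (4 * B) ≤ (H : ℝ) ^ 2 * LA := by
      rw [← h1, ← mul_assoc]
      exact mul_le_mul_of_nonneg_right (hlo3.trans hHsq) hLAp.le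
    linarith
  -- third term
  have hthird : 6 * ((H : ℝ) * (H / X * Q)) ^ 2 ≤ (H : ℝ) ^ 2 * LA * (1 / 3) := by
    have h1 : (H : ℝ) / X ≤ l ^ (-(A1' + (B + A / 2 + 2))) := by
      rw [div_le_iff₀ hXp]
      linarith
    have h2 : (H : ℝ) / X * Q ≤ l ^ (-(A / 2 + 2)) := by
      calc (H : ℝ) / X * Q ≤ l ^ (-(A1' + (B + A / 2 + 2))) * l ^ B :=
            mul_le_mul h1 hQ hQ0 (by positivity)
        _ = l ^ (-A1' - (A / 2 + 2)) := by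
            rw [← Real.rpow_add hlp]
            congr 1
            ring
        _ ≤ l ^ (-(A / 2 + 2)) := Real.rpow_le_rpow_of_exponent_le hl1 (by linarith)
    have h3 : ((H : ℝ) / X * Q) ^ 2 ≤ LA * (l ^ 4)⁻¹ := by
      have h4 := pow_le_pow_left₀ (by positivity) h2 2
      refine h4.trans (le_of_eq ?_)
      rw [hLA, ← Real.rpow_natCast, ← Real.rpow_mul hlp.le]
      have h5 : -(A / 2 + 2) * ((2 : ℕ) : ℝ) = -A + -4 := by
        push_cast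
        ring
      rw [h5, Real.rpow_add hlp]
      congr 1
      rw [Real.rpow_neg hlp.le]
      norm_num
    have h4 : (l ^ 4)⁻¹ ≤ 1 / 18 := by
      rw [inv_le_comm₀ (by positivity) (by norm_num)]
      norm_num
      nlinarith [sq_nonneg (l ^ 2 - 9), mul_self_nonneg (l - 3)]
    have h5 : ((H : ℝ) / X * Q) ^ 2 ≤ LA * (1 / 18) :=
      h3.trans (mul_le_mul_of_nonneg_left h4 hLAp.le)
    have h6 := mul_le_mul_of_nonneg_left h5 (by positivity : 0 ≤ 6 * (H : ℝ) ^ 2)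
    have h7 : 6 * ((H : ℝ) * (H / X * Q)) ^ 2 = 6 * (H : ℝ) ^ 2 * ((H : ℝ) / X * Q) ^ 2 := by ring
    rw [h7]
    linarith
  have hrest : ((⌊2 * X⌋₊ - ⌊X⌋₊ : ℕ) : ℝ) * (12 * (Q : ℝ) ^ 4 +
      3 * ((H : ℝ) * (H / X * Q)) ^ 2) ≤ X * ((H : ℝ) ^ 2 * LA * (2 / 3)) := by
    calc ((⌊2 * X⌋₊ - ⌊X⌋₊ : ℕ) : ℝ) * (12 * (Q : ℝ) ^ 4 + 3 * ((H : ℝ) * (H / X * Q)) ^ 2)
        ≤ 2 * X * (12 * (Q : ℝ) ^ 4 + 3 * ((H : ℝ) * (H / X * Q)) ^ 2) :=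
          mul_le_mul_of_nonneg_right hcard (by positivity)
      _ = X * (24 * (Q : ℝ) ^ 4 + 6 * ((H : ℝ) * (H / X * Q)) ^ 2) := by ring
      _ ≤ X * ((H : ℝ) ^ 2 * LA * (2 / 3)) :=
          mul_le_mul_of_nonneg_left (by linarith) hXp.le
  rw [← hLA]
  linarith

theorem fzs : FzS := fun B A ε hB hA hε => fz B A ε hB hA hε

end Pool.Agent.H43.HY
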