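import Pool.Agent.H43.HY.Fz

/-!
# [H43 HY LGV] The windows of all blocks

`bs : Finset ℕ` is the set of the left endpoints `b` of the blocks, `bs ⊆ [M, 2M]`, different elements have distance `>= L`, `X <= 64 M^2 L`.
For the windows of the block `b` (cut off at `b^3` and `b^3+2X`):
PROOF. `x ∈ [b^3+1, b^3+2X+h]`. If `b^3 + h <= x <= b^3 + 2X` the window `(x-h,x]` is not cut off; it is the full window with start `x' = x-h ∈ [b^3, b^3+2X]`. A given `x'` belongs to at most `200`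
elements `b` (`b1 < b2` in `bs` with `b1^3 <= x'`, `b2^3 <= x' <= b1^3 + 2X`, so `b2^3 - b1^3 <= 2X`, but `b2^3 - b1^3 >= 3M^2 (b2-b1) >= 3M^2 L j` if they are `j` apart, and `2X <= 128 M^2 L`), and
`x' ∈ [M^3, 8M^3+2X] ⊆ (⌊N0⌋, ⌊64 N0⌋]`, `N0 = M^3/2` (`X <= 8M^3`). `fz` with `(B+1, A+2, ε)` at `X := N0 2^i`, `i = 0..5`, `ℓ/2 <= log N <= 2ℓ`: `Σ_{x'} (..)^2 <= Σ_i 2^i N0 h^2 (ℓ/2)^(-A-2) <= 32 M^3 h^2 (ℓ/2)^(-A-2)`.
The other `x` (at most `2h` for each `b`): `|az| <= 1+Q <= 2Q`, inner sum `<= 2Qh`, in total `<= card bs * 2h * 4Q^2h^2`. (`card bs * h <= (M/L + 1) L^3 ℓ^(-A1) <= 2 M L^2 ℓ^(-A1) <= M^3 ℓ^(-A1)`: `h <= L^3 ℓ^(-A1)`, `L <= M/4`;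
so the second part is `<= 8 Q^2 h^2 M^3 ℓ^(-A1)`, `A1 >= 2B + A + 3`.) Conditions of `fz`: `h >= (64 N0)^(1/6+ε)`: assumption `M^((1:ℝ)/2+4ε) <= h`; `h <= N (log N)^(-A1')`: `h <= L^3 ℓ^(-A1) <= M^3 ℓ^(-A1)/64`, `A1 >= A1' + 1`.
-/

namespace Pool.Agent.H43.HY

open Finset

/-- sum of `az` over a full window in a residue class -/
private noncomputable def lgvF (Q q c h x : ℕ) : ℝ :=
  ∑ n ∈ (Ioc x (x + h)).filter (fun n => n % q = c), az Q n

/-- sum of `az` over a window which is cut off -/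
private noncomputable def lgvG (Q q c h X b x : ℕ) : ℝ :=
  ∑ n ∈ (Ioc (x - h) x).filter (fun n => b ^ 3 < n ∧ n ≤ b ^ 3 + 2 * X ∧ n % q = c), az Q n

private theorem lgv_good (Q q c h X b x : ℕ) (h1 : b ^ 3 + h ≤ x) (h2 : x ≤ b ^ 3 + 2 * X) :
    lgvG Q q c h X b x = lgvF Q q c h (x - h) := by
  unfold lgvG lgvF
  have h3 : x - h + h = x := by omega
  rw [h3]
  refine sum_congr ?_ fun _ _ => rfl
  ext n
  simp only [mem_filter, mem_Ioc]
  omega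

private theorem lgv_az (Q n : ℕ) (hQ : 1 ≤ Q) (hn : 8 ≤ n) : |az Q n| ≤ 2 * Q := by
  have hn' : (8 : ℝ) ≤ n := by exact_mod_cast hn
  have hlog : 1 ≤ Real.log n := by
    rw [Real.le_log_iff_exp_le (by linarith)]
    have := Real.exp_one_lt_d9
    linarith
  have hil : |il n| ≤ 1 := by
    unfold il
    rw [abs_of_nonneg (by positivity), div_le_one (by linarith)]
    exact hlog
  have hpr : |pr n| ≤ 1 := by
    unfold pr
    split_ifs <;> simp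
  have hlq : |TP.lq Q n| ≤ Q := by
    unfold TP.lq
    refine (abs_sum_le_sum_abs _ _).trans ?_
    have h1 : ∀ r ∈ Icc 1 Q, |((ArithmeticFunction.moebius r : ℤ) : ℝ) / (r.totient : ℝ) *
        (TP.crd r n : ℝ)| ≤ 1 := by
      intro r hr
      have hr1 := (mem_Icc.1 hr).1
      have ht : (0 : ℝ) < r.totient := by exact_mod_cast Nat.totient_pos.2 hr1
      rw [abs_mul, abs_div, abs_of_pos ht]
      have h2 : |((ArithmeticFunction.moebius r : ℤ) : ℝ)| ≤ 1 := by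
        rw [← Int.cast_abs]
        exact_mod_cast ArithmeticFunction.abs_moebius_le_one (n := r)
      calc |((ArithmeticFunction.moebius r : ℤ) : ℝ)| / (r.totient : ℝ) * |(TP.crd r n : ℝ)|
          ≤ 1 / (r.totient : ℝ) * r.totient := by
            apply mul_le_mul _ (TP.ram_abs r n hr1) (abs_nonneg _) (by positivity)
            exact div_le_div_of_nonneg_right h2 ht.le
        _ = 1 := by field_simp
    refine (sum_le_card_nsmul _ _ _ h1).trans ?_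
    rw [Nat.card_Icc, nsmul_eq_mul, Nat.add_sub_cancel, mul_one]
  have hQ' : (1 : ℝ) ≤ Q := by exact_mod_cast hQ
  unfold az
  calc |pr n - il n * TP.lq Q n| ≤ |pr n| + |il n * TP.lq Q n| := abs_sub _ _
    _ ≤ 1 + 1 * Q := by
        rw [abs_mul]
        exact add_le_add hpr (mul_le_mul hil hlq (abs_nonneg _) (by norm_num))
    _ ≤ 2 * Q := by linarith

private theorem lgv_bad (Q q c h X b x : ℕ) (hQ : 1 ≤ Q) (hb : 2 ≤ b) :
    lgvG Q q c h X b x ^ 2 ≤ 4 * (Q : ℝ) ^ 2 * (h : ℝ) ^ 2 := by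
  have h1 : |lgvG Q q c h X b x| ≤ 2 * Q * h := by
    unfold lgvG
    refine (abs_sum_le_sum_abs _ _).trans ?_
    have h2 : ∀ n ∈ (Ioc (x - h) x).filter
        (fun n => b ^ 3 < n ∧ n ≤ b ^ 3 + 2 * X ∧ n % q = c), |az Q n| ≤ 2 * Q := by
      intro n hn
      rw [mem_filter] at hn
      have h3 : 2 ^ 3 ≤ b ^ 3 := Nat.pow_le_pow_left hb 3
      exact lgv_az Q n hQ (by omega)
    refine (sum_le_card_nsmul _ _ _ h2).trans ?_
    rw [nsmul_eq_mul]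
    have h4 : ((Ioc (x - h) x).filter
        (fun n => b ^ 3 < n ∧ n ≤ b ^ 3 + 2 * X ∧ n % q = c)).card ≤ h := by
      refine (card_filter_le _ _).trans ?_
      rw [Nat.card_Ioc]
      omega
    have h5 : ((((Ioc (x - h) x).filter
        (fun n => b ^ 3 < n ∧ n ≤ b ^ 3 + 2 * X ∧ n % q = c)).card : ℕ) : ℝ) ≤ h := by
      exact_mod_cast h4
    have h6 : (0 : ℝ) ≤ 2 * (Q : ℝ) := by positivity
    have h7 := mul_le_mul_of_nonneg_right h5 h6
    linarith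
  have h6 : lgvG Q q c h X b x ^ 2 ≤ (2 * Q * h) ^ 2 := by
    rw [← sq_abs]
    exact pow_le_pow_left₀ (abs_nonneg _) h1 2
  calc _ ≤ _ := h6
    _ = _ := by ring

private theorem lgv_one (Q q c h X b : ℕ) (hQ : 1 ≤ Q) (hb : 2 ≤ b) :
    ∑ x ∈ Icc (b ^ 3 + 1) (b ^ 3 + 2 * X + h), lgvG Q q c h X b x ^ 2 ≤
      ∑ x ∈ Icc (b ^ 3) (b ^ 3 + 2 * X), lgvF Q q c h x ^ 2 +
        8 * (Q : ℝ) ^ 2 * (h : ℝ) ^ 3 := by
  rw [← sum_filter_add_sum_filter_not _ (fun x => b ^ 3 + h ≤ x ∧ x ≤ b ^ 3 + 2 * X)]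
  apply add_le_add
  · have h1 : ∑ x ∈ (Icc (b ^ 3 + 1) (b ^ 3 + 2 * X + h)).filter
        (fun x => b ^ 3 + h ≤ x ∧ x ≤ b ^ 3 + 2 * X), lgvG Q q c h X b x ^ 2 =
        ∑ x ∈ ((Icc (b ^ 3 + 1) (b ^ 3 + 2 * X + h)).filter
        (fun x => b ^ 3 + h ≤ x ∧ x ≤ b ^ 3 + 2 * X)).image (fun x => x - h),
          lgvF Q q c h x ^ 2 := by
      rw [sum_image]
      · refine sum_congr rfl fun x hx => ?_
        rw [mem_filter] at hx
        rw [lgv_good Q q c h X b x hx.2.1 hx.2.2]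
      · intro x hx y hy hxy
        have hx' := (mem_filter.1 (mem_coe.1 hx)).2
        have hy' := (mem_filter.1 (mem_coe.1 hy)).2
        simp only at hxy
        omega
    rw [h1]
    refine sum_le_sum_of_subset_of_nonneg ?_ fun _ _ _ => sq_nonneg _
    intro y hy
    rw [mem_image] at hy
    obtain ⟨x, hx, rfl⟩ := hy
    rw [mem_filter] at hx
    rw [mem_Icc]
    omega
  · have h2 : ∀ x ∈ (Icc (b ^ 3 + 1) (b ^ 3 + 2 * X + h)).filter
        (fun x => ¬ (b ^ 3 + h ≤ x ∧ x ≤ b ^ 3 + 2 * X)),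
        lgvG Q q c h X b x ^ 2 ≤ 4 * (Q : ℝ) ^ 2 * (h : ℝ) ^ 2 :=
      fun x _ => lgv_bad Q q c h X b x hQ hb
    refine (sum_le_card_nsmul _ _ _ h2).trans ?_
    rw [nsmul_eq_mul]
    have h3 : ((Icc (b ^ 3 + 1) (b ^ 3 + 2 * X + h)).filter
        (fun x => ¬ (b ^ 3 + h ≤ x ∧ x ≤ b ^ 3 + 2 * X))).card ≤ 2 * h := by
      have h4 : (Icc (b ^ 3 + 1) (b ^ 3 + 2 * X + h)).filter
          (fun x => ¬ (b ^ 3 + h ≤ x ∧ x ≤ b ^ 3 + 2 * X)) ⊆
          Ico (b ^ 3) (b ^ 3 + h) ∪ Ioc (b ^ 3 + 2 * X) (b ^ 3 + 2 * X + h) := by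
        intro x hx
        rw [mem_filter, mem_Icc] at hx
        rw [mem_union, mem_Ico, mem_Ioc]
        omega
      refine (card_le_card h4).trans ((card_union_le _ _).trans ?_)
      rw [Nat.card_Ico, Nat.card_Ioc]
      omega
    have h5 : ((((Icc (b ^ 3 + 1) (b ^ 3 + 2 * X + h)).filter
        (fun x => ¬ (b ^ 3 + h ≤ x ∧ x ≤ b ^ 3 + 2 * X))).card : ℕ) : ℝ) ≤ 2 * h := by
      exact_mod_cast h3
    calc _ ≤ (2 * h) * (4 * (Q : ℝ) ^ 2 * (h : ℝ) ^ 2) :=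
          mul_le_mul_of_nonneg_right h5 (by positivity)
      _ = _ := by ring

/-- separated sets are small -/
private theorem lgv_sep (s : Finset ℕ) (L D : ℕ) (hL : 1 ≤ L)
    (hsep : ∀ b ∈ s, ∀ b' ∈ s, b < b' → b + L ≤ b')
    (hD : ∀ b ∈ s, ∀ b' ∈ s, b ≤ b' → b' ≤ b + D) : s.card * L ≤ D + L := by
  rcases s.eq_empty_or_nonempty with rfl | hs
  · simp
  have hm := s.min'_mem hs
  have h1 : s.card ≤ (range (D / L + 1)).card := by
    refine card_le_card_of_injOn (fun b => (b - s.min' hs) / L) ?_ ?_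
    · intro b hb
      have hb' := mem_coe.1 hb
      have h2 := hD _ hm b hb' (s.min'_le b hb')
      rw [mem_coe, mem_range, Nat.lt_succ_iff]
      exact Nat.div_le_div_right (by omega)
    · have key : ∀ b ∈ s, ∀ b' ∈ s, b < b' →
          (b - s.min' hs) / L ≠ (b' - s.min' hs) / L := by
        intro b hb b' hb' hlt h3
        have h4 := hsep b hb b' hb' hlt
        have h5 := s.min'_le b hb
        have h6 : (b - s.min' hs) / L + 1 ≤ (b' - s.min' hs) / L := by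
          rw [← Nat.add_div_right _ (by omega)]
          exact Nat.div_le_div_right (by omega)
        omega
      intro b hb b' hb' h3
      rcases lt_trichotomy b b' with h | h | h
      · exact absurd h3 (key b hb b' hb' h)
      · exact h
      · exact absurd h3.symm (key b' hb' b hb h)
  rw [card_range] at h1
  calc s.card * L ≤ (D / L + 1) * L := Nat.mul_le_mul_right _ h1
    _ = D / L * L + L := by ring
    _ ≤ D + L := Nat.add_le_add_right (Nat.div_mul_le_self D L) L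

/-- the blocks overlap at most 44 times -/
private theorem lgv_ovl (bs : Finset ℕ) (M L X x : ℕ) (hL : 1 ≤ L) (hM : 1 ≤ M)
    (hX : X ≤ 64 * M ^ 2 * L) (hb : ∀ b ∈ bs, M ≤ b)
    (hsep : ∀ b ∈ bs, ∀ b' ∈ bs, b < b' → b + L ≤ b') :
    (bs.filter (fun b => b ^ 3 ≤ x ∧ x ≤ b ^ 3 + 2 * X)).card ≤ 44 := by
  have h1 := lgv_sep (bs.filter (fun b => b ^ 3 ≤ x ∧ x ≤ b ^ 3 + 2 * X)) L (43 * L) hL
    (fun b hb1 b' hb1' => hsep b (mem_filter.1 hb1).1 b' (mem_filter.1 hb1').1) (by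
      intro b hb1 b' hb1' hle
      rw [mem_filter] at hb1 hb1'
      obtain ⟨d, rfl⟩ := Nat.exists_eq_add_of_le hle
      have hbM := hb b hb1.1
      have h2 : (b + d) ^ 3 ≤ b ^ 3 + 128 * M ^ 2 * L := by
        have h2a : (b + d) ^ 3 ≤ b ^ 3 + 2 * X := hb1'.2.1.trans hb1.2.2
        have h2b : 128 * M ^ 2 * L = 2 * (64 * M ^ 2 * L) := by ring
        rw [h2b]
        omega
      have h3 : b ^ 3 + 3 * M ^ 2 * d ≤ (b + d) ^ 3 := by
        have h4 : (b + d) ^ 3 = b ^ 3 + 3 * b ^ 2 * d + (3 * b * d ^ 2 + d ^ 3) := by ring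
        have h5 : M ^ 2 ≤ b ^ 2 := Nat.pow_le_pow_left hbM 2
        have h6 : 3 * M ^ 2 * d ≤ 3 * b ^ 2 * d :=
          Nat.mul_le_mul_right _ (Nat.mul_le_mul_left _ h5)
        rw [h4]
        omega
      have h7 : M ^ 2 * (3 * d) ≤ M ^ 2 * (128 * L) := by
        have h8 : 3 * M ^ 2 * d = M ^ 2 * (3 * d) := by ring
        have h9 : 128 * M ^ 2 * L = M ^ 2 * (128 * L) := by ring
        omega
      have h10 := Nat.le_of_mul_le_mul_left h7 (by positivity)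
      omega)
  have h2 : (bs.filter (fun b => b ^ 3 ≤ x ∧ x ≤ b ^ 3 + 2 * X)).card * L ≤ 44 * L := by
    omega
  exact Nat.le_of_mul_le_mul_right h2 (by omega)

/-- exchange of the sums -/
theorem lgv_exch (bs : Finset ℕ) (M L X : ℕ) (hL : 1 ≤ L) (hM : 1 ≤ M)
    (hX : X ≤ 64 * M ^ 2 * L) (hX8 : X ≤ 8 * M ^ 3) (hb : ∀ b ∈ bs, M ≤ b ∧ b ≤ 2 * M)
    (hsep : ∀ b ∈ bs, ∀ b' ∈ bs, b < b' → b + L ≤ b') (f : ℕ → ℝ) (hf : ∀ x, 0 ≤ f x) :
    ∑ b ∈ bs, ∑ x ∈ Icc (b ^ 3) (b ^ 3 + 2 * X), f x ≤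
      44 * ∑ x ∈ Icc (M ^ 3) (32 * M ^ 3), f x := by
  have h1 : ∀ b ∈ bs, ∑ x ∈ Icc (b ^ 3) (b ^ 3 + 2 * X), f x =
      ∑ x ∈ Icc (M ^ 3) (32 * M ^ 3), if b ^ 3 ≤ x ∧ x ≤ b ^ 3 + 2 * X then f x else 0 := by
    intro b hb1
    rw [← sum_filter]
    refine sum_congr ?_ fun _ _ => rfl
    have h2 := hb b hb1
    have h3 : M ^ 3 ≤ b ^ 3 := Nat.pow_le_pow_left h2.1 3
    have h4 : b ^ 3 ≤ (2 * M) ^ 3 := Nat.pow_le_pow_left h2.2 3
    have h5 : (2 * M) ^ 3 = 8 * M ^ 3 := by ring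
    ext x
    rw [mem_filter, mem_Icc, mem_Icc]
    omega
  rw [sum_congr rfl h1, sum_comm, mul_sum]
  refine sum_le_sum fun x _ => ?_
  rw [← sum_filter, sum_const, nsmul_eq_mul]
  refine mul_le_mul_of_nonneg_right ?_ (hf x)
  exact_mod_cast lgv_ovl bs M L X x hL hM hX (fun b hb1 => (hb b hb1).1) hsep

/-- dyadic decomposition -/
private theorem lgv_dya (N : ℝ) (hN : 0 ≤ N) (f : ℕ → ℝ) (k : ℕ) :
    ∑ x ∈ Ioc ⌊N⌋₊ ⌊2 ^ k * N⌋₊, f x =
      ∑ i ∈ range k, ∑ x ∈ Ioc ⌊2 ^ i * N⌋₊ ⌊2 * (2 ^ i * N)⌋₊, f x := by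
  induction k with
  | zero => simp
  | succ k ih =>
    rw [sum_range_succ, ← ih]
    have h1 : ⌊N⌋₊ ≤ ⌊2 ^ k * N⌋₊ := by
      apply Nat.floor_le_floor
      have : (1 : ℝ) ≤ 2 ^ k := one_le_pow₀ (by norm_num)
      exact le_mul_of_one_le_left hN this
    have h2 : ⌊2 ^ k * N⌋₊ ≤ ⌊2 * (2 ^ k * N)⌋₊ := by
      apply Nat.floor_le_floor
      have : (0 : ℝ) ≤ 2 ^ k * N := by positivity
      linarith
    have h3 : (2 : ℝ) ^ (k + 1) * N = 2 * (2 ^ k * N) := by ring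
    rw [h3]
    exact (sum_Ioc_consecutive f h1 h2).symm

/-- the logarithms -/
private theorem lgv_log (X M N : ℝ) (hX : 0 < X) (hM : 1 ≤ M) (h1 : X ≤ 8 * M ^ 3)
    (h2 : M ^ 2 ≤ X) (h3 : M ^ 3 / 2 ≤ N) (h4 : N ≤ 16 * M ^ 3)
    (h5 : 2 * Real.log 16 ≤ Real.log X) :
    Real.log X / 2 ≤ Real.log N ∧ Real.log N ≤ 2 * Real.log X := by
  have hM0 : 0 < M := by linarith
  have hN : 0 < N := lt_of_lt_of_le (by positivity) h3
  constructor
  · have h6 : X / 16 ≤ N := by linarith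
    have h7 := Real.log_le_log (by positivity) h6
    rw [Real.log_div hX.ne' (by norm_num)] at h7
    linarith
  · have h7 := Real.log_le_log hN h4
    rw [Real.log_mul (by norm_num) (by positivity), Real.log_pow] at h7
    have h8 := Real.log_le_log (by positivity) h2
    rw [Real.log_pow] at h8
    push_cast at h7 h8
    linarith

theorem lgv (B A ε : ℝ) (hB : 0 < B) (hA : 0 < A) (hε : 0 < ε) (hε1 : ε ≤ 1) :
    ∃ A1 : ℝ, 0 < A1 ∧ ∃ X0 : ℕ, 10 ≤ X0 ∧ ∀ X : ℕ, X0 ≤ X → ∀ M L : ℕ, X ≤ 8 * M ^ 3 → M ^ 2 ≤ X →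
    X ≤ 64 * M ^ 2 * L → 4 * L ≤ M → ∀ bs : Finset ℕ, (∀ b ∈ bs, M ≤ b ∧ b ≤ 2 * M) →
    (∀ b ∈ bs, ∀ b' ∈ bs, b < b' → b + L ≤ b') →
    ∀ Q q c : ℕ, (Q : ℝ) ≤ (Real.log X) ^ B → 1 ≤ q → q ≤ Q → c < q → ∀ h : ℕ,
    (M : ℝ) ^ ((1 : ℝ) / 2 + 4 * ε) ≤ h → (h : ℝ) ≤ (L : ℝ) ^ 3 * (Real.log X) ^ (-A1) →
    ∑ b ∈ bs, ∑ x ∈ Icc (b ^ 3 + 1) (b ^ 3 + 2 * X + h),
      (∑ n ∈ (Ioc (x - h) x).filter (fun n => b ^ 3 < n ∧ n ≤ b ^ 3 + 2 * X ∧ n % q = c),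
        az Q n) ^ 2 ≤ (M : ℝ) ^ 3 * (h : ℝ) ^ 2 * (Real.log X) ^ (-A) := by
  obtain ⟨A1', X0', hA1', hX0', hfz⟩ := fz (B + 1) (A + 2) ε (by linarith) (by linarith) hε
  have hKpos : ∀ K : ℝ, ∀ᶠ X : ℕ in Filter.atTop, K ≤ Real.log X := fun K =>
    (Real.tendsto_log_atTop.comp tendsto_natCast_atTop_atTop).eventually_ge_atTop K
  have hX16 : ∀ᶠ X : ℕ in Filter.atTop, 16 * X0' ≤ (X : ℝ) :=
    tendsto_natCast_atTop_atTop.eventually_ge_atTop (16 * X0')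
  have hXe : ∀ᶠ X : ℕ in Filter.atTop, (16 : ℝ) ^ ((7 : ℝ) / 6) ≤ ((X : ℝ) / 8) ^ (ε / 3) := by
    have ht : Filter.Tendsto (fun X : ℕ => ((X : ℝ) / 8) ^ (ε / 3)) Filter.atTop Filter.atTop :=
      (tendsto_rpow_atTop (by positivity)).comp
        (tendsto_natCast_atTop_atTop.atTop_div_const (by norm_num))
    exact ht.eventually_ge_atTop _
  obtain ⟨X0, hX0⟩ := Filter.eventually_atTop.1 (((hKpos (2 * Real.log 16 + 2 ^ (B + 1) +
    2 ^ A1' + 2772 * 2 ^ (A + 2) + 2)).and hX16).and hXe)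
  refine ⟨A1' + 1 + 2 * B + A + 1, by positivity, max X0 10, le_max_right _ _, ?_⟩
  intro X hX M L hX8 hMX hXL hLM bs hbs hsep Q q c hQ hq hqQ hc h hh1 hh2
  obtain ⟨⟨hlog, hX16'⟩, hXe'⟩ := hX0 X ((le_max_left _ _).trans hX)
  have hX10 : 10 ≤ X := (le_max_right _ _).trans hX
  set l : ℝ := Real.log X with hl
  have hp1 : (0 : ℝ) < 2 ^ (B + 1) := by positivity
  have hp2 : (0 : ℝ) < 2 ^ A1' := by positivity
  have hp3 : (0 : ℝ) < 2 ^ (A + 2) := by positivity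
  have hp4 : (0 : ℝ) < Real.log 16 := Real.log_pos (by norm_num)
  have hl2 : 2 ≤ l := by linarith
  have hl0 : 0 < l := by linarith
  have hL1 : 1 ≤ L := by
    rcases Nat.eq_zero_or_pos L with h0 | h0
    · rw [h0] at hXL
      omega
    · exact h0
  have hM4 : 4 ≤ M := by omega
  have hQ1 : 1 ≤ Q := hq.trans hqQ
  have hMR : (4 : ℝ) ≤ M := by exact_mod_cast hM4
  have hM0 : (0 : ℝ) < M := by linarith
  have hLR : (1 : ℝ) ≤ L := by exact_mod_cast hL1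
  have hQR : (1 : ℝ) ≤ Q := by exact_mod_cast hQ1
  have hXR : (10 : ℝ) ≤ X := by exact_mod_cast hX10
  have hX8R : (X : ℝ) ≤ 8 * (M : ℝ) ^ 3 := by exact_mod_cast hX8
  have hMXR : (M : ℝ) ^ 2 ≤ X := by exact_mod_cast hMX
  have hLMR : 4 * (L : ℝ) ≤ M := by exact_mod_cast hLM
  -- step 1
  have s1 : ∑ b ∈ bs, ∑ x ∈ Icc (b ^ 3 + 1) (b ^ 3 + 2 * X + h), lgvG Q q c h X b x ^ 2 ≤
      44 * ∑ x ∈ Icc (M ^ 3) (32 * M ^ 3), lgvF Q q c h x ^ 2 +
        bs.card * (8 * (Q : ℝ) ^ 2 * (h : ℝ) ^ 3) := by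
    have h1 := sum_le_sum fun b (hb : b ∈ bs) =>
      lgv_one Q q c h X b hQ1 (by have := (hbs b hb).1; omega)
    rw [sum_add_distrib, sum_const, nsmul_eq_mul] at h1
    have h2 := lgv_exch bs M L X hL1 (by omega) hXL hX8 hbs hsep (fun x => lgvF Q q c h x ^ 2)
      (fun x => sq_nonneg _)
    exact h1.trans (by linarith)
  -- step 2: the number of blocks
  have s2 : (bs.card : ℝ) * (h : ℝ) ≤ (M : ℝ) ^ 3 / 8 * l ^ (-(A1' + 1 + 2 * B + A + 1)) := by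
    have h1 : bs.card * L ≤ M + L := lgv_sep bs L M hL1 hsep (by
      intro b hb b' hb' _
      have := (hbs b hb).1
      have := (hbs b' hb').2
      omega)
    have h2 : (bs.card : ℝ) * L ≤ 2 * M := by
      have h3 : (bs.card : ℝ) * L ≤ M + L := by exact_mod_cast h1
      linarith
    have hl' : 0 < l ^ (-(A1' + 1 + 2 * B + A + 1)) := Real.rpow_pos_of_pos hl0 _
    calc (bs.card : ℝ) * (h : ℝ)
        ≤ bs.card * ((L : ℝ) ^ 3 * l ^ (-(A1' + 1 + 2 * B + A + 1))) :=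
          mul_le_mul_of_nonneg_left hh2 (by positivity)
      _ = (bs.card * L) * ((L : ℝ) ^ 2 * l ^ (-(A1' + 1 + 2 * B + A + 1))) := by ring
      _ ≤ (2 * M) * ((L : ℝ) ^ 2 * l ^ (-(A1' + 1 + 2 * B + A + 1))) :=
          mul_le_mul_of_nonneg_right h2 (by positivity)
      _ ≤ (2 * M) * (((M : ℝ) / 4) ^ 2 * l ^ (-(A1' + 1 + 2 * B + A + 1))) := by
          have h5 : (L : ℝ) ^ 2 ≤ ((M : ℝ) / 4) ^ 2 :=
            pow_le_pow_left₀ (by positivity) (by linarith) 2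
          exact mul_le_mul_of_nonneg_left (mul_le_mul_of_nonneg_right h5 hl'.le) (by positivity)
      _ = _ := by ring
  -- step 3: the dyadic ranges
  have s3 : ∀ i ∈ range 6, ∑ x ∈ Ioc ⌊2 ^ i * ((M : ℝ) ^ 3 / 2)⌋₊
      ⌊2 * (2 ^ i * ((M : ℝ) ^ 3 / 2))⌋₊, lgvF Q q c h x ^ 2 ≤
      (2 ^ i * ((M : ℝ) ^ 3 / 2)) * (h : ℝ) ^ 2 * (l / 2) ^ (-(A + 2)) := by
    intro i hi
    have hi5 : i ≤ 5 := by
      have := mem_range.1 hi
      omega
    set N : ℝ := 2 ^ i * ((M : ℝ) ^ 3 / 2) with hN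
    have hi1 : (1 : ℝ) ≤ 2 ^ i := one_le_pow₀ (by norm_num)
    have hi2 : (2 : ℝ) ^ i ≤ 2 ^ 5 := pow_le_pow_right₀ (by norm_num) hi5
    have hM3 : (0 : ℝ) < (M : ℝ) ^ 3 := by positivity
    have hN1 : (M : ℝ) ^ 3 / 2 ≤ N := by
      rw [hN]
      exact le_mul_of_one_le_left (by positivity) hi1
    have hN2 : N ≤ 16 * (M : ℝ) ^ 3 := by
      rw [hN]
      have e1 := mul_le_mul_of_nonneg_right hi2 (by positivity : (0 : ℝ) ≤ (M : ℝ) ^ 3 / 2)
      norm_num at e1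
      linarith
    have hN0 : 0 < N := by positivity
    obtain ⟨hlN1, hlN2⟩ := lgv_log X M N (by linarith) (by linarith) hX8R hMXR hN1 hN2
      (by linarith)
    have hlN0 : 0 < Real.log N := by linarith
    have c1 : X0' ≤ N := by linarith
    have c2 : (Q : ℝ) ≤ (Real.log N) ^ (B + 1) := by
      calc (Q : ℝ) ≤ l ^ B := hQ
        _ ≤ (l / 2) ^ (B + 1) := by
            rw [Real.div_rpow hl0.le (by norm_num), Real.rpow_add hl0, Real.rpow_one,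
              le_div_iff₀ hp1]
            exact mul_le_mul_of_nonneg_left (by linarith) (Real.rpow_nonneg hl0.le _)
        _ ≤ _ := Real.rpow_le_rpow (by positivity) hlN1 (by linarith)
    have c3 : N ^ ((1 : ℝ) / 6 + ε) ≤ h := by
      refine le_trans ?_ hh1
      calc N ^ ((1 : ℝ) / 6 + ε) ≤ (16 * (M : ℝ) ^ 3) ^ ((1 : ℝ) / 6 + ε) :=
            Real.rpow_le_rpow hN0.le hN2 (by positivity)
        _ = 16 ^ ((1 : ℝ) / 6 + ε) * (M : ℝ) ^ ((1 : ℝ) / 2 + 3 * ε) := by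
            rw [Real.mul_rpow (by norm_num) (by positivity), ← Real.rpow_natCast (M : ℝ) 3,
              ← Real.rpow_mul hM0.le]
            congr 2
            push_cast
            ring
        _ ≤ (M : ℝ) ^ ε * (M : ℝ) ^ ((1 : ℝ) / 2 + 3 * ε) := by
            refine mul_le_mul_of_nonneg_right ?_ (Real.rpow_nonneg hM0.le _)
            calc (16 : ℝ) ^ ((1 : ℝ) / 6 + ε) ≤ 16 ^ ((7 : ℝ) / 6) :=
                  Real.rpow_le_rpow_of_exponent_le (by norm_num) (by linarith)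
              _ ≤ ((X : ℝ) / 8) ^ (ε / 3) := hXe'
              _ ≤ ((M : ℝ) ^ 3) ^ (ε / 3) :=
                  Real.rpow_le_rpow (by positivity) (by linarith) (by positivity)
              _ = (M : ℝ) ^ ε := by
                  rw [← Real.rpow_natCast (M : ℝ) 3, ← Real.rpow_mul hM0.le]
                  congr 1
                  push_cast
                  ring
        _ = (M : ℝ) ^ ((1 : ℝ) / 2 + 4 * ε) := by
            rw [← Real.rpow_add hM0]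
            congr 1
            ring
    have c4 : (h : ℝ) ≤ N * (Real.log N) ^ (-A1') := by
      have h1 : l ^ (-(A1' + 1 + 2 * B + A + 1)) ≤ l ^ (-(A1' + 1)) :=
        Real.rpow_le_rpow_of_exponent_le (by linarith) (by linarith)
      have h2 : l ^ (-(A1' + 1)) ≤ (2 * l) ^ (-A1') := by
        rw [Real.mul_rpow (by norm_num) hl0.le, Real.rpow_neg (by norm_num : (0 : ℝ) ≤ 2),
          neg_add, Real.rpow_add hl0, Real.rpow_neg_one, mul_comm]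
        refine mul_le_mul_of_nonneg_right ?_ (Real.rpow_nonneg hl0.le _)
        exact inv_anti₀ hp2 (by linarith)
      have h3 : (2 * l) ^ (-A1') ≤ (Real.log N) ^ (-A1') := by
        rw [Real.rpow_neg (by positivity), Real.rpow_neg hlN0.le]
        exact inv_anti₀ (Real.rpow_pos_of_pos hlN0 _) (Real.rpow_le_rpow hlN0.le hlN2 hA1'.le)
      have h4 : (L : ℝ) ^ 3 ≤ N := by
        have h5 : (L : ℝ) ^ 3 ≤ ((M : ℝ) / 4) ^ 3 :=
          pow_le_pow_left₀ (by positivity) (by linarith) 3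
        calc (L : ℝ) ^ 3 ≤ ((M : ℝ) / 4) ^ 3 := h5
          _ = (M : ℝ) ^ 3 / 64 := by ring
          _ ≤ N := by linarith
      calc (h : ℝ) ≤ (L : ℝ) ^ 3 * l ^ (-(A1' + 1 + 2 * B + A + 1)) := hh2
        _ ≤ N * (Real.log N) ^ (-A1') :=
            mul_le_mul h4 (h1.trans (h2.trans h3)) (Real.rpow_nonneg hl0.le _) hN0.le
    have h6 := hfz N c1 Q q c c2 hq hqQ hc h c3 c4
    refine le_trans h6 ?_
    refine mul_le_mul_of_nonneg_left ?_ (by positivity)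
    rw [Real.rpow_neg hlN0.le, Real.rpow_neg (by positivity)]
    exact inv_anti₀ (Real.rpow_pos_of_pos (by positivity) _)
      (Real.rpow_le_rpow (by positivity) hlN1 (by linarith))
  have s4 : ∑ x ∈ Icc (M ^ 3) (32 * M ^ 3), lgvF Q q c h x ^ 2 ≤
      63 * ((M : ℝ) ^ 3 / 2) * (h : ℝ) ^ 2 * (l / 2) ^ (-(A + 2)) := by
    have h1 : Icc (M ^ 3) (32 * M ^ 3) ⊆ Ioc ⌊(M : ℝ) ^ 3 / 2⌋₊ ⌊2 ^ 6 * ((M : ℝ) ^ 3 / 2)⌋₊ := by
      intro x hx
      rw [mem_Icc] at hx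
      rw [mem_Ioc]
      constructor
      · rw [Nat.floor_lt (by positivity)]
        have h2 : (M : ℝ) ^ 3 ≤ x := by exact_mod_cast hx.1
        have h3 : (0 : ℝ) < (M : ℝ) ^ 3 := by positivity
        linarith
      · apply Nat.le_floor
        have h2 : (x : ℝ) ≤ 32 * (M : ℝ) ^ 3 := by exact_mod_cast hx.2
        linarith
    refine (sum_le_sum_of_subset_of_nonneg h1 fun _ _ _ => sq_nonneg _).trans ?_
    rw [lgv_dya _ (by positivity)]
    refine (sum_le_sum s3).trans ?_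
    rw [← sum_mul, ← sum_mul, ← sum_mul]
    have h2 : ∑ i ∈ range 6, (2 : ℝ) ^ i = 63 := by
      simp only [sum_range_succ, sum_range_zero]
      norm_num
    rw [h2]
  -- conclusion
  have e1 : (l / 2) ^ (-(A + 2)) = 2 ^ (A + 2) * (l ^ (-A) * (l ^ 2)⁻¹) := by
    rw [Real.div_rpow hl0.le (by norm_num), Real.rpow_neg (by norm_num : (0 : ℝ) ≤ 2), neg_add,
      Real.rpow_add hl0, Real.rpow_neg hl0.le 2]
    have : l ^ (2 : ℝ) = l ^ 2 := by
      rw [← Real.rpow_natCast]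
      norm_num
    rw [this]
    field_simp
  have e2 : 44 * (63 * ((M : ℝ) ^ 3 / 2) * (h : ℝ) ^ 2 * (l / 2) ^ (-(A + 2))) ≤
      (M : ℝ) ^ 3 * (h : ℝ) ^ 2 * l ^ (-A) / 2 := by
    rw [e1]
    have h1 : 2772 * 2 ^ (A + 2) ≤ l ^ 2 := by nlinarith
    have h2 : 2772 * 2 ^ (A + 2) * (l ^ 2)⁻¹ ≤ 1 := by
      rw [← div_eq_mul_inv, div_le_one (by positivity)]
      exact h1
    calc _ = ((M : ℝ) ^ 3 * (h : ℝ) ^ 2 * l ^ (-A) / 2) *
          (2772 * 2 ^ (A + 2) * (l ^ 2)⁻¹) := by ring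
      _ ≤ ((M : ℝ) ^ 3 * (h : ℝ) ^ 2 * l ^ (-A) / 2) * 1 := by
          refine mul_le_mul_of_nonneg_left h2 ?_
          have := Real.rpow_nonneg hl0.le (-A)
          positivity
      _ = _ := mul_one _
  have e3 : bs.card * (8 * (Q : ℝ) ^ 2 * (h : ℝ) ^ 3) ≤
      (M : ℝ) ^ 3 * (h : ℝ) ^ 2 * l ^ (-A) / 2 := by
    have h1 : (Q : ℝ) ^ 2 ≤ l ^ (2 * B) := by
      calc (Q : ℝ) ^ 2 ≤ (l ^ B) ^ 2 := pow_le_pow_left₀ (by positivity) hQ 2
        _ = l ^ (2 * B) := by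
            rw [← Real.rpow_natCast (l ^ B) 2, ← Real.rpow_mul hl0.le]
            congr 1
            push_cast
            ring
    calc bs.card * (8 * (Q : ℝ) ^ 2 * (h : ℝ) ^ 3)
        = (bs.card * (h : ℝ)) * (8 * (Q : ℝ) ^ 2 * (h : ℝ) ^ 2) := by ring
      _ ≤ ((M : ℝ) ^ 3 / 8 * l ^ (-(A1' + 1 + 2 * B + A + 1))) *
            (8 * l ^ (2 * B) * (h : ℝ) ^ 2) := by
          refine mul_le_mul s2 ?_ (by positivity) ?_
          · exact mul_le_mul_of_nonneg_right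
              (mul_le_mul_of_nonneg_left h1 (by norm_num)) (by positivity)
          · have := Real.rpow_nonneg hl0.le (-(A1' + 1 + 2 * B + A + 1))
            positivity
      _ = (M : ℝ) ^ 3 * (h : ℝ) ^ 2 * (l ^ (-(A1' + 1 + 2 * B + A + 1)) * l ^ (2 * B)) := by ring
      _ = (M : ℝ) ^ 3 * (h : ℝ) ^ 2 * l ^ (-(A1' + 1) + (-A) + (-1)) := by
          rw [← Real.rpow_add hl0]
          congr 2
          ring
      _ ≤ (M : ℝ) ^ 3 * (h : ℝ) ^ 2 * (l ^ (-A) * 2⁻¹) := by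
          refine mul_le_mul_of_nonneg_left ?_ (by positivity)
          calc l ^ (-(A1' + 1) + (-A) + (-1)) ≤ l ^ (-A + (-1)) :=
                Real.rpow_le_rpow_of_exponent_le (by linarith) (by linarith)
            _ = l ^ (-A) * l⁻¹ := by rw [Real.rpow_add hl0, Real.rpow_neg_one]
            _ ≤ _ := mul_le_mul_of_nonneg_left (inv_anti₀ (by norm_num) hl2)
                (Real.rpow_nonneg hl0.le _)
      _ = _ := by ring
  have s5 := s1.trans (add_le_add (mul_le_mul_of_nonneg_left s4 (by norm_num)) le_rfl)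
  change ∑ b ∈ bs, ∑ x ∈ Icc (b ^ 3 + 1) (b ^ 3 + 2 * X + h), lgvG Q q c h X b x ^ 2 ≤
    (M : ℝ) ^ 3 * (h : ℝ) ^ 2 * l ^ (-A)
  linarith

end Pool.Agent.H43.HY
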