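import Pool.Agent.H43.LR.Weyl
import Pool.Agent.H43.TP.Tra

/-!
# [H43 HY TRB] Transfer theorem for a block `(b, b+L]`

PROOF. As `TP/Plg.lean` and `TP/Tra.lean`. `Y = b^3`, `a'(ν) = a(Y+ν)` for `1 <= ν <= 2X`, `s_m = (b+m)^3 - b^3 ∈ [0,X]`. Plancherel as in `TP.plg` (general shifts `0 <= s_m <= X`):
`N Σ_{k<=X} ‖Σ_m a'(s_m+k)‖^2 <= Σ_t ‖Ex a' (2X)‖^2 ‖Σ_m e(s_m al)‖^2`, and `‖Σ_m e(s_m x)‖ = ‖LR.Cb b L x‖` (factor `e(-Yx)`). `E` = the `t` with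
`‖Cb b L (al N t)‖ >= κL`; `LR.weyl_b` gives `q <= Q`, `nn(q al) <= Q/L^3`, `|al - b'/q - i| <= Q/L^3 <= 1/(6h)`; `TP.gal` for `a'`; the classes of `ν` mod `q` are the classes of `n = Y + ν`
mod `q`. The windows of `a'`, `x' ∈ [1, 2X+h]`, correspond to `x = Y + x'`. Total as in `TP.tra`.
-/

namespace Pool.Agent.H43.HY

open Finset Pool.Agent.H26.LDP Pool.Agent.H43.TP Pool.Agent.H43.LR

/-- Plancherel for general shifts -/
theorem trb_plg (a : ℕ → ℂ) (s : ℕ → ℕ) (M X N : ℕ) [NeZero N] (hs : ∀ m ∈ Icc 1 M, s m ≤ X)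
    (Cs : ℝ → ℂ) (hCs : Cs = fun x => ∑ m ∈ Icc 1 M, e ((s m : ℝ) * x)) (hN : 3 * X + 1 ≤ N) :
    (N : ℝ) * ∑ k ∈ Icc 1 X, ‖∑ m ∈ Icc 1 M, a (s m + k)‖ ^ 2 ≤
      ∑ t : ZMod N, ‖Ex a (2 * X) (al N t)‖ ^ 2 * ‖Cs (al N t)‖ ^ 2 := by
  obtain ⟨F, hF⟩ : ∃ F : ℤ → ℂ, F = fun k : ℤ => ∑ m ∈ Icc 1 M,
      (if 1 ≤ k + ((s m : ℕ) : ℤ) ∧ k + ((s m : ℕ) : ℤ) ≤ ((2 * X : ℕ) : ℤ) then
        a (k + ((s m : ℕ) : ℤ)).toNat else 0) := ⟨_, rfl⟩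
  have h1 := parseval N (-(X : ℤ)) (3 * X + 1) hN F
  have h2 : ∀ t : ZMod N, ‖∑ k ∈ Ico (-(X : ℤ)) (-(X : ℤ) + ((3 * X + 1 : ℕ) : ℤ)),
      F k * e ((k : ℝ) * al N t)‖ ^ 2 = ‖Ex a (2 * X) (al N t)‖ ^ 2 * ‖Cs (al N t)‖ ^ 2 := by
    intro t
    have h3 : ∑ k ∈ Ico (-(X : ℤ)) (-(X : ℤ) + ((3 * X + 1 : ℕ) : ℤ)),
        F k * e ((k : ℝ) * al N t) = Ex a (2 * X) (al N t) * (starRingEnd ℂ) (Cs (al N t)) := by
      rw [hF]
      simp only [sum_mul]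
      rw [sum_comm]
      rw [hCs]
      dsimp only
      rw [map_sum, mul_sum]
      refine sum_congr rfl fun m hm => ?_
      rw [mem_Icc] at hm
      have h4 : s m ≤ X := hs m (mem_Icc.2 hm)
      rw [plg_shift a (2 * X) (s m) (-(X : ℤ)) (3 * X + 1) (by omega) (by omega)
        (al N t), ← e_neg]
    rw [h3, norm_mul, RCLike.norm_conj]
    ring
  rw [← sum_congr rfl fun t _ => h2 t, h1]
  refine mul_le_mul_of_nonneg_left ?_ (Nat.cast_nonneg N)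
  have h5 : ∑ k ∈ Icc 1 X, ‖∑ m ∈ Icc 1 M, a (s m + k)‖ ^ 2 =
      ∑ k ∈ (Icc 1 X).map Nat.castEmbedding, ‖F k‖ ^ 2 := by
    rw [sum_map]
    refine sum_congr rfl fun k hk => ?_
    rw [mem_Icc] at hk
    congr 2
    rw [hF]
    refine sum_congr rfl fun m hm => ?_
    rw [mem_Icc] at hm
    have h4 : s m ≤ X := hs m (mem_Icc.2 hm)
    have h6 : (Nat.castEmbedding k : ℤ) + ((s m : ℕ) : ℤ) = ((s m + k : ℕ) : ℤ) := by
      rw [Nat.castEmbedding_apply]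
      push_cast
      ring
    rw [h6, if_pos ⟨by omega, by omega⟩, Int.toNat_natCast]
  rw [h5]
  refine sum_le_sum_of_subset_of_nonneg ?_ fun _ _ _ => by positivity
  intro k hk
  rw [mem_map] at hk
  obtain ⟨n, hn, rfl⟩ := hk
  rw [mem_Icc] at hn
  rw [mem_Ico, Nat.castEmbedding_apply]
  push_cast
  omega

/-- the transfer theorem for general shifts -/
theorem trb_gen (a : ℕ → ℂ) (s : ℕ → ℕ) (M X Q h : ℕ) (κ V : ℝ) (hs : ∀ m ∈ Icc 1 M, s m ≤ X)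
    (Cs : ℝ → ℂ) (hCs : Cs = fun x => ∑ m ∈ Icc 1 M, e ((s m : ℝ) * x)) (hCsn : ∀ x, ‖Cs x‖ ≤ M)
    (hW : ∀ x, κ * M ≤ ‖Cs x‖ → ∃ q : ℕ, 1 ≤ q ∧ (q : ℝ) ≤ 2 ^ 64 / κ ^ 24 ∧
      nn ((q : ℝ) * x) ≤ 2 ^ 64 / κ ^ 24 / (M : ℝ) ^ 3) (hκ : 0 < κ) (hκ1 : κ ≤ 1)
    (hκM : 2 ^ 24 ≤ κ ^ 9 * (M : ℝ)) (hQ : 2 ^ 64 / κ ^ 24 ≤ (Q : ℝ)) (hh : 1 ≤ h)
    (hhQ : 6 * h * Q ≤ M ^ 3)
    (hV : ∀ q c : ℕ, 1 ≤ q → q ≤ Q → c < q →
      ∑ x ∈ Icc 1 (2 * X + h), ‖∑ n ∈ (Ioc (x - h) x).filter (fun n => n ≤ 2 * X ∧ n % q = c),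
        a n‖ ^ 2 ≤ V) :
    ∑ k ∈ Icc 1 X, ‖∑ m ∈ Icc 1 M, a (s m + k)‖ ^ 2 ≤
      κ ^ 2 * (M : ℝ) ^ 2 * ∑ n ∈ Icc 1 (2 * X), ‖a n‖ ^ 2 +
        4 * (M : ℝ) ^ 2 * (Q : ℝ) ^ 4 * V / (h : ℝ) ^ 2 := by
  have hQ1 : (1 : ℝ) ≤ Q := by
    refine le_trans ?_ hQ
    rw [le_div_iff₀ (by positivity), one_mul]
    calc κ ^ 24 ≤ 1 := pow_le_one₀ hκ.le hκ1
      _ ≤ 2 ^ 64 := by norm_num
  have hQ1' : 1 ≤ Q := by exact_mod_cast hQ1
  have hM0 : (0 : ℝ) < M := by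
    by_contra hcon
    have : (M : ℝ) = 0 := le_antisymm (not_lt.mp hcon) (Nat.cast_nonneg M)
    rw [this] at hκM
    norm_num at hκM
  have hhR : (1 : ℝ) ≤ h := by exact_mod_cast hh
  have hV0 : 0 ≤ V := by
    refine le_trans ?_ (hV 1 0 le_rfl hQ1' one_pos)
    exact sum_nonneg fun _ _ => by positivity
  obtain ⟨N, hN⟩ : ∃ N : ℕ, N = 4 * X + h + 10 := ⟨_, rfl⟩
  have hNz : NeZero N := ⟨by omega⟩
  have hNR : (0 : ℝ) < N := by
    have : 0 < N := by omega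
    exact_mod_cast this
  have hplg := trb_plg a s M X N hs Cs hCs (by omega)
  have hplsq := plsq a (2 * X) N (by omega)
  obtain ⟨w, hw⟩ : ∃ w : ZMod N → ℝ, w = fun t => ‖Ex a (2 * X) (al N t)‖ ^ 2 := ⟨_, rfl⟩
  have hw0 : ∀ t, 0 ≤ w t := by
    intro t
    rw [hw]
    positivity
  have hwE : ∀ t, ‖Ex a (2 * X) (al N t)‖ ^ 2 = w t := fun t => by rw [hw]
  simp only [hwE] at hplg hplsq
  -- the arcs
  obtain ⟨Eq, hEq⟩ : ∃ Eq : ℕ → ℕ → Finset (ZMod N), ∀ q b t, t ∈ Eq q b ↔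
      ∃ i : ℤ, |al N t - (b : ℝ) / q - i| ≤ 1 / (6 * h) := by
    classical
    refine ⟨fun q b => univ.filter fun t => ∃ i : ℤ, |al N t - (b : ℝ) / q - i| ≤ 1 / (6 * h),
      fun q b t => ?_⟩
    rw [mem_filter]
    exact ⟨fun h => h.2, fun h => ⟨mem_univ _, h⟩⟩
  have hgal : ∀ q b : ℕ, 1 ≤ q → q ≤ Q →
      (h : ℝ) ^ 2 * ∑ t ∈ Eq q b, w t ≤ 4 * N * ((Q : ℝ) ^ 2 * V) := by
    intro q b hq hqQ
    have h1 := gal a (2 * X) N q b h hq hh (by omega) (Eq q b) (fun t ht => (hEq q b t).1 ht)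
    simp only [hwE] at h1
    refine h1.trans ?_
    refine mul_le_mul_of_nonneg_left ?_ (by positivity)
    have hqR : (q : ℝ) ≤ Q := by exact_mod_cast hqQ
    calc ∑ x ∈ Icc 1 (2 * X + h), ‖∑ n ∈ (Ioc (x - h) x).filter (fun n => n ≤ 2 * X),
          a n * e ((n : ℝ) * ((b : ℝ) / q))‖ ^ 2
        ≤ ∑ x ∈ Icc 1 (2 * X + h), q * ∑ c ∈ range q,
          ‖∑ n ∈ (Ioc (x - h) x).filter (fun n => n ≤ 2 * X ∧ n % q = c), a n‖ ^ 2 := by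
          refine sum_le_sum fun x _ => ?_
          have h2 := tra_split a ((Ioc (x - h) x).filter (fun n => n ≤ 2 * X)) q b hq
          simp only [filter_filter] at h2
          exact h2
      _ = q * ∑ c ∈ range q, ∑ x ∈ Icc 1 (2 * X + h),
          ‖∑ n ∈ (Ioc (x - h) x).filter (fun n => n ≤ 2 * X ∧ n % q = c), a n‖ ^ 2 := by
          rw [← mul_sum, sum_comm]
      _ ≤ q * ∑ _c ∈ range q, V := by
          refine mul_le_mul_of_nonneg_left ?_ (Nat.cast_nonneg q)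
          exact sum_le_sum fun c hc => hV q c hq hqQ (mem_range.1 hc)
      _ = (q : ℝ) * q * V := by
          rw [sum_const, card_range, nsmul_eq_mul]
          ring
      _ ≤ (Q : ℝ) ^ 2 * V := by
          refine mul_le_mul_of_nonneg_right ?_ hV0
          rw [sq]
          exact mul_le_mul hqR hqR (Nat.cast_nonneg q) (by linarith)
  -- the major arcs
  have hmaj : ∀ t : ZMod N, κ * M ≤ ‖Cs (al N t)‖ → ∃ q ∈ Icc 1 Q, ∃ b ∈ range q, t ∈ Eq q b := by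
    intro t ht
    obtain ⟨q, hq1, hq2, hq3⟩ := hW (al N t) ht
    have hqQ : q ≤ Q := by exact_mod_cast hq2.trans hQ
    have hqR : (1 : ℝ) ≤ q := by exact_mod_cast hq1
    refine ⟨q, mem_Icc.2 ⟨hq1, hqQ⟩, ?_⟩
    obtain ⟨c, hc⟩ : ∃ c : ℤ, c = round ((q : ℝ) * al N t) := ⟨_, rfl⟩
    have hqz : (q : ℤ) ≠ 0 := by omega
    have hq0 : (0 : ℤ) < q := by omega
    have hmod0 : 0 ≤ c % q := Int.emod_nonneg _ hqz
    have hmod1 : c % q < q := Int.emod_lt_of_pos _ hq0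
    refine ⟨(c % q).toNat, mem_range.2 (by omega), (hEq _ _ t).2 ⟨c / q, ?_⟩⟩
    have hnn : |(q : ℝ) * al N t - c| ≤ (Q : ℝ) / (M : ℝ) ^ 3 := by
      rw [hc]
      refine hq3.trans ?_
      exact div_le_div_of_nonneg_right hQ (by positivity)
    have hcast : (((c % q).toNat : ℕ) : ℝ) = ((c % q : ℤ) : ℝ) := by
      have : (((c % q).toNat : ℕ) : ℤ) = c % q := Int.toNat_of_nonneg hmod0
      exact_mod_cast congrArg (Int.cast : ℤ → ℝ) this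
    have hdm : ((c % q : ℤ) : ℝ) = (c : ℝ) - q * ((c / q : ℤ) : ℝ) := by
      have : c % q = c - q * (c / q) := by
        have := Int.emod_add_mul_ediv c q
        linarith
      rw [this]
      push_cast
      ring
    have heq : al N t - (((c % q).toNat : ℕ) : ℝ) / q - ((c / q : ℤ) : ℝ) =
        ((q : ℝ) * al N t - c) / q := by
      rw [hcast, hdm]
      field_simp
      ring
    rw [heq, abs_div, abs_of_pos (by linarith : (0 : ℝ) < q)]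
    have h1 : (Q : ℝ) / (M : ℝ) ^ 3 ≤ 1 / (6 * h) := by
      rw [div_le_div_iff₀ (by positivity) (by positivity)]
      have h2 : (6 * h * Q : ℝ) ≤ (M : ℝ) ^ 3 := by exact_mod_cast hhQ
      linarith
    refine le_trans ?_ (hnn.trans h1)
    exact div_le_self (abs_nonneg _) hqR
  have hEsum : ∑ t ∈ univ.filter (fun t : ZMod N => κ * M ≤ ‖Cs (al N t)‖), w t ≤
      ∑ q ∈ Icc 1 Q, ∑ b ∈ range q, ∑ t ∈ Eq q b, w t := by
    classical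
    have h1 : ∀ t ∈ univ.filter (fun t : ZMod N => κ * M ≤ ‖Cs (al N t)‖),
        w t ≤ ∑ q ∈ Icc 1 Q, ∑ b ∈ range q, if t ∈ Eq q b then w t else 0 := by
      intro t ht
      obtain ⟨q, hq, b, hb, htb⟩ := hmaj t (mem_filter.1 ht).2
      have h2 : ∑ b ∈ range q, (if t ∈ Eq q b then w t else 0) ≤
          ∑ q ∈ Icc 1 Q, ∑ b ∈ range q, if t ∈ Eq q b then w t else 0 := by
        refine single_le_sum (f := fun q => ∑ b ∈ range q, if t ∈ Eq q b then w t else 0) ?_ hq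
        intro q _
        refine sum_nonneg fun b _ => ?_
        split_ifs
        · exact hw0 t
        · exact le_rfl
      have h3 : (if t ∈ Eq q b then w t else 0) ≤ ∑ b ∈ range q, if t ∈ Eq q b then w t else 0 := by
        refine single_le_sum (f := fun b => if t ∈ Eq q b then w t else 0) ?_ hb
        intro b _
        split_ifs
        · exact hw0 t
        · exact le_rfl
      rw [if_pos htb] at h3
      exact h3.trans h2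
    refine (sum_le_sum h1).trans ?_
    rw [sum_comm]
    refine sum_le_sum fun q _ => ?_
    rw [sum_comm]
    refine sum_le_sum fun b _ => ?_
    rw [← sum_filter]
    refine sum_le_sum_of_subset_of_nonneg ?_ fun t _ _ => hw0 t
    intro t ht
    exact (mem_filter.1 ht).2
  have hEbd : (h : ℝ) ^ 2 * ∑ t ∈ univ.filter (fun t : ZMod N => κ * M ≤ ‖Cs (al N t)‖), w t ≤
      4 * N * (Q : ℝ) ^ 4 * V := by
    refine (mul_le_mul_of_nonneg_left hEsum (by positivity)).trans ?_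
    rw [mul_sum]
    simp only [mul_sum (range _)]
    calc ∑ q ∈ Icc 1 Q, ∑ b ∈ range q, (h : ℝ) ^ 2 * ∑ t ∈ Eq q b, w t
        ≤ ∑ q ∈ Icc 1 Q, ∑ b ∈ range q, 4 * N * ((Q : ℝ) ^ 2 * V) := by
          refine sum_le_sum fun q hq => sum_le_sum fun b _ => ?_
          rw [mem_Icc] at hq
          exact hgal q b hq.1 hq.2
      _ ≤ ∑ q ∈ Icc 1 Q, (Q : ℝ) * (4 * N * ((Q : ℝ) ^ 2 * V)) := by
          refine sum_le_sum fun q hq => ?_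
          rw [sum_const, card_range, nsmul_eq_mul]
          rw [mem_Icc] at hq
          refine mul_le_mul_of_nonneg_right ?_ (by positivity)
          exact_mod_cast hq.2
      _ = 4 * N * (Q : ℝ) ^ 4 * V := by
          rw [sum_const, Nat.card_Icc, Nat.add_sub_cancel, nsmul_eq_mul]
          ring
  have hh2 : (0 : ℝ) < (h : ℝ) ^ 2 := by positivity
  have hEbd' : ∑ t ∈ univ.filter (fun t : ZMod N => κ * M ≤ ‖Cs (al N t)‖), w t ≤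
      4 * N * (Q : ℝ) ^ 4 * V / (h : ℝ) ^ 2 := by
    rw [le_div_iff₀ hh2]
    linarith
  have hsplit : ∑ t : ZMod N, w t * ‖Cs (al N t)‖ ^ 2 ≤
      κ ^ 2 * (M : ℝ) ^ 2 * ∑ t : ZMod N, w t +
        (M : ℝ) ^ 2 * ∑ t ∈ univ.filter (fun t : ZMod N => κ * M ≤ ‖Cs (al N t)‖), w t := by
    rw [mul_sum, mul_sum, sum_filter, ← sum_add_distrib]
    refine sum_le_sum fun t _ => ?_
    have hCM : ‖Cs (al N t)‖ ^ 2 ≤ (M : ℝ) ^ 2 := pow_le_pow_left₀ (norm_nonneg _) (hCsn _) 2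
    split_ifs with hc
    · have h1 : w t * ‖Cs (al N t)‖ ^ 2 ≤ w t * (M : ℝ) ^ 2 :=
        mul_le_mul_of_nonneg_left hCM (hw0 t)
      have h2 : 0 ≤ κ ^ 2 * (M : ℝ) ^ 2 * w t := by
        have := hw0 t
        positivity
      linarith
    · have h1 : ‖Cs (al N t)‖ ^ 2 ≤ (κ * M) ^ 2 :=
        pow_le_pow_left₀ (norm_nonneg _) (not_le.1 hc).le 2
      have h2 := mul_le_mul_of_nonneg_left h1 (hw0 t)
      rw [mul_pow] at h2
      linarith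
  have hfin : (N : ℝ) * ∑ k ∈ Icc 1 X, ‖∑ m ∈ Icc 1 M, a (s m + k)‖ ^ 2 ≤
      (N : ℝ) * (κ ^ 2 * (M : ℝ) ^ 2 * ∑ n ∈ Icc 1 (2 * X), ‖a n‖ ^ 2 +
        4 * (M : ℝ) ^ 2 * (Q : ℝ) ^ 4 * V / (h : ℝ) ^ 2) := by
    refine hplg.trans (hsplit.trans ?_)
    rw [hplsq]
    have h1 := mul_le_mul_of_nonneg_left hEbd' (by positivity : (0 : ℝ) ≤ (M : ℝ) ^ 2)
    calc κ ^ 2 * (M : ℝ) ^ 2 * ((N : ℝ) * ∑ n ∈ Icc 1 (2 * X), ‖a n‖ ^ 2) +
        (M : ℝ) ^ 2 * ∑ t ∈ univ.filter (fun t : ZMod N => κ * M ≤ ‖Cs (al N t)‖), w t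
        ≤ κ ^ 2 * (M : ℝ) ^ 2 * ((N : ℝ) * ∑ n ∈ Icc 1 (2 * X), ‖a n‖ ^ 2) +
          (M : ℝ) ^ 2 * (4 * N * (Q : ℝ) ^ 4 * V / (h : ℝ) ^ 2) := by linarith
      _ = _ := by
        field_simp
  exact le_of_mul_le_mul_left hfin hNR

theorem trb (a : ℕ → ℂ) (b L X Q h : ℕ) (κ V : ℝ) (hM : (b + L) ^ 3 ≤ b ^ 3 + X) (hκ : 0 < κ)
    (hκ1 : κ ≤ 1) (hκM : 2 ^ 24 ≤ κ ^ 9 * (L : ℝ)) (hQ : 2 ^ 64 / κ ^ 24 ≤ (Q : ℝ)) (hh : 1 ≤ h)
    (hhQ : 6 * h * Q ≤ L ^ 3)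
    (hV : ∀ q c : ℕ, 1 ≤ q → q ≤ Q → c < q →
      ∑ x ∈ Icc (b ^ 3 + 1) (b ^ 3 + 2 * X + h),
        ‖∑ n ∈ (Ioc (x - h) x).filter (fun n => b ^ 3 < n ∧ n ≤ b ^ 3 + 2 * X ∧ n % q = c),
          a n‖ ^ 2 ≤ V) :
    ∑ k ∈ Icc 1 X, ‖∑ m ∈ Icc 1 L, a ((b + m) ^ 3 + k)‖ ^ 2 ≤
      κ ^ 2 * (L : ℝ) ^ 2 * ∑ n ∈ Ioc (b ^ 3) (b ^ 3 + 2 * X), ‖a n‖ ^ 2 +
        4 * (L : ℝ) ^ 2 * (Q : ℝ) ^ 4 * V / (h : ℝ) ^ 2 := by
  obtain ⟨s, hsdef⟩ : ∃ s : ℕ → ℕ, s = fun m => (b + m) ^ 3 - b ^ 3 := ⟨_, rfl⟩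
  have hsb : ∀ m, b ^ 3 + s m = (b + m) ^ 3 := by
    intro m
    rw [hsdef]
    dsimp only
    have : b ^ 3 ≤ (b + m) ^ 3 := Nat.pow_le_pow_left (Nat.le_add_right b m) 3
    omega
  have hs : ∀ m ∈ Icc 1 L, s m ≤ X := by
    intro m hm
    rw [mem_Icc] at hm
    have h1 : (b + m) ^ 3 ≤ (b + L) ^ 3 := Nat.pow_le_pow_left (by omega) 3
    have h2 := hsb m
    omega
  have hCb : ∀ x, ‖∑ m ∈ Icc 1 L, e ((s m : ℝ) * x)‖ = ‖Cb b L x‖ := by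
    intro x
    have h1 : Cb b L x = e ((b : ℝ) ^ 3 * x) * ∑ m ∈ Icc 1 L, e ((s m : ℝ) * x) := by
      unfold Cb
      rw [mul_sum]
      refine sum_congr rfl fun m _ => ?_
      rw [← e_add]
      congr 1
      have h2 : ((b + m : ℕ) : ℝ) ^ 3 = (b : ℝ) ^ 3 + s m := by
        have := hsb m
        exact_mod_cast this.symm
      rw [h2]
      ring
    rw [h1, norm_mul, norm_e, one_mul]
  have hmain := trb_gen (fun n => a (b ^ 3 + n)) s L X Q h κ V hs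
    (fun x => ∑ m ∈ Icc 1 L, e ((s m : ℝ) * x)) rfl
    (fun x => by rw [hCb]; exact norm_Cb_le b L x)
    (fun x hx => weyl_b b L x κ hκ hκ1 hκM (by rw [← hCb]; exact hx)) hκ hκ1 hκM hQ hh hhQ ?_
  · have h1 : ∀ m k, b ^ 3 + (s m + k) = (b + m) ^ 3 + k := by
      intro m k
      rw [← add_assoc, hsb]
    simp only [h1] at hmain
    refine hmain.trans (le_of_eq ?_)
    congr 2
    refine sum_bij' (fun n _ => b ^ 3 + n) (fun n _ => n - b ^ 3) ?_ ?_ ?_ ?_ ?_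
    · intro n hn
      rw [mem_Icc] at hn
      rw [mem_Ioc]
      omega
    · intro n hn
      rw [mem_Ioc] at hn
      rw [mem_Icc]
      omega
    · intro n _
      omega
    · intro n hn
      rw [mem_Ioc] at hn
      omega
    · intro n _
      rfl
  · intro q c hq hqQ hc
    refine le_trans (le_of_eq ?_) (hV q ((b ^ 3 + c) % q) hq hqQ (Nat.mod_lt _ (by omega)))
    refine sum_bij' (fun x _ => b ^ 3 + x) (fun x _ => x - b ^ 3) ?_ ?_ ?_ ?_ ?_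
    · intro x hx
      rw [mem_Icc] at hx ⊢
      omega
    · intro x hx
      rw [mem_Icc] at hx ⊢
      omega
    · intro x _
      omega
    · intro x hx
      rw [mem_Icc] at hx
      omega
    · intro x hx
      congr 2
      refine sum_bij' (fun n _ => b ^ 3 + n) (fun n _ => n - b ^ 3) ?_ ?_ ?_ ?_ ?_
      · intro n hn
        rw [mem_filter, mem_Ioc] at hn ⊢
        refine ⟨by omega, by omega, by omega, ?_⟩
        have h1 : n % q = c % q := by rw [hn.2.2, Nat.mod_eq_of_lt hc]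
        exact Nat.ModEq.add_left (b ^ 3) h1
      · intro n hn
        rw [mem_filter, mem_Ioc] at hn ⊢
        refine ⟨by omega, by omega, ?_⟩
        have h1 : (b ^ 3 + (n - b ^ 3)) % q = (b ^ 3 + c) % q := by
          rw [Nat.add_sub_cancel' (by omega)]
          exact hn.2.2.2
        have h2 : (n - b ^ 3) % q = c % q := Nat.ModEq.add_left_cancel' (b ^ 3) h1
        rw [h2, Nat.mod_eq_of_lt hc]
      · intro n _
        omega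
      · intro n hn
        rw [mem_filter, mem_Ioc] at hn
        omega
      · intro n _
        rfl

end Pool.Agent.H43.HY
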