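import Pool.Agent.H43.TP.L2m
import Pool.Agent.H43.HY.Trb
import Pool.Agent.H43.HY.Lgv

/-!
# [H43 HY LG] Dyadic ranges `(M, M']`, `2M <= M' <= 2M+1`, `8M^3 >= X`

PROOF. `ℓ = log X`, `L = ⌊X/(32M^2)⌋₊` (`>= X^(1/13)/64`, `X <= 64M^2L`, `4L <= M` as `X <= 8M^3`). `J = (M'-M)/L` (natural division), blocks `(b_j, b_j + L_j]`, `b_j = M + jL`, `j < J`,
`L_j = L` for `j < J-1` and `L <= L_{J-1} < 2L` (up to `M'`). `(b+2L)^3 - b^3 <= X` for `b <= 2M+1`: `<= 3*(2M+1)^2*2L + 3(2M+1)4L^2 + 8L^3 <= 31 M^2 L <= X`.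
`κ = ℓ^(-k0)`. `lgv` with `(25k0, 150k0 + A + 10, ε)` gives `A1`; `h = ⌊L^3/(6Qℓ^A1)⌋₊`: `6hQ <= L^3 <= L_j^3`, `h <= L^3 ℓ^(-A1)`, `h >= M^(1/2+4ε)`: `L^3 >= X^3/(64M^2)^3`, and
`M^(13/2+4ε) <= X^(3-6.5*2ε+2ε..)`: precisely `M <= X^(6/13-2ε)` gives `M^(6.5+4ε) <= X^(3-13ε+2ε)`, so `X^3 M^(-6) >= M^(1/2+4ε) X^(11ε) >= M^(1/2+4ε) 2^30 Q ℓ^A1`.
`trb` for each block with `a = az Q` (complex), `V_j = Σ_{q<=Q} Σ_{c<q} Σ_x (..)^2` (at least each single sum): `Σ_j V_j <= Q^2 M^3 h^2 ℓ^(-150k0-A-10)` (`lgv` for each `(q,c)`, `bs = {b_j}`). So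
`Σ_j Σ_{k<=X} |Σ_{block j}|^2 <= κ^2 4L^2 Σ_j Σ_{n∈(b_j^3, b_j^3+2X]} |az n|^2 + 16 L^2 Q^4 h^(-2) Σ_j V_j`; the second is `<= 16 L^2 M^3 ℓ^(-A-10)` (`Q^6 <= ℓ^(150k0)`). A given `n` lies in at most
`200` of the intervals, `Σ_{n<=20M^3} |az n|^2 <= 2*20M^3 + 2(40M^3(1+log Q)^2 + 4Q^4) <= M^3 ℓ/1000` (`TP.l2m`), the first is `<= L^2 M^3 ℓ^(1-2k0) <= L^2 M^3 ℓ^(-A-1)` (`k0 >= A/2+1`). Cauchy-Schwarz over
the `J <= (M+1)/L` blocks: `Σ_k |Σ_{m∈(M,M']}|^2 <= J Σ_j Σ_k |..|^2 <= (2M/L) 2 L^2 M^3 ℓ^(-A-1) = 4 L M^4 ℓ^(-A-1) <= X M^2 ℓ^(-A)` (`32 L M^2 <= X`).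
-/

namespace Pool.Agent.H43.HY

open Finset

private theorem lg_shift (f : ℕ → ℝ) (b n : ℕ) :
    ∑ m ∈ Ioc b (b + n), f m = ∑ i ∈ Icc 1 n, f (b + i) := by
  induction n with
  | zero => simp
  | succ n ih =>
    rw [← add_assoc, sum_Ioc_succ_top (by omega), sum_Icc_succ_top (by omega), ih]
    rfl

/-- the lengths of the blocks, `J' + 1` blocks -/
private def lgLen (M M' L J' j : ℕ) : ℕ := if j < J' then L else M' - (M + J' * L)

private theorem lg_dec (f : ℕ → ℝ) (M M' L J' : ℕ) (h : M + J' * L ≤ M') :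
    ∑ m ∈ Ioc M M', f m =
      ∑ j ∈ range (J' + 1), ∑ i ∈ Icc 1 (lgLen M M' L J' j), f (M + j * L + i) := by
  rw [sum_range_succ]
  have h1 : ∀ K ≤ J', ∑ j ∈ range K, ∑ i ∈ Icc 1 (lgLen M M' L J' j), f (M + j * L + i) =
      ∑ m ∈ Ioc M (M + K * L), f m := by
    intro K hK
    induction K with
    | zero => simp
    | succ K ih =>
      have h2 : lgLen M M' L J' K = L := by
        unfold lgLen
        rw [if_pos (by omega)]
      have h3 : M + (K + 1) * L = M + K * L + L := by ring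
      rw [sum_range_succ, ih (by omega), h2, ← lg_shift f (M + K * L) L, h3]
      exact sum_Ioc_consecutive f (by omega) (by omega)
  have h4 : lgLen M M' L J' J' = M' - (M + J' * L) := by
    unfold lgLen
    rw [if_neg (by omega)]
  rw [h1 J' le_rfl, h4, ← lg_shift f (M + J' * L)]
  have h5 : M + J' * L + (M' - (M + J' * L)) = M' := by omega
  rw [h5]
  exact (sum_Ioc_consecutive f (by omega) h).symm

private theorem lg_cube (b M n L X : ℕ) (hb : b ≤ 2 * M) (hn : n ≤ 2 * L) (hL : 4 * L ≤ M)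
    (hX : 32 * M ^ 2 * L ≤ X) : (b + n) ^ 3 ≤ b ^ 3 + X := by
  have h1 : (b + n) ^ 3 = b ^ 3 + (3 * b ^ 2 * n + 3 * b * n ^ 2 + n ^ 3) := by ring
  have h2 : b ^ 2 ≤ (2 * M) ^ 2 := Nat.pow_le_pow_left hb 2
  have h3 : n ^ 2 ≤ (2 * L) ^ 2 := Nat.pow_le_pow_left hn 2
  have h4 : n ^ 3 ≤ (2 * L) ^ 3 := Nat.pow_le_pow_left hn 3
  have h5 : 3 * b ^ 2 * n ≤ 3 * (2 * M) ^ 2 * (2 * L) :=
    Nat.mul_le_mul (Nat.mul_le_mul_left _ h2) hn
  have h6 : 3 * b * n ^ 2 ≤ 3 * (2 * M) * (2 * L) ^ 2 :=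
    Nat.mul_le_mul (Nat.mul_le_mul_left _ hb) h3
  have h7 : 3 * (2 * M) * (2 * L) ^ 2 ≤ 6 * M ^ 2 * L := by
    have : 3 * (2 * M) * (2 * L) ^ 2 = 6 * M * L * (4 * L) := by ring
    rw [this]
    calc 6 * M * L * (4 * L) ≤ 6 * M * L * M := Nat.mul_le_mul_left _ hL
      _ = 6 * M ^ 2 * L := by ring
  have h8 : (2 * L) ^ 3 ≤ M ^ 2 * L := by
    have h9 : (4 * L) ^ 2 ≤ M ^ 2 := Nat.pow_le_pow_left hL 2
    calc (2 * L) ^ 3 = 8 * L ^ 2 * L := by ring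
      _ ≤ (4 * L) ^ 2 * L := by
          apply Nat.mul_le_mul_right
          have e1 : (4 * L) ^ 2 = 16 * L ^ 2 := by ring
          rw [e1]
          exact Nat.mul_le_mul_right _ (by norm_num)
      _ ≤ M ^ 2 * L := Nat.mul_le_mul_right _ h9
  have h10 : 3 * (2 * M) ^ 2 * (2 * L) = 24 * M ^ 2 * L := by ring
  rw [h1]
  have h11 : 24 * M ^ 2 * L + 6 * M ^ 2 * L + M ^ 2 * L ≤ 32 * M ^ 2 * L := by
    have e1 : 32 * M ^ 2 * L = (24 * M ^ 2 * L + 6 * M ^ 2 * L + M ^ 2 * L) + M ^ 2 * L := by ring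
    rw [e1]
    exact Nat.le_add_right _ _
  omega

private theorem lg_norm (s : Finset ℕ) (f : ℕ → ℝ) : ‖∑ n ∈ s, (f n : ℂ)‖ ^ 2 = (∑ n ∈ s, f n) ^ 2 := by
  rw [← Complex.ofReal_sum, Complex.norm_real, Real.norm_eq_abs, sq_abs]

private theorem lg_core (X M M' L J' Q h : ℕ) (κ E : ℝ) (hL : 1 ≤ L) (hM : 1 ≤ M)
    (hJ1 : M + (J' + 1) * L ≤ M') (hJ2 : M' < M + (J' + 2) * L) (hM' : M' ≤ 2 * M + 1)
    (hLM : 4 * L ≤ M) (hX32 : 32 * M ^ 2 * L ≤ X) (hX64 : X ≤ 64 * M ^ 2 * L)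
    (hX8 : X ≤ 8 * M ^ 3) (hκ : 0 < κ) (hκ1 : κ ≤ 1) (hκM : 2 ^ 24 ≤ κ ^ 9 * (L : ℝ))
    (hQ : 2 ^ 64 / κ ^ 24 ≤ (Q : ℝ)) (hQ1 : 1 ≤ Q) (hh : 1 ≤ h) (hhQ : 6 * h * Q ≤ L ^ 3)
    (hE : ∀ q c : ℕ, 1 ≤ q → q ≤ Q → c < q →
      ∑ b ∈ (range (J' + 1)).image (fun j => M + j * L),
        ∑ x ∈ Icc (b ^ 3 + 1) (b ^ 3 + 2 * X + h),
          (∑ n ∈ (Ioc (x - h) x).filter (fun n => b ^ 3 < n ∧ n ≤ b ^ 3 + 2 * X ∧ n % q = c),
            az Q n) ^ 2 ≤ E) :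
    ∑ k ∈ Icc 1 X, (∑ m ∈ Ioc M M', az Q (m ^ 3 + k)) ^ 2 ≤
      ((J' + 1 : ℕ) : ℝ) * (κ ^ 2 * (2 * (L : ℝ)) ^ 2 *
        (44 * ∑ n ∈ Icc (M ^ 3) (32 * M ^ 3), (az Q n) ^ 2) +
        4 * (2 * (L : ℝ)) ^ 2 * (Q : ℝ) ^ 4 * ((Q : ℝ) ^ 2 * E) / (h : ℝ) ^ 2) := by
  classical
  have e1 : (J' + 1) * L = J' * L + L := by ring
  have e2 : (J' + 2) * L = J' * L + 2 * L := by ring
  have hJ1' : M + J' * L + L ≤ M' := by omega
  have hJ2' : M' < M + J' * L + 2 * L := by omega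
  set J := J' + 1 with hJ
  set b : ℕ → ℕ := fun j => M + j * L with hbdef
  set len : ℕ → ℕ := lgLen M M' L J' with hlen
  have hlen1 : ∀ j, L ≤ len j ∧ len j ≤ 2 * L := by
    intro j
    rw [hlen]
    unfold lgLen
    split_ifs <;> omega
  have hb2 : ∀ j ∈ range J, b j ≤ 2 * M := by
    intro j hj
    have hj' : j ≤ J' := by
      have := mem_range.1 hj
      omega
    have h1 : j * L ≤ J' * L := Nat.mul_le_mul_right _ hj'
    simp only [hbdef]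
    omega
  set W : ℕ → ℕ → ℕ → ℝ := fun b q c => ∑ x ∈ Icc (b ^ 3 + 1) (b ^ 3 + 2 * X + h),
    (∑ n ∈ (Ioc (x - h) x).filter (fun n => b ^ 3 < n ∧ n ≤ b ^ 3 + 2 * X ∧ n % q = c),
      az Q n) ^ 2 with hW
  have hW0 : ∀ b q c, 0 ≤ W b q c := fun b q c => sum_nonneg fun x _ => sq_nonneg _
  set V : ℕ → ℝ := fun b => ∑ q ∈ Icc 1 Q, ∑ c ∈ range q, W b q c with hV
  have hinj : Set.InjOn b (range J) := by
    intro i _ j _ hij
    simp only [hbdef] at hij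
    have h1 : i * L = j * L := by omega
    exact Nat.eq_of_mul_eq_mul_right (by omega) h1
  -- each block
  have hblock : ∀ j ∈ range J, ∑ k ∈ Icc 1 X, (∑ i ∈ Icc 1 (len j), az Q ((b j + i) ^ 3 + k)) ^ 2 ≤
      κ ^ 2 * (2 * (L : ℝ)) ^ 2 * ∑ n ∈ Icc ((b j) ^ 3) ((b j) ^ 3 + 2 * X), (az Q n) ^ 2 +
        4 * (2 * (L : ℝ)) ^ 2 * (Q : ℝ) ^ 4 * V (b j) / (h : ℝ) ^ 2 := by
    intro j hj
    have hl := hlen1 j
    have hlR : (L : ℝ) ≤ (len j : ℝ) := by exact_mod_cast hl.1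
    have hlR2 : (len j : ℝ) ≤ 2 * L := by exact_mod_cast hl.2
    have h1 := trb (fun n => ((az Q n : ℝ) : ℂ)) (b j) (len j) X Q h κ (V (b j))
      (lg_cube (b j) M (len j) L X (hb2 j hj) hl.2 hLM hX32) hκ hκ1
      (hκM.trans (mul_le_mul_of_nonneg_left hlR (by positivity))) hQ hh
      (hhQ.trans (Nat.pow_le_pow_left hl.1 3)) (by
        intro q c hq hqQ hc
        have h2 : ∑ x ∈ Icc ((b j) ^ 3 + 1) ((b j) ^ 3 + 2 * X + h),
            ‖∑ n ∈ (Ioc (x - h) x).filter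
              (fun n => (b j) ^ 3 < n ∧ n ≤ (b j) ^ 3 + 2 * X ∧ n % q = c),
              ((az Q n : ℝ) : ℂ)‖ ^ 2 = W (b j) q c := by
          refine sum_congr rfl fun x _ => ?_
          rw [lg_norm]
        rw [h2]
        calc W (b j) q c ≤ ∑ c ∈ range q, W (b j) q c :=
              single_le_sum (fun c _ => hW0 (b j) q c) (mem_range.2 hc)
          _ ≤ V (b j) := single_le_sum (f := fun q => ∑ c ∈ range q, W (b j) q c)
              (fun q _ => sum_nonneg fun c _ => hW0 (b j) q c) (mem_Icc.2 ⟨hq, hqQ⟩))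
    have h3 : ∑ k ∈ Icc 1 X, (∑ i ∈ Icc 1 (len j), az Q ((b j + i) ^ 3 + k)) ^ 2 =
        ∑ k ∈ Icc 1 X, ‖∑ m ∈ Icc 1 (len j), ((az Q ((b j + m) ^ 3 + k) : ℝ) : ℂ)‖ ^ 2 := by
      refine sum_congr rfl fun k _ => ?_
      rw [lg_norm]
    rw [h3]
    refine h1.trans ?_
    have h4 : ∑ n ∈ Ioc ((b j) ^ 3) ((b j) ^ 3 + 2 * X), ‖((az Q n : ℝ) : ℂ)‖ ^ 2 ≤
        ∑ n ∈ Icc ((b j) ^ 3) ((b j) ^ 3 + 2 * X), (az Q n) ^ 2 := by
      have h5 : ∀ n, ‖((az Q n : ℝ) : ℂ)‖ ^ 2 = (az Q n) ^ 2 := by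
        intro n
        rw [Complex.norm_real, Real.norm_eq_abs, sq_abs]
      simp only [h5]
      exact sum_le_sum_of_subset_of_nonneg Ioc_subset_Icc_self fun _ _ _ => sq_nonneg _
    have h6 : (len j : ℝ) ^ 2 ≤ (2 * (L : ℝ)) ^ 2 :=
      pow_le_pow_left₀ (by positivity) hlR2 2
    have hVn : 0 ≤ V (b j) := sum_nonneg fun q _ => sum_nonneg fun c _ => hW0 _ _ _
    apply add_le_add
    · exact mul_le_mul (mul_le_mul_of_nonneg_left h6 (by positivity)) h4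
        (sum_nonneg fun n _ => by positivity) (by positivity)
    · apply div_le_div_of_nonneg_right _ (by positivity)
      exact mul_le_mul_of_nonneg_right (mul_le_mul_of_nonneg_right
        (mul_le_mul_of_nonneg_left h6 (by norm_num)) (by positivity)) hVn
  -- sum over the blocks
  have hsq : ∑ j ∈ range J, ∑ n ∈ Icc ((b j) ^ 3) ((b j) ^ 3 + 2 * X), (az Q n) ^ 2 ≤
      44 * ∑ n ∈ Icc (M ^ 3) (32 * M ^ 3), (az Q n) ^ 2 := by
    have h1 : ∑ j ∈ range J, ∑ n ∈ Icc ((b j) ^ 3) ((b j) ^ 3 + 2 * X), (az Q n) ^ 2 =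
        ∑ b ∈ (range J).image b, ∑ n ∈ Icc (b ^ 3) (b ^ 3 + 2 * X), (az Q n) ^ 2 := by
      rw [sum_image hinj]
    rw [h1]
    refine lgv_exch _ M L X hL hM hX64 hX8 ?_ ?_ (fun n => (az Q n) ^ 2) fun _ => sq_nonneg _
    · intro y hy
      rw [mem_image] at hy
      obtain ⟨j, hj, rfl⟩ := hy
      exact ⟨Nat.le_add_right _ _, hb2 j hj⟩
    · intro y hy y' hy' hlt
      rw [mem_image] at hy hy'
      obtain ⟨i, hi, rfl⟩ := hy
      obtain ⟨j, hj, rfl⟩ := hy'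
      simp only [hbdef] at hlt ⊢
      have hij : i < j := by
        by_contra hcon
        have : j * L ≤ i * L := Nat.mul_le_mul_right _ (by omega)
        omega
      have h2 : (i + 1) * L ≤ j * L := Nat.mul_le_mul_right _ hij
      have h3 : (i + 1) * L = i * L + L := by ring
      omega
  have hE0 : 0 ≤ E := by
    refine le_trans ?_ (hE 1 0 le_rfl hQ1 (by norm_num))
    exact sum_nonneg fun b _ => sum_nonneg fun x _ => sq_nonneg _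
  have hVs : ∑ j ∈ range J, V (b j) ≤ (Q : ℝ) ^ 2 * E := by
    have h1 : ∑ j ∈ range J, V (b j) = ∑ q ∈ Icc 1 Q, ∑ c ∈ range q,
        ∑ b ∈ (range J).image b, W b q c := by
      have h2 : ∀ q c, ∑ b ∈ (range J).image b, W b q c = ∑ j ∈ range J, W (b j) q c := by
        intro q c
        rw [sum_image hinj]
      simp only [h2, hV]
      rw [sum_comm]
      refine sum_congr rfl fun q _ => ?_
      rw [sum_comm]
    rw [h1]
    have h3 : ∀ q ∈ Icc 1 Q, ∑ c ∈ range q, ∑ b ∈ (range J).image b, W b q c ≤ Q * E := by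
      intro q hq
      rw [mem_Icc] at hq
      have h4 : ∑ c ∈ range q, ∑ b ∈ (range J).image b, W b q c ≤ q * E := by
        refine (sum_le_card_nsmul _ _ E fun c hc => hE q c hq.1 hq.2 (mem_range.1 hc)).trans ?_
        rw [card_range, nsmul_eq_mul]
      have h5 : (q : ℝ) ≤ Q := by exact_mod_cast hq.2
      exact h4.trans (mul_le_mul_of_nonneg_right h5 hE0)
    refine (sum_le_card_nsmul _ _ _ h3).trans ?_
    rw [Nat.card_Icc, nsmul_eq_mul, Nat.add_sub_cancel]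
    apply le_of_eq
    ring
  have hfin : ∑ j ∈ range J, ∑ k ∈ Icc 1 X,
      (∑ i ∈ Icc 1 (len j), az Q ((b j + i) ^ 3 + k)) ^ 2 ≤
      κ ^ 2 * (2 * (L : ℝ)) ^ 2 * (44 * ∑ n ∈ Icc (M ^ 3) (32 * M ^ 3), (az Q n) ^ 2) +
        4 * (2 * (L : ℝ)) ^ 2 * (Q : ℝ) ^ 4 * ((Q : ℝ) ^ 2 * E) / (h : ℝ) ^ 2 := by
    refine (sum_le_sum hblock).trans ?_
    rw [sum_add_distrib, ← mul_sum, ← sum_div, ← mul_sum]
    apply add_le_add
    · exact mul_le_mul_of_nonneg_left hsq (by positivity)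
    · apply div_le_div_of_nonneg_right _ (by positivity)
      exact mul_le_mul_of_nonneg_left hVs (by positivity)
  calc ∑ k ∈ Icc 1 X, (∑ m ∈ Ioc M M', az Q (m ^ 3 + k)) ^ 2
      = ∑ k ∈ Icc 1 X, (∑ j ∈ range J, ∑ i ∈ Icc 1 (len j), az Q ((b j + i) ^ 3 + k)) ^ 2 := by
        refine sum_congr rfl fun k _ => ?_
        rw [lg_dec (fun m => az Q (m ^ 3 + k)) M M' L J' (by omega)]
    _ ≤ ∑ k ∈ Icc 1 X, (J : ℝ) * ∑ j ∈ range J,
          (∑ i ∈ Icc 1 (len j), az Q ((b j + i) ^ 3 + k)) ^ 2 := by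
        refine sum_le_sum fun k _ => ?_
        have h1 := sq_sum_le_card_mul_sum_sq (s := range J)
          (f := fun j => ∑ i ∈ Icc 1 (len j), az Q ((b j + i) ^ 3 + k))
        rw [card_range] at h1
        exact h1
    _ = (J : ℝ) * ∑ j ∈ range J, ∑ k ∈ Icc 1 X,
          (∑ i ∈ Icc 1 (len j), az Q ((b j + i) ^ 3 + k)) ^ 2 := by
        rw [← mul_sum, sum_comm]
    _ ≤ _ := mul_le_mul_of_nonneg_left hfin (by positivity)

private theorem lg_l2 (Q M : ℕ) (hQ : 1 ≤ Q) (hM : 2 ≤ M) :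
    ∑ n ∈ Icc (M ^ 3) (32 * M ^ 3), (az Q n) ^ 2 ≤
      64 * (M : ℝ) ^ 3 + 128 * (M : ℝ) ^ 3 * (1 + Real.log Q) ^ 2 + 8 * (Q : ℝ) ^ 4 := by
  have hM8 : 8 ≤ M ^ 3 := by
    calc 8 = 2 ^ 3 := by norm_num
      _ ≤ M ^ 3 := Nat.pow_le_pow_left hM 3
  have h1 : ∀ n ∈ Icc (M ^ 3) (32 * M ^ 3), (az Q n) ^ 2 ≤ 2 + 2 * (TP.lq Q n) ^ 2 := by
    intro n hn
    have hn8 : 8 ≤ n := hM8.trans (mem_Icc.1 hn).1
    have hn' : (8 : ℝ) ≤ n := by exact_mod_cast hn8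
    have hlog : 1 ≤ Real.log n := by
      rw [Real.le_log_iff_exp_le (by linarith)]
      have := Real.exp_one_lt_d9
      linarith
    have hil0 : 0 ≤ il n := by
      unfold il
      positivity
    have hil : il n ≤ 1 := by
      unfold il
      rw [div_le_one (by linarith)]
      exact hlog
    have hil2 : (il n) ^ 2 ≤ 1 := pow_le_one₀ hil0 hil
    have hpr : (pr n) ^ 2 ≤ 1 := by
      unfold pr
      split_ifs <;> norm_num
    unfold az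
    have h2 : (il n * TP.lq Q n) ^ 2 ≤ (TP.lq Q n) ^ 2 := by
      rw [mul_pow]
      exact mul_le_of_le_one_left (sq_nonneg _) hil2
    have e3 := sq_nonneg (pr n + il n * TP.lq Q n)
    have e4 : (pr n - il n * TP.lq Q n) ^ 2 =
        2 * (pr n) ^ 2 + 2 * (il n * TP.lq Q n) ^ 2 - (pr n + il n * TP.lq Q n) ^ 2 := by ring
    rw [e4]
    linarith
  refine (sum_le_sum h1).trans ?_
  have h3 : ∑ n ∈ Icc (M ^ 3) (32 * M ^ 3), (2 + 2 * (TP.lq Q n) ^ 2 : ℝ) ≤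
      ∑ n ∈ Icc 1 (32 * M ^ 3), (2 + 2 * (TP.lq Q n) ^ 2 : ℝ) :=
    sum_le_sum_of_subset_of_nonneg (Icc_subset_Icc_left (by omega)) fun _ _ _ => by positivity
  refine h3.trans ?_
  rw [sum_add_distrib, ← mul_sum, sum_const, Nat.card_Icc, nsmul_eq_mul, Nat.add_sub_cancel]
  have h4 := TP.l2m Q (32 * M ^ 3) hQ
  push_cast at h4 ⊢
  linarith

private theorem lg_ev (c s : ℝ) (hs : 0 < s) (r : ℝ) :
    ∀ᶠ X : ℕ in Filter.atTop, c * (Real.log X) ^ r ≤ (X : ℝ) ^ s := by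
  have h1 := (isLittleO_log_rpow_rpow_atTop r hs).comp_tendsto tendsto_natCast_atTop_atTop
  have hc : (0 : ℝ) < (|c| + 1)⁻¹ := by positivity
  filter_upwards [h1.bound hc, Filter.eventually_ge_atTop 3] with X hX hX3
  simp only [Function.comp_apply] at hX
  have hX3' : (3 : ℝ) ≤ X := by exact_mod_cast hX3
  have hl : 0 ≤ Real.log X := Real.log_nonneg (by linarith)
  have hlr : 0 ≤ (Real.log X) ^ r := Real.rpow_nonneg hl _
  have hxr : 0 ≤ (X : ℝ) ^ s := by positivity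
  rw [Real.norm_of_nonneg hlr, Real.norm_of_nonneg hxr] at hX
  have h2 : (|c| + 1) * (Real.log X) ^ r ≤ (X : ℝ) ^ s := by
    calc (|c| + 1) * (Real.log X) ^ r ≤ (|c| + 1) * ((|c| + 1)⁻¹ * (X : ℝ) ^ s) :=
          mul_le_mul_of_nonneg_left hX (by positivity)
      _ = _ := by field_simp
  have h3 : c ≤ |c| + 1 := by linarith [le_abs_self c]
  exact (mul_le_mul_of_nonneg_right h3 hlr).trans h2

private theorem lg_ev2 (a b : ℝ) : ∀ᶠ X : ℕ in Filter.atTop,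
    a + b * (Real.log (Real.log X)) ^ 2 ≤ Real.log X / 1000 := by
  have h0 : Filter.Tendsto (fun X : ℕ => Real.log X) Filter.atTop Filter.atTop :=
    Real.tendsto_log_atTop.comp tendsto_natCast_atTop_atTop
  have h1 : ∀ᶠ y : ℝ in Filter.atTop, a + b * (Real.log y) ^ 2 ≤ y / 1000 := by
    have h2 := (Real.isLittleO_pow_log_id_atTop (n := 2)).bound
      (show (0 : ℝ) < (2000 * (|b| + 1))⁻¹ by positivity)
    filter_upwards [h2, Filter.eventually_ge_atTop (2000 * |a| + 1)] with y hy hy1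
    have hy0 : 0 < y := by
      have := abs_nonneg a
      linarith
    rw [id, Real.norm_of_nonneg (sq_nonneg _), Real.norm_of_nonneg hy0.le] at hy
    have h3 : (|b| + 1) * (Real.log y) ^ 2 ≤ y / 2000 := by
      calc (|b| + 1) * (Real.log y) ^ 2 ≤ (|b| + 1) * ((2000 * (|b| + 1))⁻¹ * y) :=
            mul_le_mul_of_nonneg_left hy (by positivity)
        _ = _ := by field_simp
    have h4 : b * (Real.log y) ^ 2 ≤ (|b| + 1) * (Real.log y) ^ 2 :=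
      mul_le_mul_of_nonneg_right (by linarith [le_abs_self b]) (sq_nonneg _)
    have h5 := le_abs_self a
    linarith
  exact h0.eventually h1

theorem lg (A ε : ℝ) (k0 : ℕ) (hA : 0 < A) (hε : 0 < ε) (hε1 : ε ≤ 1 / 100)
    (hk0 : A / 2 + 1 ≤ k0) :
    ∃ X0 : ℕ, ∀ X : ℕ, X0 ≤ X → ∀ Q M M' : ℕ, 2 ^ 64 * (Real.log X) ^ (24 * k0) ≤ Q →
    (Q : ℝ) ≤ (Real.log X) ^ (25 * k0) → X ≤ 8 * M ^ 3 →
    (M : ℝ) ≤ (X : ℝ) ^ ((6 : ℝ) / 13 - 2 * ε) → 2 * M ≤ M' → M' ≤ 2 * M + 1 →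
    ∑ k ∈ Icc 1 X, (∑ m ∈ Ioc M M', az Q (m ^ 3 + k)) ^ 2 ≤
      X * (M : ℝ) ^ 2 * (Real.log X) ^ (-A) := by
  have hk1 : 1 ≤ k0 := by
    have : (1 : ℝ) < k0 := by linarith
    exact_mod_cast this.le
  have hkR : (1 : ℝ) ≤ k0 := by exact_mod_cast hk1
  obtain ⟨A1, hA1, X1, hX1, hlgv⟩ := lgv ((25 * k0 : ℕ) : ℝ) (150 * k0 + A + 10) ε
    (by positivity) (by positivity) hε (by linarith)
  have hl2 : ∀ᶠ X : ℕ in Filter.atTop, 2 ≤ Real.log X :=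
    (Real.tendsto_log_atTop.comp tendsto_natCast_atTop_atTop).eventually_ge_atTop 2
  obtain ⟨X0, hX0⟩ := Filter.eventually_atTop.1 ((((hl2.and
    (lg_ev (64 * 2 ^ 24) (1 / 13) (by norm_num) ((9 * k0 : ℕ) : ℝ))).and
    (lg_ev (2 ^ 22) (11 * ε) (by positivity) (((25 * k0 : ℕ) : ℝ) + A1))).and
    (lg_ev 64 1 one_pos ((100 * k0 : ℕ) : ℝ))).and
    (lg_ev2 (67 + 256) (256 * (25 * k0) ^ 2)))
  refine ⟨max X0 X1, ?_⟩
  intro X hX Q M M' hQ1 hQ2 hX8 hM hM'1 hM'2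
  obtain ⟨⟨⟨⟨hl, ca⟩, cb⟩, cc⟩, cd⟩ := hX0 X ((le_max_left _ _).trans hX)
  have hXX1 : X1 ≤ X := (le_max_right _ _).trans hX
  have hX10 : 10 ≤ X := hX1.trans hXX1
  set l : ℝ := Real.log X with hldef
  have hl0 : 0 < l := by linarith
  rw [Real.rpow_natCast] at ca cc
  rw [Real.rpow_one] at cc
  have hXR : (10 : ℝ) ≤ X := by exact_mod_cast hX10
  have hX0' : (0 : ℝ) < X := by linarith
  have hX8R : (X : ℝ) ≤ 8 * (M : ℝ) ^ 3 := by exact_mod_cast hX8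
  have hM2 : 2 ≤ M := by
    by_contra hcon
    have h1 : M ≤ 1 := by omega
    have h2 : M ^ 3 ≤ 1 := by
      calc M ^ 3 ≤ 1 ^ 3 := Nat.pow_le_pow_left h1 3
        _ = 1 := by norm_num
    omega
  have hMR : (2 : ℝ) ≤ M := by exact_mod_cast hM2
  have hM0 : (0 : ℝ) < M := by linarith
  have hQR0 : (0 : ℝ) < Q := lt_of_lt_of_le (by positivity) hQ1
  have hQ0 : 1 ≤ Q := by
    have : 0 < Q := by exact_mod_cast hQR0
    omega
  have hQR : (1 : ℝ) ≤ Q := by exact_mod_cast hQ0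
  -- `M ^ 2` is small
  have hMsq : (M : ℝ) ^ 2 ≤ (X : ℝ) ^ ((12 : ℝ) / 13) := by
    calc (M : ℝ) ^ 2 ≤ ((X : ℝ) ^ ((6 : ℝ) / 13 - 2 * ε)) ^ 2 :=
          pow_le_pow_left₀ hM0.le hM 2
      _ = (X : ℝ) ^ (2 * ((6 : ℝ) / 13 - 2 * ε)) := by
          rw [← Real.rpow_natCast, ← Real.rpow_mul hX0'.le]
          congr 1
          push_cast
          ring
      _ ≤ _ := Real.rpow_le_rpow_of_exponent_le (by linarith) (by linarith)
  have hXs : (X : ℝ) = (X : ℝ) ^ ((12 : ℝ) / 13) * (X : ℝ) ^ ((1 : ℝ) / 13) := by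
    rw [← Real.rpow_add hX0']
    norm_num
  have hMX : (M : ℝ) ^ 2 ≤ X := by
    refine hMsq.trans ?_
    conv_rhs => rw [← Real.rpow_one (X : ℝ)]
    exact Real.rpow_le_rpow_of_exponent_le (by linarith) (by norm_num)
  have hMXn : M ^ 2 ≤ X := by exact_mod_cast hMX
  have hr0 : (X : ℝ) ^ ((1 : ℝ) / 13) / 64 ≤ (X : ℝ) / (64 * (M : ℝ) ^ 2) := by
    rw [div_le_div_iff₀ (by norm_num) (by positivity)]
    have h1 : (X : ℝ) ^ ((1 : ℝ) / 13) * (M : ℝ) ^ 2 ≤ X := by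
      calc (X : ℝ) ^ ((1 : ℝ) / 13) * (M : ℝ) ^ 2
          ≤ (X : ℝ) ^ ((1 : ℝ) / 13) * (X : ℝ) ^ ((12 : ℝ) / 13) :=
            mul_le_mul_of_nonneg_left hMsq (by positivity)
        _ = X := by rw [mul_comm]; exact hXs.symm
    linarith
  have hlk : (1 : ℝ) ≤ l ^ (9 * k0) := one_le_pow₀ (by linarith)
  have hr1 : 2 ^ 24 * l ^ (9 * k0) ≤ (X : ℝ) / (64 * (M : ℝ) ^ 2) := by
    refine le_trans ?_ hr0
    rw [le_div_iff₀ (by norm_num)]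
    linarith
  have hr2 : (1 : ℝ) ≤ (X : ℝ) / (64 * (M : ℝ) ^ 2) := by
    refine le_trans ?_ hr1
    linarith
  -- the length of the blocks
  set L : ℕ := ⌊(X : ℝ) / (32 * (M : ℝ) ^ 2)⌋₊ with hLdef
  have hL1 : (L : ℝ) ≤ (X : ℝ) / (32 * (M : ℝ) ^ 2) := Nat.floor_le (by positivity)
  have hL2 : (X : ℝ) / (64 * (M : ℝ) ^ 2) ≤ L := by
    have h1 := Nat.lt_floor_add_one ((X : ℝ) / (32 * (M : ℝ) ^ 2))
    have h2 : (X : ℝ) / (32 * (M : ℝ) ^ 2) = 2 * ((X : ℝ) / (64 * (M : ℝ) ^ 2)) := by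
      field_simp
      norm_num
    rw [← hLdef] at h1
    linarith
  have hLR1 : (1 : ℝ) ≤ L := hr2.trans hL2
  have hLn1 : 1 ≤ L := by exact_mod_cast hLR1
  have hL0 : (0 : ℝ) < L := by linarith
  have hX32R : 32 * (M : ℝ) ^ 2 * L ≤ X := by
    rw [le_div_iff₀ (by positivity)] at hL1
    linarith
  have hX32 : 32 * M ^ 2 * L ≤ X := by exact_mod_cast hX32R
  have hX64R : (X : ℝ) ≤ 64 * (M : ℝ) ^ 2 * L := by
    rw [div_le_iff₀ (by positivity)] at hL2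
    linarith
  have hX64 : X ≤ 64 * M ^ 2 * L := by exact_mod_cast hX64R
  have hLM : 4 * L ≤ M := by
    have h1 : M ^ 2 * (32 * L) ≤ M ^ 2 * (8 * M) := by
      calc M ^ 2 * (32 * L) = 32 * M ^ 2 * L := by ring
        _ ≤ X := hX32
        _ ≤ 8 * M ^ 3 := hX8
        _ = M ^ 2 * (8 * M) := by ring
    have h2 := Nat.le_of_mul_le_mul_left h1 (by positivity)
    omega
  -- the number of the blocks
  obtain ⟨J', hJ'⟩ : ∃ J', (M' - M) / L = J' + 1 := by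
    have h1 : 1 ≤ (M' - M) / L := by
      rw [Nat.le_div_iff_mul_le (by omega)]
      omega
    exact ⟨(M' - M) / L - 1, by omega⟩
  have hJ1 : M + (J' + 1) * L ≤ M' := by
    have h1 := Nat.div_mul_le_self (M' - M) L
    rw [hJ'] at h1
    omega
  have hJ2 : M' < M + (J' + 2) * L := by
    have h1 := Nat.lt_mul_of_div_lt (show (M' - M) / L < J' + 2 by omega)
      (by omega : 0 < L)
    omega
  -- the windows
  have hT0 : 0 < 6 * (Q : ℝ) * l ^ A1 := by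
    have := Real.rpow_pos_of_pos hl0 A1
    positivity
  set T : ℝ := (L : ℝ) ^ 3 / (6 * (Q : ℝ) * l ^ A1) with hT
  set h : ℕ := ⌊T⌋₊ with hh
  have hlA1 : 1 ≤ l ^ A1 := Real.one_le_rpow (by linarith) hA1.le
  have hTp : 0 < T := by positivity
  have hhT : (h : ℝ) ≤ T := Nat.floor_le hTp.le
  have hM1 : 1 ≤ (M : ℝ) ^ ((1 : ℝ) / 2 + 4 * ε) := Real.one_le_rpow (by linarith) (by positivity)
  have hT2 : 2 * (M : ℝ) ^ ((1 : ℝ) / 2 + 4 * ε) ≤ T := by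
    rw [hT, le_div_iff₀ hT0]
    have h1 : (X : ℝ) ^ 3 ≤ 2 ^ 18 * (M : ℝ) ^ 6 * (L : ℝ) ^ 3 := by
      calc (X : ℝ) ^ 3 ≤ (64 * (M : ℝ) ^ 2 * L) ^ 3 := pow_le_pow_left₀ hX0'.le hX64R 3
        _ = _ := by ring
    have h2 : (M : ℝ) ^ ((13 : ℝ) / 2 + 4 * ε) ≤ (X : ℝ) ^ (3 - 11 * ε) := by
      calc (M : ℝ) ^ ((13 : ℝ) / 2 + 4 * ε)
          ≤ ((X : ℝ) ^ ((6 : ℝ) / 13 - 2 * ε)) ^ ((13 : ℝ) / 2 + 4 * ε) :=
            Real.rpow_le_rpow hM0.le hM (by positivity)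
        _ = (X : ℝ) ^ (((6 : ℝ) / 13 - 2 * ε) * ((13 : ℝ) / 2 + 4 * ε)) := by
            rw [← Real.rpow_mul hX0'.le]
        _ ≤ _ := by
            apply Real.rpow_le_rpow_of_exponent_le (by linarith)
            have e1 : ((6 : ℝ) / 13 - 2 * ε) * ((13 : ℝ) / 2 + 4 * ε) =
                3 - 145 / 13 * ε - 8 * ε ^ 2 := by ring
            have e2 := sq_nonneg ε
            rw [e1]
            linarith
    have h3 : 2 ^ 22 * l ^ (((25 * k0 : ℕ) : ℝ) + A1) * (M : ℝ) ^ ((13 : ℝ) / 2 + 4 * ε) ≤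
        (X : ℝ) ^ 3 := by
      calc 2 ^ 22 * l ^ (((25 * k0 : ℕ) : ℝ) + A1) * (M : ℝ) ^ ((13 : ℝ) / 2 + 4 * ε)
          ≤ (X : ℝ) ^ (11 * ε) * (X : ℝ) ^ (3 - 11 * ε) :=
            mul_le_mul cb h2 (by positivity) (by positivity)
        _ = (X : ℝ) ^ 3 := by
            rw [← Real.rpow_add hX0', ← Real.rpow_natCast]
            congr 1
            push_cast
            ring
    have h4 : (M : ℝ) ^ ((13 : ℝ) / 2 + 4 * ε) = (M : ℝ) ^ 6 * (M : ℝ) ^ ((1 : ℝ) / 2 + 4 * ε) := by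
      rw [← Real.rpow_natCast, ← Real.rpow_add hM0]
      congr 1
      push_cast
      ring
    have h5 : l ^ (((25 * k0 : ℕ) : ℝ) + A1) = l ^ (25 * k0) * l ^ A1 := by
      rw [Real.rpow_add hl0, Real.rpow_natCast]
    rw [h4, h5] at h3
    have h6 : (M : ℝ) ^ 6 * (2 ^ 18 * (2 * (M : ℝ) ^ ((1 : ℝ) / 2 + 4 * ε) *
        (6 * (Q : ℝ) * l ^ A1))) ≤ (M : ℝ) ^ 6 * (2 ^ 18 * (L : ℝ) ^ 3) := by
      have hq : (Q : ℝ) * l ^ A1 ≤ l ^ (25 * k0) * l ^ A1 :=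
        mul_le_mul_of_nonneg_right hQ2 (by linarith)
      have hz : 0 ≤ (M : ℝ) ^ 6 * (M : ℝ) ^ ((1 : ℝ) / 2 + 4 * ε) := by positivity
      have hz2 := mul_le_mul_of_nonneg_left hq hz
      have hz3 : 0 ≤ (M : ℝ) ^ 6 * (M : ℝ) ^ ((1 : ℝ) / 2 + 4 * ε) * (l ^ (25 * k0) * l ^ A1) := by
        positivity
      calc (M : ℝ) ^ 6 * (2 ^ 18 * (2 * (M : ℝ) ^ ((1 : ℝ) / 2 + 4 * ε) *
            (6 * (Q : ℝ) * l ^ A1)))
          = 12 * 2 ^ 18 * ((M : ℝ) ^ 6 * (M : ℝ) ^ ((1 : ℝ) / 2 + 4 * ε) *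
              ((Q : ℝ) * l ^ A1)) := by ring
        _ ≤ 12 * 2 ^ 18 * ((M : ℝ) ^ 6 * (M : ℝ) ^ ((1 : ℝ) / 2 + 4 * ε) *
              (l ^ (25 * k0) * l ^ A1)) := mul_le_mul_of_nonneg_left hz2 (by norm_num)
        _ ≤ 2 ^ 22 * ((M : ℝ) ^ 6 * (M : ℝ) ^ ((1 : ℝ) / 2 + 4 * ε) *
              (l ^ (25 * k0) * l ^ A1)) := mul_le_mul_of_nonneg_right (by norm_num) hz3
        _ = 2 ^ 22 * (l ^ (25 * k0) * l ^ A1) *
              ((M : ℝ) ^ 6 * (M : ℝ) ^ ((1 : ℝ) / 2 + 4 * ε)) := by ring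
        _ ≤ (X : ℝ) ^ 3 := h3
        _ ≤ _ := h1
        _ = _ := by ring
    have h7 := le_of_mul_le_mul_left h6 (by positivity)
    exact le_of_mul_le_mul_left h7 (by norm_num)
  have hhM : (M : ℝ) ^ ((1 : ℝ) / 2 + 4 * ε) ≤ h := by
    have h1 := Nat.lt_floor_add_one T
    rw [← hh] at h1
    linarith
  have hhR1 : (1 : ℝ) ≤ h := hM1.trans hhM
  have hh1 : 1 ≤ h := by exact_mod_cast hhR1
  have hhL : (h : ℝ) ≤ (L : ℝ) ^ 3 * l ^ (-A1) := by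
    refine hhT.trans ?_
    rw [hT, Real.rpow_neg hl0.le, ← div_eq_mul_inv]
    apply div_le_div_of_nonneg_left (by positivity) (by linarith)
    have e1 : 1 * l ^ A1 ≤ 6 * (Q : ℝ) * l ^ A1 :=
      mul_le_mul_of_nonneg_right (by linarith) (by linarith)
    linarith
  have hhQ : 6 * h * Q ≤ L ^ 3 := by
    have h1 : (6 : ℝ) * h * Q ≤ (L : ℝ) ^ 3 := by
      have h2 : (h : ℝ) * (6 * (Q : ℝ) * l ^ A1) ≤ (L : ℝ) ^ 3 := by
        rw [← le_div_iff₀ hT0]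
        exact hhT
      have h3 : (h : ℝ) * (6 * (Q : ℝ)) ≤ (h : ℝ) * (6 * (Q : ℝ)) * l ^ A1 :=
        le_mul_of_one_le_right (by positivity) hlA1
      calc (6 : ℝ) * h * Q = (h : ℝ) * (6 * (Q : ℝ)) := by ring
        _ ≤ _ := h3
        _ = (h : ℝ) * (6 * (Q : ℝ) * l ^ A1) := by ring
        _ ≤ _ := h2
    exact_mod_cast h1
  -- the core
  have hκ0 : 0 < (l ^ k0)⁻¹ := by positivity
  have hκ1 : (l ^ k0)⁻¹ ≤ 1 := inv_le_one_of_one_le₀ (one_le_pow₀ (by linarith))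
  have hcore := lg_core X M M' L J' Q h ((l ^ k0)⁻¹)
    ((M : ℝ) ^ 3 * (h : ℝ) ^ 2 * l ^ (-(150 * k0 + A + 10 : ℝ)))
    hLn1 (by omega) hJ1 hJ2 hM'2 hLM hX32 hX64 hX8 hκ0 hκ1 (by
      rw [inv_pow, ← pow_mul, mul_comm k0 9, inv_mul_eq_div, le_div_iff₀ (by positivity)]
      exact hr1.trans hL2) (by
      rw [inv_pow, ← pow_mul, mul_comm k0 24, div_inv_eq_mul]
      exact hQ1) hQ0 hh1 hhQ (by
      intro q c hq hqQ hc
      refine hlgv X hXX1 M L hX8 hMXn hX64 hLM _ ?_ ?_ Q q c ?_ hq hqQ hc h hhM hhL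
      · intro y hy
        rw [mem_image] at hy
        obtain ⟨j, hj, rfl⟩ := hy
        have hj' : j ≤ J' := by
          have := mem_range.1 hj
          omega
        have h1 : j * L ≤ J' * L := Nat.mul_le_mul_right _ hj'
        have h2 : (J' + 1) * L = J' * L + L := by ring
        omega
      · intro y hy y' hy' hlt
        rw [mem_image] at hy hy'
        obtain ⟨i, hi, rfl⟩ := hy
        obtain ⟨j, hj, rfl⟩ := hy'
        have hij : i < j := by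
          by_contra hcon
          have : j * L ≤ i * L := Nat.mul_le_mul_right _ (by omega)
          omega
        have h2 : (i + 1) * L ≤ j * L := Nat.mul_le_mul_right _ hij
        have h3 : (i + 1) * L = i * L + L := by ring
        omega
      · rw [Real.rpow_natCast]
        exact hQ2)
  refine hcore.trans ?_
  -- numerics
  have hZ : ∑ n ∈ Icc (M ^ 3) (32 * M ^ 3), (az Q n) ^ 2 ≤ (M : ℝ) ^ 3 * (l / 1000) := by
    refine (lg_l2 Q M hQ0 hM2).trans ?_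
    have h1 : Real.log Q ≤ 25 * k0 * Real.log l := by
      have h2 := Real.log_le_log hQR0 hQ2
      rw [Real.log_pow] at h2
      push_cast at h2
      exact h2
    have h3 : 0 ≤ Real.log Q := Real.log_nonneg hQR
    have h4 : (1 + Real.log Q) ^ 2 ≤ 2 + 2 * (25 * k0) ^ 2 * (Real.log l) ^ 2 := by
      have h5 : (Real.log Q) ^ 2 ≤ (25 * k0 * Real.log l) ^ 2 := pow_le_pow_left₀ h3 h1 2
      have e1 : (25 * k0 * Real.log l) ^ 2 = (25 * k0) ^ 2 * (Real.log l) ^ 2 := by ring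
      have e2 : (1 + Real.log Q) ^ 2 = 2 + 2 * (Real.log Q) ^ 2 - (1 - Real.log Q) ^ 2 := by ring
      have e3 := sq_nonneg (1 - Real.log Q)
      rw [e1] at h5
      rw [e2]
      linarith
    have h6 : 8 * (Q : ℝ) ^ 4 ≤ (M : ℝ) ^ 3 := by
      have h7 : (Q : ℝ) ^ 4 ≤ l ^ (100 * k0) := by
        calc (Q : ℝ) ^ 4 ≤ (l ^ (25 * k0)) ^ 4 := pow_le_pow_left₀ hQR0.le hQ2 4
          _ = l ^ (100 * k0) := by
              rw [← pow_mul]
              congr 1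
              ring
      linarith
    have hM3 : (0 : ℝ) ≤ (M : ℝ) ^ 3 := by positivity
    calc 64 * (M : ℝ) ^ 3 + 128 * (M : ℝ) ^ 3 * (1 + Real.log Q) ^ 2 + 8 * (Q : ℝ) ^ 4
        ≤ 64 * (M : ℝ) ^ 3 + 128 * (M : ℝ) ^ 3 *
            (2 + 2 * (25 * k0) ^ 2 * (Real.log l) ^ 2) + (M : ℝ) ^ 3 :=
          add_le_add (add_le_add le_rfl (mul_le_mul_of_nonneg_left h4 (by positivity))) h6
      _ = (M : ℝ) ^ 3 * (65 + 256 + 256 * (25 * k0) ^ 2 * (Real.log l) ^ 2) := by ring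
      _ ≤ _ := mul_le_mul_of_nonneg_left (by linarith) hM3
  have hJL : ((J' + 1 : ℕ) : ℝ) * L ≤ 2 * M := by
    have h1 : (J' + 1) * L ≤ 2 * M := by omega
    exact_mod_cast h1
  have hQ6 : (Q : ℝ) ^ 6 ≤ l ^ (150 * k0) := by
    calc (Q : ℝ) ^ 6 ≤ (l ^ (25 * k0)) ^ 6 := pow_le_pow_left₀ hQR0.le hQ2 6
      _ = l ^ (150 * k0) := by
          rw [← pow_mul]
          congr 1
          ring
  have hlA : 0 < l ^ (-A) := Real.rpow_pos_of_pos hl0 _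
  have n1 : ((l ^ k0)⁻¹) ^ 2 * l ≤ l ^ (-A) := by
    have h1 : ((l ^ k0)⁻¹) ^ 2 * l = l ^ (1 - 2 * (k0 : ℝ)) := by
      rw [inv_pow, ← pow_mul, ← Real.rpow_natCast, ← Real.rpow_neg hl0.le]
      conv_lhs => rw [← Real.rpow_one l, ← Real.rpow_mul hl0.le, one_mul]
      rw [← Real.rpow_add hl0]
      congr 1
      push_cast
      ring
    rw [h1]
    exact Real.rpow_le_rpow_of_exponent_le (by linarith) (by linarith)
  have n2 : (Q : ℝ) ^ 6 * l ^ (-(150 * k0 + A + 10 : ℝ)) ≤ l ^ (-A) / 2 := by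
    have h1 : l ^ (-(150 * k0 + A + 10 : ℝ)) = (l ^ (150 * k0))⁻¹ * (l ^ (-A) * (l ^ 10)⁻¹) := by
      have h2 : -(150 * k0 + A + 10 : ℝ) = -((150 * k0 : ℕ) : ℝ) + (-A + -((10 : ℕ) : ℝ)) := by
        push_cast
        ring
      rw [h2, Real.rpow_add hl0, Real.rpow_add hl0, Real.rpow_neg hl0.le, Real.rpow_neg hl0.le
        ((10 : ℕ) : ℝ), Real.rpow_natCast, Real.rpow_natCast]
    have h3 : (l ^ 10)⁻¹ ≤ 1 / 2 := by
      rw [inv_eq_one_div]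
      apply div_le_div_of_nonneg_left (by norm_num) (by norm_num)
      calc (2 : ℝ) = 2 ^ 1 := by norm_num
        _ ≤ 2 ^ 10 := by norm_num
        _ ≤ l ^ 10 := pow_le_pow_left₀ (by norm_num) hl 10
    rw [h1]
    calc (Q : ℝ) ^ 6 * ((l ^ (150 * k0))⁻¹ * (l ^ (-A) * (l ^ 10)⁻¹))
        ≤ l ^ (150 * k0) * ((l ^ (150 * k0))⁻¹ * (l ^ (-A) * (l ^ 10)⁻¹)) :=
          mul_le_mul_of_nonneg_right hQ6 (by positivity)
      _ = l ^ (-A) * (l ^ 10)⁻¹ := by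
          have : l ^ (150 * k0) ≠ 0 := by positivity
          field_simp
      _ ≤ l ^ (-A) * (1 / 2) := mul_le_mul_of_nonneg_left h3 hlA.le
      _ = _ := by ring
  have hh0 : (h : ℝ) ≠ 0 := by positivity
  have hM3 : (0 : ℝ) ≤ (M : ℝ) ^ 3 := by positivity
  calc ((J' + 1 : ℕ) : ℝ) * (((l ^ k0)⁻¹) ^ 2 * (2 * (L : ℝ)) ^ 2 *
        (44 * ∑ n ∈ Icc (M ^ 3) (32 * M ^ 3), (az Q n) ^ 2) +
        4 * (2 * (L : ℝ)) ^ 2 * (Q : ℝ) ^ 4 * ((Q : ℝ) ^ 2 *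
          ((M : ℝ) ^ 3 * (h : ℝ) ^ 2 * l ^ (-(150 * k0 + A + 10 : ℝ)))) / (h : ℝ) ^ 2)
      = (((J' + 1 : ℕ) : ℝ) * L) * L * (176 * (((l ^ k0)⁻¹) ^ 2 *
          ∑ n ∈ Icc (M ^ 3) (32 * M ^ 3), (az Q n) ^ 2) +
          16 * ((M : ℝ) ^ 3 * ((Q : ℝ) ^ 6 * l ^ (-(150 * k0 + A + 10 : ℝ))))) := by
        field_simp
        ring
    _ ≤ (2 * M) * L * (176 * (((l ^ k0)⁻¹) ^ 2 * ((M : ℝ) ^ 3 * (l / 1000))) +
          16 * ((M : ℝ) ^ 3 * (l ^ (-A) / 2))) := by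
        have hS0 : 0 ≤ ∑ n ∈ Icc (M ^ 3) (32 * M ^ 3), (az Q n) ^ 2 :=
          sum_nonneg fun _ _ => sq_nonneg _
        have hp : 0 ≤ l ^ (-(150 * k0 + A + 10 : ℝ)) := Real.rpow_nonneg hl0.le _
        refine mul_le_mul (mul_le_mul_of_nonneg_right hJL hL0.le) ?_ (by positivity)
          (by positivity)
        apply add_le_add
        · exact mul_le_mul_of_nonneg_left (mul_le_mul_of_nonneg_left hZ (by positivity))
            (by norm_num)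
        · exact mul_le_mul_of_nonneg_left (mul_le_mul_of_nonneg_left n2 hM3) (by norm_num)
    _ = (2 * M) * L * (M : ℝ) ^ 3 * (176 / 1000 * (((l ^ k0)⁻¹) ^ 2 * l) + 8 * l ^ (-A)) := by
        ring
    _ ≤ (2 * M) * L * (M : ℝ) ^ 3 * (16 * l ^ (-A)) := by
        refine mul_le_mul_of_nonneg_left ?_ (by positivity)
        linarith
    _ = (32 * (M : ℝ) ^ 2 * L) * (M : ℝ) ^ 2 * l ^ (-A) := by ring
    _ ≤ (X : ℝ) * (M : ℝ) ^ 2 * l ^ (-A) :=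
        mul_le_mul_of_nonneg_right (mul_le_mul_of_nonneg_right hX32R (by positivity)) hlA.le

end Pool.Agent.H43.HY
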