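import Pool.Agent.H43.HY.Sm
import Pool.Agent.H43.HY.Lg

/-!
# [H43 HY ALL] All `M` with `X^(1/18+ε) <= M <= X^(6/13-2ε)`

PROOF. If `M^3 <= X`: `sm`. Otherwise let `M_0 = M`, `M_{i+1} = M_i/2` (natural division), `J` minimal with `M_J^3 <= X`. `Icc 1 M` is the disjoint union of `Icc 1 M_J` and the `Ioc M_{i+1} M_i`,
`i < J`, with `2M_{i+1} <= M_i <= 2M_{i+1}+1` and `M_i^3 > X` for `i < J`, so `8 M_{i+1}^3 >= X - small`: `M_i <= 2M_{i+1}+1`; precisely if `M_i^3 > X` then `(2M_{i+1}+1)^3 > X`, so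
`8 (M_{i+1}+1)^3 > X`; to have `X <= 8 M_{i+1}^3` for all `i < J` choose instead `J` minimal with `8 M_{J+1}^3 < X` (then `M_J <= 2M_{J+1}+1`, `M_J^3 <= 2X`); the last piece `Icc 1 M_J` is split at
`M* = ⌊X^(1/3)⌋` (largest with `M*^3 <= X`): `Icc 1 M*` by `sm` (`M* >= X^(1/18+ε)`), and `Ioc M* M_J` has at most `2` elements (`M_J <= 2M_{J+1} + 1 < X^(1/3) + 1`, `M* > X^(1/3) - 1`), trivially
`Σ_{k<=X} az(m^3+k)^2 <= X (1+Q)^2` for each. By the triangle inequality in `L^2` (norms: `√X M_i ℓ^(-A'/2)`, `Σ_i M_i <= 2M`, `M* <= M`, and `2 √X (1+Q) <= √X M ℓ^(-A)`), `A' = A + 2`: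
`(..)^2 <= X M^2 ℓ^(-A)` for `X` large.
-/

namespace Pool.Agent.H43.HY

open Finset

private theorem all_lq (Q n : ℕ) : |TP.lq Q n| ≤ Q := by
  unfold TP.lq
  refine (abs_sum_le_sum_abs _ _).trans ?_
  have h : ∀ r ∈ Icc 1 Q, |((ArithmeticFunction.moebius r : ℤ) : ℝ) / (r.totient : ℝ) *
      (TP.crd r n : ℝ)| ≤ 1 := by
    intro r hr
    rw [mem_Icc] at hr
    have htot : (0 : ℝ) < r.totient := by exact_mod_cast Nat.totient_pos.2 hr.1
    have hmu : |((ArithmeticFunction.moebius r : ℤ) : ℝ)| ≤ 1 := by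
      exact_mod_cast ArithmeticFunction.abs_moebius_le_one
    rw [abs_mul, abs_div, abs_of_pos htot]
    calc |((ArithmeticFunction.moebius r : ℤ) : ℝ)| / r.totient * |(TP.crd r n : ℝ)|
        ≤ 1 / r.totient * r.totient :=
          mul_le_mul (div_le_div_of_nonneg_right hmu htot.le) (TP.ram_abs r n hr.1)
            (abs_nonneg _) (by positivity)
      _ = 1 := by field_simp
  refine (Finset.sum_le_sum h).trans ?_
  rw [Finset.sum_const, nsmul_eq_mul, Nat.card_Icc]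
  simp

private theorem all_az (Q n : ℕ) (hn : 3 ≤ n) : |az Q n| ≤ 1 + Q := by
  have h1 : |pr n| ≤ 1 := by
    unfold pr
    split_ifs <;> simp
  have h2 : (1 : ℝ) ≤ Real.log n := by
    rw [Real.le_log_iff_exp_le (by positivity)]
    have h3 : (3 : ℝ) ≤ n := by exact_mod_cast hn
    linarith [Real.exp_one_lt_d9]
  have h3 : |il n| ≤ 1 := by
    unfold il
    rw [abs_of_nonneg (by positivity), div_le_one (by linarith)]
    exact h2
  have h4 : |il n * TP.lq Q n| ≤ 1 * Q := by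
    rw [abs_mul]
    exact mul_le_mul h3 (all_lq Q n) (abs_nonneg _) (by norm_num)
  unfold az
  calc |pr n - il n * TP.lq Q n| ≤ |pr n| + |il n * TP.lq Q n| := abs_sub _ _
    _ ≤ 1 + Q := by linarith

private theorem all_tri (s : Finset ℕ) (f g : ℕ → ℝ) (a b : ℝ) (ha : 0 ≤ a) (hb : 0 ≤ b)
    (hf : ∑ k ∈ s, f k ^ 2 ≤ a ^ 2) (hg : ∑ k ∈ s, g k ^ 2 ≤ b ^ 2) :
    ∑ k ∈ s, (f k + g k) ^ 2 ≤ (a + b) ^ 2 := by
  have h1 := Finset.sum_mul_sq_le_sq_mul_sq s f g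
  have h2 : (∑ k ∈ s, f k * g k) ^ 2 ≤ (a * b) ^ 2 := by
    rw [mul_pow]
    exact h1.trans (mul_le_mul hf hg (sum_nonneg fun _ _ => sq_nonneg _) (sq_nonneg _))
  have h3 : ∑ k ∈ s, f k * g k ≤ a * b := (abs_le_of_sq_le_sq' h2 (mul_nonneg ha hb)).2
  have h4 : ∑ k ∈ s, (f k + g k) ^ 2 =
      ∑ k ∈ s, f k ^ 2 + 2 * ∑ k ∈ s, f k * g k + ∑ k ∈ s, g k ^ 2 := by
    rw [mul_sum, ← sum_add_distrib, ← sum_add_distrib]
    exact sum_congr rfl fun k _ => by ring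
  rw [h4]
  have h5 : (a + b) ^ 2 = a ^ 2 + 2 * (a * b) + b ^ 2 := by ring
  rw [h5]
  linarith

private theorem all_ind (F : ℕ → ℕ → ℝ) (s : Finset ℕ) (X : ℕ) (c E lo hi : ℝ) (hc : 0 ≤ c)
    (hE : 0 ≤ E)
    (hsm : ∀ M : ℕ, lo ≤ M → M ^ 3 ≤ X → ∑ k ∈ s, (∑ m ∈ Icc 1 M, F m k) ^ 2 ≤ (c * M) ^ 2)
    (hlg : ∀ M M' : ℕ, X ≤ 8 * M ^ 3 → (M : ℝ) ≤ hi → 2 * M ≤ M' → M' ≤ 2 * M + 1 →
      ∑ k ∈ s, (∑ m ∈ Ioc M M', F m k) ^ 2 ≤ (c * M) ^ 2)
    (h1 : ∀ m : ℕ, ∑ k ∈ s, (F m k) ^ 2 ≤ E ^ 2)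
    (hlo : ∀ M : ℕ, X < (M + 1) ^ 3 → lo ≤ M)
    (hlo2 : ∀ M : ℕ, X ≤ 8 * M ^ 3 → lo ≤ M) :
    ∀ M : ℕ, lo ≤ M → (M : ℝ) ≤ hi → ∑ k ∈ s, (∑ m ∈ Icc 1 M, F m k) ^ 2 ≤ (c * M + E) ^ 2 := by
  intro M
  induction M using Nat.strong_induction_on with
  | _ M ih =>
    intro hM1 hM2
    by_cases hMX : M ^ 3 ≤ X
    · refine (hsm M hM1 hMX).trans ?_
      have h2 : 0 ≤ c * M := by positivity
      exact pow_le_pow_left₀ h2 (by linarith) 2
    · push Not at hMX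
      have hM0 : 1 ≤ M := by
        rcases Nat.eq_zero_or_pos M with h | h
        · subst h
          simp at hMX
        · exact h
      by_cases h8 : X ≤ 8 * (M / 2) ^ 3
      · have hlt : M / 2 < M := by omega
        have hle : ((M / 2 : ℕ) : ℝ) ≤ M := by exact_mod_cast hlt.le
        have h2 := ih (M / 2) hlt (hlo2 _ h8) (hle.trans hM2)
        have h3 := hlg (M / 2) M h8 (hle.trans hM2) (by omega) (by omega)
        have h4 : ∀ k, ∑ m ∈ Icc 1 M, F m k =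
            ∑ m ∈ Icc 1 (M / 2), F m k + ∑ m ∈ Ioc (M / 2) M, F m k := by
          intro k
          rw [← sum_union]
          · refine sum_congr ?_ fun _ _ => rfl
            ext x
            simp only [mem_union, mem_Icc, mem_Ioc]
            omega
          · rw [disjoint_left]
            intro x hx hx'
            rw [mem_Icc] at hx
            rw [mem_Ioc] at hx'
            omega
        simp only [h4]
        have hcM : 0 ≤ c * ((M / 2 : ℕ) : ℝ) := by positivity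
        refine (all_tri s _ _ _ _ (add_nonneg hcM hE) hcM h2 h3).trans ?_
        have h5 : 2 * ((M / 2 : ℕ) : ℝ) ≤ M := by
          have : 2 * (M / 2) ≤ M := by omega
          exact_mod_cast this
        refine pow_le_pow_left₀ (by linarith) ?_ 2
        have h6 := mul_le_mul_of_nonneg_left h5 hc
        linarith
      · push Not at h8
        obtain ⟨N, rfl⟩ : ∃ N, M = N + 1 := ⟨M - 1, by omega⟩
        have hN : N ^ 3 ≤ X := by
          have h2 : N ≤ 2 * ((N + 1) / 2) := by omega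
          have h3 := Nat.pow_le_pow_left h2 3
          have h4 : (2 * ((N + 1) / 2)) ^ 3 = 8 * ((N + 1) / 2) ^ 3 := by ring
          omega
        have h2 := hsm N (hlo N hMX) hN
        have h3 := h1 (N + 1)
        have h4 : ∀ k, ∑ m ∈ Icc 1 (N + 1), F m k = ∑ m ∈ Icc 1 N, F m k + F (N + 1) k := by
          intro k
          rw [sum_Icc_succ_top (by omega)]
        simp only [h4]
        have hcM : 0 ≤ c * (N : ℝ) := by positivity
        refine (all_tri s _ _ _ _ hcM hE h2 h3).trans ?_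
        refine pow_le_pow_left₀ (by linarith) ?_ 2
        push_cast
        nlinarith

private theorem all_ev (A B' : ℝ) (k0 : ℕ) :
    ∃ X0 : ℕ, ∀ X : ℕ, X0 ≤ X → (64 : ℝ) ≤ X ∧ (2 : ℝ) ≤ Real.log X ∧
      (Real.log X) ^ ((25 * k0 : ℕ) + 1 + (A + 2) / 2 : ℝ) ≤ (X : ℝ) ^ ((1 : ℝ) / 18) ∧
      (Real.log X) ^ B' ≤ (X : ℝ) ^ ((1 : ℝ) / 2) := by
  have h1 : ∀ᶠ x : ℝ in Filter.atTop, (Real.log x) ^ ((25 * k0 : ℕ) + 1 + (A + 2) / 2 : ℝ) ≤
      x ^ ((1 : ℝ) / 18) := by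
    have h := (isLittleO_log_rpow_rpow_atTop ((25 * k0 : ℕ) + 1 + (A + 2) / 2 : ℝ)
      (by norm_num : (0 : ℝ) < 1 / 18)).bound (by norm_num : (0 : ℝ) < 1)
    filter_upwards [h, Filter.eventually_ge_atTop (Real.exp 1)] with x hx hx1
    have hx0 : 0 < x := lt_of_lt_of_le (Real.exp_pos 1) hx1
    have hl : 0 ≤ Real.log x := Real.log_nonneg (le_trans (Real.one_le_exp (by norm_num)) hx1)
    rw [Real.norm_eq_abs, Real.norm_eq_abs, abs_of_nonneg (Real.rpow_nonneg hl _),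
      abs_of_nonneg (Real.rpow_nonneg hx0.le _), one_mul] at hx
    exact hx
  have h2 : ∀ᶠ x : ℝ in Filter.atTop, (Real.log x) ^ B' ≤ x ^ ((1 : ℝ) / 2) := by
    have h := (isLittleO_log_rpow_rpow_atTop B'
      (by norm_num : (0 : ℝ) < 1 / 2)).bound (by norm_num : (0 : ℝ) < 1)
    filter_upwards [h, Filter.eventually_ge_atTop (Real.exp 1)] with x hx hx1
    have hx0 : 0 < x := lt_of_lt_of_le (Real.exp_pos 1) hx1
    have hl : 0 ≤ Real.log x := Real.log_nonneg (le_trans (Real.one_le_exp (by norm_num)) hx1)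
    rw [Real.norm_eq_abs, Real.norm_eq_abs, abs_of_nonneg (Real.rpow_nonneg hl _),
      abs_of_nonneg (Real.rpow_nonneg hx0.le _), one_mul] at hx
    exact hx
  have h3 : ∀ᶠ x : ℝ in Filter.atTop, (2 : ℝ) ≤ Real.log x :=
    Real.tendsto_log_atTop.eventually_ge_atTop 2
  have h4 := (tendsto_natCast_atTop_atTop (R := ℝ)).eventually
    (((h1.and h2).and h3).and (Filter.eventually_ge_atTop (64 : ℝ)))
  obtain ⟨X0, hX0⟩ := Filter.eventually_atTop.1 h4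
  refine ⟨X0, fun X hX => ?_⟩
  obtain ⟨⟨⟨ha, hb⟩, hc⟩, hd⟩ := hX0 X hX
  exact ⟨hd, hc, ha, hb⟩

theorem all (A ε B' : ℝ) (k0 : ℕ) (hA : 0 < A) (hε : 0 < ε) (hε1 : ε ≤ 1 / 100) (hB' : 0 < B')
    (hk0 : A / 2 + 2 ≤ k0) :
    ∃ X0 : ℕ, ∀ X : ℕ, X0 ≤ X → ∀ Q M Z : ℕ, 2 ^ 64 * (Real.log X) ^ (24 * k0) ≤ Q →
    (Q : ℝ) ≤ (Real.log X) ^ (25 * k0) → (X : ℝ) ^ ((1 : ℝ) / 18 + ε) ≤ M →
    (M : ℝ) ≤ (X : ℝ) ^ ((6 : ℝ) / 13 - 2 * ε) → (X : ℝ) * (Real.log X) ^ (-B') ≤ Z →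
    ∑ k ∈ Ioc Z X, (∑ m ∈ Icc 1 M, az Q (m ^ 3 + k)) ^ 2 ≤
      X * (M : ℝ) ^ 2 * (Real.log X) ^ (-A) := by
  obtain ⟨X1, hX1⟩ := sm (A + 2) ε B' k0 (by linarith) hε hB' (by linarith)
  obtain ⟨X2, hX2⟩ := lg (A + 2) ε k0 (by linarith) hε hε1 (by linarith)
  obtain ⟨X3, hX3⟩ := all_ev A B' k0
  refine ⟨max X1 (max X2 X3), ?_⟩
  intro X hX Q M Z hQ1 hQ2 hM1 hM2 hZ
  have hXa : X1 ≤ X := (le_max_left _ _).trans hX
  have hXb : X2 ≤ X := ((le_max_left _ _).trans (le_max_right _ _)).trans hX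
  have hXc : X3 ≤ X := ((le_max_right _ _).trans (le_max_right _ _)).trans hX
  obtain ⟨h64, hL2, hev1, hev2⟩ := hX3 X hXc
  set L : ℝ := Real.log X with hL
  have hX0 : (0 : ℝ) < X := by linarith
  have hX1' : (1 : ℝ) ≤ X := by linarith
  have hL0 : 0 < L := by linarith
  have hL1 : 1 ≤ L := by linarith
  -- constants
  set x : ℝ := (X : ℝ) ^ ((1 : ℝ) / 18 + ε) with hx
  have hx1 : 1 ≤ x := Real.one_le_rpow hX1' (by positivity)
  have hx8 : 8 * x ^ 3 ≤ X := by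
    have h1 : x ^ 3 = (X : ℝ) ^ ((1 : ℝ) / 6 + 3 * ε) := by
      rw [hx, ← Real.rpow_natCast, ← Real.rpow_mul hX0.le]
      congr 1
      push_cast
      ring
    have h2 : (X : ℝ) ^ ((1 : ℝ) / 6 + 3 * ε) ≤ (X : ℝ) ^ ((1 : ℝ) / 2) :=
      Real.rpow_le_rpow_of_exponent_le hX1' (by linarith)
    have h3 : (8 : ℝ) ≤ (X : ℝ) ^ ((1 : ℝ) / 2) := by
      rw [← Real.sqrt_eq_rpow]
      apply Real.le_sqrt_of_sq_le
      linarith
    have h4 : (X : ℝ) ^ ((1 : ℝ) / 2) * (X : ℝ) ^ ((1 : ℝ) / 2) = X := by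
      rw [← Real.rpow_add hX0]
      norm_num
    rw [h1]
    have h5 := mul_le_mul h3 h2 (by positivity) (by linarith)
    linarith
  set c : ℝ := √(X * L ^ (-(A + 2))) with hc
  have hc0 : 0 ≤ c := Real.sqrt_nonneg _
  have hc2 : c ^ 2 = X * L ^ (-(A + 2)) := by
    rw [hc, Real.sq_sqrt (by positivity)]
  set E : ℝ := √X * (1 + Q) with hE
  have hE0 : 0 ≤ E := by positivity
  have hE2 : E ^ 2 = X * (1 + Q) ^ 2 := by
    rw [hE, mul_pow, Real.sq_sqrt hX0.le]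
  have hZ3 : 3 ≤ Z := by
    have h3 : (8 : ℝ) ≤ (X : ℝ) ^ ((1 : ℝ) / 2) := by
      rw [← Real.sqrt_eq_rpow]
      apply Real.le_sqrt_of_sq_le
      linarith
    have h4 : (X : ℝ) ^ ((1 : ℝ) / 2) * (X : ℝ) ^ ((1 : ℝ) / 2) = X := by
      rw [← Real.rpow_add hX0]
      norm_num
    have h5 : (X : ℝ) ^ ((1 : ℝ) / 2) ≤ (X : ℝ) * L ^ (-B') := by
      rw [Real.rpow_neg hL0.le, ← div_eq_mul_inv, le_div_iff₀ (Real.rpow_pos_of_pos hL0 _)]
      calc (X : ℝ) ^ ((1 : ℝ) / 2) * L ^ B' ≤ (X : ℝ) ^ ((1 : ℝ) / 2) * (X : ℝ) ^ ((1 : ℝ) / 2) :=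
            mul_le_mul_of_nonneg_left hev2 (by positivity)
        _ = X := h4
    have h6 : (3 : ℝ) ≤ Z := by linarith
    exact_mod_cast h6
  have hsub : Ioc Z X ⊆ Icc 1 X := by
    intro k hk
    rw [mem_Ioc] at hk
    rw [mem_Icc]
    omega
  have key := all_ind (fun m k => az Q (m ^ 3 + k)) (Ioc Z X) X c E x
    ((X : ℝ) ^ ((6 : ℝ) / 13 - 2 * ε)) hc0 hE0 ?_ ?_ ?_ ?_ ?_ M hM1 hM2
  · refine key.trans ?_
    have hEM : E ≤ c * M := by
      have h1 : (1 + (Q : ℝ)) * L ^ ((A + 2) / 2) ≤ M := by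
        refine le_trans ?_ (le_trans (Real.rpow_le_rpow_of_exponent_le hX1'
          (by linarith : (1 : ℝ) / 18 ≤ 1 / 18 + ε)) hM1)
        refine le_trans ?_ hev1
        rw [Real.rpow_add hL0, Real.rpow_add hL0, Real.rpow_one, Real.rpow_natCast]
        refine mul_le_mul_of_nonneg_right ?_ (by positivity)
        have h2 : (1 : ℝ) ≤ L ^ (25 * k0) := one_le_pow₀ hL1
        have h3 := mul_le_mul_of_nonneg_right hL2 (by linarith : (0 : ℝ) ≤ L ^ (25 * k0))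
        linarith
      have h2 : c = √X * L ^ (-((A + 2) / 2)) := by
        rw [hc, Real.sqrt_mul hX0.le]
        congr 1
        rw [Real.sqrt_eq_rpow, ← Real.rpow_mul hL0.le]
        congr 1
        ring
      rw [h2, hE, mul_assoc]
      refine mul_le_mul_of_nonneg_left ?_ (Real.sqrt_nonneg _)
      rw [Real.rpow_neg hL0.le, mul_comm, ← div_eq_mul_inv,
        le_div_iff₀ (Real.rpow_pos_of_pos hL0 _)]
      exact h1
    have h1 : (c * M + E) ^ 2 ≤ (2 * (c * M)) ^ 2 := by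
      refine pow_le_pow_left₀ (by positivity) ?_ 2
      linarith
    refine h1.trans ?_
    have h2 : (2 * (c * (M : ℝ))) ^ 2 = 4 * (X * L ^ (-(A + 2)) * (M : ℝ) ^ 2) := by
      rw [mul_pow, mul_pow, hc2]
      ring
    rw [h2]
    have h3 : L ^ (-(A + 2)) = L ^ (-A) * (L ^ 2)⁻¹ := by
      rw [← Real.rpow_natCast, ← Real.rpow_neg hL0.le, ← Real.rpow_add hL0]
      congr 1
      push_cast
      ring
    rw [h3]
    have h4 : 4 * (L ^ 2)⁻¹ ≤ 1 := by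
      rw [← div_eq_mul_inv, div_le_one (by positivity)]
      nlinarith
    have h5 : 0 ≤ X * (M : ℝ) ^ 2 * L ^ (-A) := by positivity
    calc 4 * (X * (L ^ (-A) * (L ^ 2)⁻¹) * (M : ℝ) ^ 2)
        = X * (M : ℝ) ^ 2 * L ^ (-A) * (4 * (L ^ 2)⁻¹) := by ring
      _ ≤ X * (M : ℝ) ^ 2 * L ^ (-A) * 1 := mul_le_mul_of_nonneg_left h4 h5
      _ = _ := by ring
  · intro N hN1 hN2
    refine (hX1 X hXa Q N Z hQ1 hQ2 hN1 hN2 hZ).trans (le_of_eq ?_)
    rw [mul_pow, hc2]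
    ring
  · intro N N' hN1 hN2 hN3 hN4
    refine (sum_le_sum_of_subset_of_nonneg hsub fun _ _ _ => sq_nonneg _).trans ?_
    refine (hX2 X hXb Q N N' hQ1 hQ2 hN1 hN2 hN3 hN4).trans (le_of_eq ?_)
    rw [mul_pow, hc2]
    ring
  · intro m
    have h1 : ∀ k ∈ Ioc Z X, (az Q (m ^ 3 + k)) ^ 2 ≤ (1 + (Q : ℝ)) ^ 2 := by
      intro k hk
      rw [mem_Ioc] at hk
      rw [← sq_abs]
      exact pow_le_pow_left₀ (abs_nonneg _) (all_az Q _ (by omega)) 2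
    refine (sum_le_sum h1).trans ?_
    rw [sum_const, nsmul_eq_mul, Nat.card_Ioc, hE2]
    refine mul_le_mul_of_nonneg_right ?_ (sq_nonneg _)
    exact_mod_cast Nat.sub_le X Z
  · intro N hN
    by_contra hcon
    push Not at hcon
    have h1 : ((N : ℝ) + 1) ^ 3 ≤ (2 * x) ^ 3 :=
      pow_le_pow_left₀ (by positivity) (by linarith) 3
    have h2 : (X : ℝ) < ((N : ℝ) + 1) ^ 3 := by exact_mod_cast hN
    have h3 : (2 * x) ^ 3 = 8 * x ^ 3 := by ring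
    linarith
  · intro N hN
    by_contra hcon
    push Not at hcon
    have h1 : (N : ℝ) ^ 3 < x ^ 3 := pow_lt_pow_left₀ hcon (by positivity) (by norm_num)
    have h2 : (X : ℝ) ≤ 8 * (N : ℝ) ^ 3 := by exact_mod_cast hN
    linarith

end Pool.Agent.H43.HY
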