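import Pool.Agent.H43.TQ.Low
import Pool.Agent.H43.HY.Msy

/-!
# [H43 HY FINY] The theorem

PROOF. As `TQ/Fin2.lean`. `ε = min ((θ1 - 1/18)/2) (min ((6/13 - θ2)/4) (1/100))`, so `X^θ1 >= X^(1/18+ε)`, `X^θ2 <= X^(6/13-2ε)`. `ℓ = log X`, `msy` with `A = 3B + 20`, `B' = B + 1`, `Z = ⌈X ℓ^(-B-1)⌉₊`.
`V(k) = Σ_m il(m^3+k) >= M/log(M^3+X) >= M/(3ℓ)` for `k <= X` (`M^3 + X <= X^3`). `S y k >= c (log y)^(-5) >= ℓ^(-1)` for `X` large (`TQ.low`, `log y <= C log ℓ`). If `k ∈ (Z,X]` and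
`ℓ^(-B) S V < |# - S V|` then `(# - SV)^2 > ℓ^(-2B-2) M^2/(9ℓ^2)`; by `msy` the number of these `k` is `<= 9 X ℓ^(2B+4-3B-20) <= Xℓ^(-B-1)`. The `k <= Z`: at most `Xℓ^(-B-1) + 1`. Total `<= Xℓ^(-B)` for `X` large.
-/

namespace Pool.Agent.H43.HY

open Finset

/-- the conditions which hold for large `X` -/
private theorem finy_large (B C c : ℝ) (hc : 0 < c) :
    ∃ X0 : ℕ, ∀ X : ℕ, X0 ≤ X → 18 ≤ Real.log X ∧
      (Real.log X) ^ (B + 1) ≤ X ∧
      (C * Real.log (Real.log X)) ^ 5 ≤ c * Real.log X := by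
  have h1 : ∀ᶠ x : ℝ in Filter.atTop, 18 ≤ Real.log x :=
    Real.tendsto_log_atTop.eventually_ge_atTop 18
  have h2 : ∀ᶠ x : ℝ in Filter.atTop, (Real.log x) ^ (B + 1) ≤ x := by
    have h := (isLittleO_log_rpow_rpow_atTop (B + 1) one_pos).def
      (show (0 : ℝ) < 1 by norm_num)
    filter_upwards [h, Filter.eventually_ge_atTop 1] with x hx hx1
    have h3 : 0 ≤ Real.log x := Real.log_nonneg hx1
    rw [Real.rpow_one, Real.norm_of_nonneg (Real.rpow_nonneg h3 _),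
      Real.norm_of_nonneg (by linarith)] at hx
    linarith
  have h3 : ∀ᶠ x : ℝ in Filter.atTop, (C * Real.log (Real.log x)) ^ 5 ≤ c * Real.log x := by
    have h4 : ∀ᶠ u : ℝ in Filter.atTop, (C * Real.log u) ^ 5 ≤ c * u := by
      have h := (Real.isLittleO_pow_log_id_atTop (n := 5)).def
        (show (0 : ℝ) < c / (|C| ^ 5 + 1) by positivity)
      filter_upwards [h, Filter.eventually_ge_atTop 1] with u hu hu1
      have h5 : 0 ≤ Real.log u := Real.log_nonneg hu1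
      rw [Real.norm_of_nonneg (pow_nonneg h5 _), id, Real.norm_of_nonneg (by linarith)] at hu
      have h6 : (C * Real.log u) ^ 5 ≤ |C| ^ 5 * Real.log u ^ 5 := by
        rw [mul_pow]
        apply mul_le_mul_of_nonneg_right _ (pow_nonneg h5 _)
        rw [← abs_pow]
        exact le_abs_self _
      have h7 : |C| ^ 5 * Real.log u ^ 5 ≤ |C| ^ 5 * (c / (|C| ^ 5 + 1) * u) :=
        mul_le_mul_of_nonneg_left hu (by positivity)
      have h8 : |C| ^ 5 * (c / (|C| ^ 5 + 1) * u) ≤ c * u := by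
        have h9 : |C| ^ 5 * (c / (|C| ^ 5 + 1)) ≤ c := by
          rw [mul_div_assoc', div_le_iff₀ (by positivity)]
          nlinarith [pow_nonneg (abs_nonneg C) 5]
        calc |C| ^ 5 * (c / (|C| ^ 5 + 1) * u) = (|C| ^ 5 * (c / (|C| ^ 5 + 1))) * u := by ring
          _ ≤ c * u := mul_le_mul_of_nonneg_right h9 (by linarith)
      linarith
    exact Real.tendsto_log_atTop.eventually h4
  obtain ⟨x0, hx0⟩ := Filter.eventually_atTop.1 (h1.and (h2.and h3))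
  refine ⟨⌈x0⌉₊, fun X hX => ?_⟩
  exact hx0 X ((Nat.le_ceil x0).trans (by exact_mod_cast hX))

theorem finaly (θ1 θ2 B : ℝ) (hθ1 : 1 / 18 < θ1) (hθ2 : θ2 < 6 / 13) (hB : 0 < B) :
    ∃ C0 : ℝ, 0 < C0 ∧ ∀ C : ℝ, C0 ≤ C → ∃ X0 : ℕ, ∀ X : ℕ, X0 ≤ X → ∀ M : ℕ,
    (X : ℝ) ^ θ1 ≤ M → (M : ℝ) ≤ (X : ℝ) ^ θ2 →
    ((((Icc 1 X).filter (fun k => (Real.log X) ^ (-B) *
        (HL.S ⌊(Real.log X) ^ C⌋₊ k * ∑ m ∈ Icc 1 M, 1 / Real.log ((m ^ 3 + k : ℕ) : ℝ)) <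
      |((((Icc 1 M).filter (fun m => (m ^ 3 + k).Prime)).card : ℕ) : ℝ) -
        HL.S ⌊(Real.log X) ^ C⌋₊ k * ∑ m ∈ Icc 1 M, 1 / Real.log ((m ^ 3 + k : ℕ) : ℝ)|)).card :
      ℕ) : ℝ) ≤ X * (Real.log X) ^ (-B) := by
  classical
  obtain ⟨c, hc, hlow⟩ := TQ.low
  obtain ⟨ε, hε, hε1, hε2, hε3⟩ : ∃ ε : ℝ, 0 < ε ∧ ε ≤ 1 / 100 ∧ 1 / 18 + ε ≤ θ1 ∧
      θ2 ≤ 6 / 13 - 2 * ε := by
    refine ⟨min ((θ1 - 1 / 18) / 2) (min ((6 / 13 - θ2) / 4) (1 / 100)), ?_, ?_, ?_, ?_⟩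
    · refine lt_min (by linarith) (lt_min (by linarith) (by norm_num))
    · exact (min_le_right _ _).trans (min_le_right _ _)
    · have := min_le_left ((θ1 - 1 / 18) / 2) (min ((6 / 13 - θ2) / 4) (1 / 100))
      linarith
    · have := (min_le_right ((θ1 - 1 / 18) / 2) (min ((6 / 13 - θ2) / 4) (1 / 100))).trans
        (min_le_left _ _)
      linarith
  obtain ⟨C0, hC0, hms⟩ := msy (3 * B + 20) ε (B + 1) (by linarith) hε hε1 (by linarith)
  refine ⟨max C0 1, by positivity, fun C hC => ?_⟩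
  obtain ⟨X1, hX1⟩ := hms C ((le_max_left _ _).trans hC)
  have hC1 : 1 ≤ C := (le_max_right _ _).trans hC
  obtain ⟨X2, hX2⟩ := finy_large B C c hc
  refine ⟨max X1 X2, fun X hX M hM hM3 => ?_⟩
  have hXX1 : X1 ≤ X := (le_max_left _ _).trans hX
  have hXX2 : X2 ≤ X := (le_max_right _ _).trans hX
  obtain ⟨hl18, hl4, hl5⟩ := hX2 X hXX2
  have hms1 := hX1 X hXX1
  set l := Real.log X with hl
  have hl0 : 0 < l := by linarith
  have hl1 : 1 ≤ l := by linarith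
  have hX0 : (0 : ℝ) < X := by
    rcases Nat.eq_zero_or_pos X with h | h
    · exfalso
      rw [h, Nat.cast_zero, Real.log_zero] at hl
      linarith
    · exact_mod_cast h
  have hX1' : (1 : ℝ) ≤ X := by
    have : 0 < X := by exact_mod_cast hX0
    exact_mod_cast this
  have hMlow : (X : ℝ) ^ ((1 : ℝ) / 18 + ε) ≤ M :=
    (Real.rpow_le_rpow_of_exponent_le hX1' hε2).trans hM
  have hMup : (M : ℝ) ≤ (X : ℝ) ^ ((6 : ℝ) / 13 - 2 * ε) :=
    hM3.trans (Real.rpow_le_rpow_of_exponent_le hX1' hε3)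
  have hM0 : (0 : ℝ) < M := lt_of_lt_of_le (Real.rpow_pos_of_pos hX0 _) hM
  have hMX : (M : ℝ) ≤ X := by
    refine hM3.trans ?_
    conv_rhs => rw [← Real.rpow_one (X : ℝ)]
    exact Real.rpow_le_rpow_of_exponent_le hX1' (by linarith)
  -- `X l^(-B-1) ≥ 1`
  have hone : (1 : ℝ) ≤ X * l ^ (-(B + 1)) := by
    have h2 : (0 : ℝ) < l ^ (-(B + 1)) := Real.rpow_pos_of_pos hl0 _
    have h3 : l ^ (B + 1) * l ^ (-(B + 1)) = 1 := by
      rw [← Real.rpow_add hl0, add_neg_cancel, Real.rpow_zero]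
    calc (1 : ℝ) = l ^ (B + 1) * l ^ (-(B + 1)) := h3.symm
      _ ≤ X * l ^ (-(B + 1)) := mul_le_mul_of_nonneg_right hl4 h2.le
  obtain ⟨Z, hZ⟩ : ∃ Z : ℕ, Z = ⌈(X : ℝ) * l ^ (-(B + 1))⌉₊ := ⟨_, rfl⟩
  have hZ1 : (X : ℝ) * l ^ (-(B + 1)) ≤ Z := by
    rw [hZ]
    exact Nat.le_ceil _
  have hZ2 : (Z : ℝ) ≤ X * l ^ (-(B + 1)) + 1 := by
    rw [hZ]
    exact (Nat.ceil_lt_add_one (by positivity)).le
  have hms' := hms1 M Z hMlow hMup hZ1
  -- lower bounds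
  set y := ⌊l ^ C⌋₊ with hy
  have hlC : l ≤ l ^ C := by
    conv_lhs => rw [← Real.rpow_one l]
    exact Real.rpow_le_rpow_of_exponent_le hl1 hC1
  have hy3 : 3 ≤ y := by
    rw [hy]
    refine Nat.le_floor ?_
    push_cast
    linarith
  have hS : ∀ k, l⁻¹ ≤ HL.S y k := by
    intro k
    refine le_trans ?_ (hlow y k hy3)
    have hy0 : (3 : ℝ) ≤ y := by exact_mod_cast hy3
    have hlogy : 0 < Real.log y := Real.log_pos (by linarith)
    have h1 : Real.log y ≤ C * Real.log l := by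
      rw [← Real.log_rpow hl0]
      exact Real.log_le_log (by linarith) (Nat.floor_le (by positivity))
    have h2 : (Real.log y) ^ (5 : ℕ) ≤ c * l :=
      (pow_le_pow_left₀ hlogy.le h1 5).trans hl5
    rw [show (-(5 : ℝ)) = -((5 : ℕ) : ℝ) by norm_num, Real.rpow_neg hlogy.le, Real.rpow_natCast,
      ← div_eq_mul_inv, le_div_iff₀ (by positivity), inv_mul_le_iff₀ hl0, mul_comm l c]
    exact h2
  have hV : ∀ k, 1 ≤ k → k ≤ X → M / (4 * l) ≤ ∑ m ∈ Icc 1 M, il (m ^ 3 + k) := by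
    intro k hk1 hk2
    have h1 : ∀ m ∈ Icc 1 M, 1 / (4 * l) ≤ il (m ^ 3 + k) := by
      intro m hm
      rw [mem_Icc] at hm
      have hm1 : (m : ℝ) ≤ X := le_trans (by exact_mod_cast hm.2) hMX
      have h2' : ((m ^ 3 + k : ℕ) : ℝ) ≤ 2 * (X : ℝ) ^ 3 := by
        have e1 : (m : ℝ) ^ 3 ≤ (X : ℝ) ^ 3 := pow_le_pow_left₀ (Nat.cast_nonneg _) hm1 3
        have e2 : (k : ℝ) ≤ X := by exact_mod_cast hk2
        have e3 : (X : ℝ) ≤ (X : ℝ) ^ 3 := le_self_pow₀ hX1' (by norm_num)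
        push_cast
        linarith
      have h3 : 2 ≤ m ^ 3 + k := by
        have h4 : 1 ≤ m ^ 3 := Nat.one_le_pow _ _ hm.1
        omega
      have h3' : (2 : ℝ) ≤ ((m ^ 3 + k : ℕ) : ℝ) := by exact_mod_cast h3
      have h5 : Real.log ((m ^ 3 + k : ℕ) : ℝ) ≤ 4 * l := by
        calc Real.log ((m ^ 3 + k : ℕ) : ℝ) ≤ Real.log (2 * (X : ℝ) ^ 3) :=
              Real.log_le_log (by linarith) h2'
          _ = Real.log 2 + 3 * l := by
              rw [Real.log_mul (by norm_num) (by positivity), Real.log_pow]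
              push_cast
              rfl
          _ ≤ 4 * l := by
              have := Real.log_two_lt_d9
              linarith
      have h6 : 0 < Real.log ((m ^ 3 + k : ℕ) : ℝ) := Real.log_pos (by linarith)
      unfold il
      exact one_div_le_one_div_of_le h6 h5
    have h2 := card_nsmul_le_sum (Icc 1 M) (fun m => il (m ^ 3 + k)) (1 / (4 * l)) h1
    rw [Nat.card_Icc, nsmul_eq_mul, Nat.add_sub_cancel] at h2
    calc (M : ℝ) / (4 * l) = M * (1 / (4 * l)) := by ring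
      _ ≤ _ := h2
  have hpr : ∀ k, ((((Icc 1 M).filter (fun m => (m ^ 3 + k).Prime)).card : ℕ) : ℝ) =
      ∑ m ∈ Icc 1 M, pr (m ^ 3 + k) := by
    intro k
    rw [card_filter]
    push_cast
    refine sum_congr rfl fun m _ => ?_
    unfold pr
    rfl
  have hil : ∀ k, ∑ m ∈ Icc 1 M, 1 / Real.log ((m ^ 3 + k : ℕ) : ℝ) =
      ∑ m ∈ Icc 1 M, il (m ^ 3 + k) := fun _ => rfl
  simp only [hpr, hil]
  -- the bad `k`
  obtain ⟨bad, hbad⟩ : ∃ bad : Finset ℕ, bad = (Icc 1 X).filter (fun k => l ^ (-B) * (HL.S y k *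
        ∑ m ∈ Icc 1 M, il (m ^ 3 + k)) <
      |∑ m ∈ Icc 1 M, pr (m ^ 3 + k) - HL.S y k * ∑ m ∈ Icc 1 M, il (m ^ 3 + k)|) := ⟨_, rfl⟩
  rw [← hbad]
  have hsplit : bad ⊆ Icc 1 Z ∪ bad.filter (fun k => Z < k) := by
    intro k hk
    rw [mem_union]
    by_cases h : Z < k
    · exact Or.inr (mem_filter.2 ⟨hk, h⟩)
    · left
      rw [hbad, mem_filter, mem_Icc] at hk
      rw [mem_Icc]
      omega
  have hcard1 : bad.card ≤ Z + (bad.filter (fun k => Z < k)).card := by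
    calc bad.card ≤ (Icc 1 Z ∪ bad.filter (fun k => Z < k)).card := card_le_card hsplit
      _ ≤ (Icc 1 Z).card + (bad.filter (fun k => Z < k)).card := card_union_le _ _
      _ = Z + (bad.filter (fun k => Z < k)).card := by rw [Nat.card_Icc, Nat.add_sub_cancel]
  have hlB2 : (0 : ℝ) < l ^ (-B) := Real.rpow_pos_of_pos hl0 _
  have hbig : ∀ k ∈ bad.filter (fun k => Z < k), (l ^ (-B) * (l⁻¹ * (M / (4 * l)))) ^ 2 ≤
      (∑ m ∈ Icc 1 M, pr (m ^ 3 + k) - HL.S y k *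
        ∑ m ∈ Icc 1 M, il (m ^ 3 + k)) ^ 2 := by
    intro k hk
    rw [mem_filter, hbad, mem_filter, mem_Icc] at hk
    obtain ⟨⟨⟨hk1, hk2⟩, hk3⟩, hk4⟩ := hk
    rw [← sq_abs (∑ m ∈ Icc 1 M, pr (m ^ 3 + k) - _)]
    refine pow_le_pow_left₀ (by positivity) ?_ 2
    refine le_trans ?_ hk3.le
    refine mul_le_mul_of_nonneg_left ?_ hlB2.le
    exact mul_le_mul (hS k) (hV k hk1 hk2) (by positivity) ((inv_pos.2 hl0).le.trans (hS k))
  have hsum : ((bad.filter (fun k => Z < k)).card : ℝ) * (l ^ (-B) * (l⁻¹ * (M / (4 * l)))) ^ 2 ≤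
      X * (M : ℝ) ^ 2 * l ^ (-(3 * B + 20)) := by
    have h1 := card_nsmul_le_sum (bad.filter (fun k => Z < k)) _ _ hbig
    rw [nsmul_eq_mul] at h1
    refine h1.trans (le_trans ?_ hms')
    refine sum_le_sum_of_subset_of_nonneg ?_ fun k _ _ => sq_nonneg _
    intro k hk
    rw [mem_filter, hbad, mem_filter, mem_Icc] at hk
    rw [mem_Ioc]
    exact ⟨hk.2, hk.1.1.2⟩
  -- conclusion
  have hl2B : (l ^ (-B)) ^ 2 = l ^ (-(2 * B)) := by
    rw [← Real.rpow_natCast, ← Real.rpow_mul hl0.le]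
    congr 1
    push_cast
    ring
  have hexp : l ^ (-(3 * B + 20)) = l ^ (-(2 * B)) * (l ^ (-(B + 1)) * l ^ (-(19 : ℝ))) := by
    rw [← Real.rpow_add hl0, ← Real.rpow_add hl0]
    congr 1
    ring
  have h19 : l ^ (-(19 : ℝ)) = (l ^ 19)⁻¹ := by
    rw [Real.rpow_neg hl0.le]
    congr 1
    exact_mod_cast Real.rpow_natCast l 19
  have hcard2 : ((bad.filter (fun k => Z < k)).card : ℝ) ≤ 16 * X * l ^ (-(B + 1)) := by
    have e1 : (l ^ (-B) * (l⁻¹ * (M / (4 * l)))) ^ 2 =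
        l ^ (-(2 * B)) * ((M : ℝ) ^ 2 * (1 / (16 * l ^ 4))) := by
      rw [mul_pow, hl2B]
      congr 1
      field_simp
      norm_num
    rw [e1, hexp, h19] at hsum
    have hpos : 0 < l ^ (-(2 * B)) * (M : ℝ) ^ 2 := by positivity
    have h2 : ((bad.filter (fun k => Z < k)).card : ℝ) * (1 / (16 * l ^ 4)) ≤
        X * (l ^ (-(B + 1)) * (l ^ 19)⁻¹) := by
      refine le_of_mul_le_mul_left ?_ hpos
      calc l ^ (-(2 * B)) * (M : ℝ) ^ 2 *
            (((bad.filter (fun k => Z < k)).card : ℝ) * (1 / (16 * l ^ 4))) =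
          ((bad.filter (fun k => Z < k)).card : ℝ) *
            (l ^ (-(2 * B)) * ((M : ℝ) ^ 2 * (1 / (16 * l ^ 4)))) := by ring
        _ ≤ _ := hsum
        _ = _ := by ring
    have h3 : ((bad.filter (fun k => Z < k)).card : ℝ) ≤
        X * (l ^ (-(B + 1)) * (l ^ 19)⁻¹) * (16 * l ^ 4) := by
      rw [mul_one_div, div_le_iff₀ (by positivity)] at h2
      exact h2
    refine h3.trans ?_
    have h4 : (l ^ 19)⁻¹ * l ^ 4 ≤ 1 := by
      rw [inv_mul_le_iff₀ (by positivity), mul_one]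
      exact pow_le_pow_right₀ hl1 (by norm_num)
    calc X * (l ^ (-(B + 1)) * (l ^ 19)⁻¹) * (16 * l ^ 4) =
        16 * X * l ^ (-(B + 1)) * ((l ^ 19)⁻¹ * l ^ 4) := by ring
      _ ≤ 16 * X * l ^ (-(B + 1)) * 1 := mul_le_mul_of_nonneg_left h4 (by positivity)
      _ = 16 * X * l ^ (-(B + 1)) := mul_one _
  have hcard3 : (bad.card : ℝ) ≤ Z + ((bad.filter (fun k => Z < k)).card : ℝ) := by
    exact_mod_cast hcard1
  have hfin : 18 * (X * l ^ (-(B + 1))) ≤ X * l ^ (-B) := by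
    have h1 : l ^ (-B) = l * l ^ (-(B + 1)) := by
      conv_rhs => rw [← Real.rpow_one l, ← Real.rpow_mul hl0.le, one_mul, ← Real.rpow_add hl0]
      congr 1
      ring
    rw [h1]
    calc 18 * (X * l ^ (-(B + 1))) ≤ l * (X * l ^ (-(B + 1))) :=
          mul_le_mul_of_nonneg_right hl18 (by positivity)
      _ = X * (l * l ^ (-(B + 1))) := by ring
  linarith

end Pool.Agent.H43.HY
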