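import Pool.Agent.H43.TP.Tra
import Pool.Agent.H43.TP.L2m
import Pool.Agent.H43.HY.Rgz

/-!
# [H43 HY SM] The range `M^3 <= X`

PROOF. As part (1) of `TQ/Ms2.lean`. `ℓ = log X`, `κ = ℓ^(-k0)`, `Q` with `2^64 ℓ^(24 k0) <= Q <= ℓ^(25 k0)`. `rgz` with `(25k0, 100k0 + A + 4, ε, B')` gives `A1`; `h = ⌊M^3/(6 Q ℓ^A1)⌋₊`:
`6hQ <= M^3`, `h <= Xℓ^(-A1)`, and `h >= X^(1/6+ε)` since `M^3 >= X^(1/6+3ε)`. `TP.tra` with `a = azr Q X Z`, `V = X h^2 ℓ^(-100k0-A-4)`: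
`Σ_{k<=X} ‖Σ_m azr(m^3+k)‖^2 <= κ^2 M^2 Σ_{n<=2X} ‖azr n‖^2 + 4M^2 Q^4 V/h^2`, the last `<= 4 M^2 X ℓ^(-A-4)`; `Σ ‖azr n‖^2 <= 2*2X + 2 Σ lq^2 <= Xℓ` (`il <= 1` for `n >= 3`; `TP.l2m`), so the first is
`<= X M^2 ℓ^(1-2k0) <= X M^2 ℓ^(-A-1)` (`k0 >= A/2 + 1`). For `k ∈ (Z,X]`: `Z < m^3+k <= 2X`, so `azr(m^3+k) = az Q (m^3+k)`.
-/

namespace Pool.Agent.H43.HY

open Finset

private theorem sm_ev (C a b : ℝ) (hb : 0 < b) :
    ∀ᶠ X : ℕ in Filter.atTop, C * (Real.log X) ^ a ≤ (X : ℝ) ^ b := by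
  have h := (isLittleO_log_rpow_rpow_atTop a hb).bound
    (show (0 : ℝ) < 1 / (|C| + 1) by positivity)
  have h2 := tendsto_natCast_atTop_atTop.eventually h
  have h3 := (Filter.eventually_ge_atTop 1 : ∀ᶠ X : ℕ in Filter.atTop, 1 ≤ X)
  filter_upwards [h2, h3] with X h4 h5
  have hX : (1 : ℝ) ≤ X := by exact_mod_cast h5
  have hl : 0 ≤ Real.log X := Real.log_nonneg hX
  rw [Real.norm_eq_abs, Real.norm_eq_abs, abs_of_nonneg (Real.rpow_nonneg hl a),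
    abs_of_nonneg (Real.rpow_nonneg (by linarith) b)] at h4
  have hC : 0 < |C| + 1 := by positivity
  rw [one_div, inv_mul_eq_div, le_div_iff₀ hC] at h4
  have h6 : C ≤ |C| + 1 := by linarith [le_abs_self C]
  have h7 := mul_le_mul_of_nonneg_right h6 (Real.rpow_nonneg hl a)
  linarith

private theorem sm_log (c : ℝ) : ∀ᶠ X : ℕ in Filter.atTop, c ≤ Real.log X :=
  (Real.tendsto_log_atTop.comp tendsto_natCast_atTop_atTop).eventually_ge_atTop c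

private theorem sm_loglog (c : ℝ) : ∀ᶠ X : ℕ in Filter.atTop,
    8 * (1 + c * Real.log (Real.log X)) ^ 2 + 4 ≤ Real.log X / 2 := by
  have h1 : ∀ᶠ t : ℝ in Filter.atTop, 8 * (1 + c * Real.log t) ^ 2 + 4 ≤ t / 2 := by
    have h := (isLittleO_log_rpow_atTop (show (0 : ℝ) < 1 / 2 by norm_num)).bound
      (show (0 : ℝ) < 1 / (8 * (|c| + 1)) by positivity)
    filter_upwards [h, Filter.eventually_ge_atTop 1000] with t h2 h3
    have ht : 0 < t := by linarith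
    rw [← Real.sqrt_eq_rpow, Real.norm_eq_abs, Real.norm_eq_abs,
      abs_of_nonneg (Real.sqrt_nonneg t)] at h2
    have hs : Real.sqrt t * Real.sqrt t = t := Real.mul_self_sqrt ht.le
    have hs0 := Real.sqrt_nonneg t
    have hs31 : 31 ≤ Real.sqrt t := by
      apply Real.le_sqrt_of_sq_le
      norm_num
      linarith
    have hc1 : 0 < 8 * (|c| + 1) := by positivity
    rw [one_div, inv_mul_eq_div, le_div_iff₀ hc1] at h2
    have h4 : |c * Real.log t| ≤ Real.sqrt t / 8 := by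
      rw [abs_mul]
      have : |Real.log t| * (8 * |c|) ≤ |Real.log t| * (8 * (|c| + 1)) := by
        apply mul_le_mul_of_nonneg_left _ (abs_nonneg _)
        linarith
      have e1 : |c| * |Real.log t| = |Real.log t| * (8 * |c|) / 8 := by ring
      rw [e1]
      linarith
    have h5 := abs_le.1 h4
    have h6 : (1 + c * Real.log t) ^ 2 ≤ (1 + Real.sqrt t / 8) ^ 2 := by
      apply sq_le_sq'
      · linarith [h5.1]
      · linarith [h5.2]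
    have e1 : (1 + Real.sqrt t / 8) ^ 2 =
        1 + Real.sqrt t / 4 + Real.sqrt t * Real.sqrt t / 64 := by ring
    have e2 : 31 * Real.sqrt t ≤ Real.sqrt t * Real.sqrt t := mul_le_mul_of_nonneg_right hs31 hs0
    linarith
  exact (Real.tendsto_log_atTop.comp tendsto_natCast_atTop_atTop).eventually h1

private theorem sm_sq (Q X Z : ℕ) (hQ : 1 ≤ Q) (hZ : 3 ≤ Z) :
    ∑ n ∈ Icc 1 (2 * X), ‖azr Q X Z n‖ ^ 2 ≤
      4 * X + 8 * X * (1 + Real.log Q) ^ 2 + 8 * (Q : ℝ) ^ 4 := by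
  have h1 : ∀ n ∈ Icc 1 (2 * X), ‖azr Q X Z n‖ ^ 2 ≤ 2 + 2 * (TP.lq Q n) ^ 2 := by
    intro n _
    unfold azr
    split_ifs with h
    · rw [Complex.norm_real, Real.norm_eq_abs, sq_abs]
      have hn : (3 : ℝ) ≤ n := by exact_mod_cast (by omega : 3 ≤ n)
      have hl : 1 ≤ Real.log n := by
        rw [← Real.log_exp 1]
        apply Real.log_le_log (Real.exp_pos 1)
        linarith [Real.exp_one_lt_d9]
      have hi0 : 0 ≤ il n := by unfold il; positivity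
      have hi1 : il n ≤ 1 := by
        unfold il
        rw [div_le_one (by linarith)]
        exact hl
      have hp0 : 0 ≤ pr n := by unfold pr; split_ifs <;> norm_num
      have hp1 : pr n ≤ 1 := by unfold pr; split_ifs <;> norm_num
      have h2 : (il n * TP.lq Q n) ^ 2 ≤ (TP.lq Q n) ^ 2 := by
        rw [mul_pow]
        have : (il n) ^ 2 ≤ 1 := pow_le_one₀ hi0 hi1
        exact mul_le_of_le_one_left (sq_nonneg _) this
      have h3 : (pr n) ^ 2 ≤ 1 := pow_le_one₀ hp0 hp1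
      unfold az
      have e3 := sq_nonneg (pr n + il n * TP.lq Q n)
      have e4 : (pr n - il n * TP.lq Q n) ^ 2 =
          2 * (pr n) ^ 2 + 2 * (il n * TP.lq Q n) ^ 2 - (pr n + il n * TP.lq Q n) ^ 2 := by ring
      rw [e4]
      linarith
    · rw [norm_zero, zero_pow two_ne_zero]
      positivity
  refine (sum_le_sum h1).trans ?_
  rw [sum_add_distrib, ← mul_sum, sum_const, Nat.card_Icc, nsmul_eq_mul, Nat.add_sub_cancel]
  have h2 := TP.l2m Q (2 * X) hQ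
  push_cast at h2 ⊢
  linarith [h2]

private theorem sm_win (Q X Z M k : ℕ) (hM : M ^ 3 ≤ X) (hk : k ∈ Ioc Z X) :
    ‖∑ m ∈ Icc 1 M, azr Q X Z (m ^ 3 + k)‖ ^ 2 = (∑ m ∈ Icc 1 M, az Q (m ^ 3 + k)) ^ 2 := by
  rw [mem_Ioc] at hk
  have h1 : ∑ m ∈ Icc 1 M, azr Q X Z (m ^ 3 + k) =
      ((∑ m ∈ Icc 1 M, az Q (m ^ 3 + k) : ℝ) : ℂ) := by
    rw [Complex.ofReal_sum]
    refine sum_congr rfl fun m hm => ?_
    rw [mem_Icc] at hm
    have h2 : m ^ 3 ≤ M ^ 3 := Nat.pow_le_pow_left hm.2 3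
    unfold azr
    rw [if_pos ⟨by omega, by omega⟩]
  rw [h1, Complex.norm_real, Real.norm_eq_abs, sq_abs]

theorem sm (A ε B' : ℝ) (k0 : ℕ) (hA : 0 < A) (hε : 0 < ε) (hB' : 0 < B') (hk0 : A / 2 + 1 ≤ k0) :
    ∃ X0 : ℕ, ∀ X : ℕ, X0 ≤ X → ∀ Q M Z : ℕ, 2 ^ 64 * (Real.log X) ^ (24 * k0) ≤ Q →
    (Q : ℝ) ≤ (Real.log X) ^ (25 * k0) → (X : ℝ) ^ ((1 : ℝ) / 18 + ε) ≤ M → M ^ 3 ≤ X →
    (X : ℝ) * (Real.log X) ^ (-B') ≤ Z →
    ∑ k ∈ Ioc Z X, (∑ m ∈ Icc 1 M, az Q (m ^ 3 + k)) ^ 2 ≤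
      X * (M : ℝ) ^ 2 * (Real.log X) ^ (-A) := by
  have hk0' : (0 : ℝ) < k0 := by linarith
  obtain ⟨A1, hA1, X1, hX1, hrgz⟩ := rgz (25 * k0) (100 * k0 + A + 4) ε B' (by positivity)
    (by positivity) hε hB'
  have hev : ∀ᶠ X : ℕ in Filter.atTop, X1 ≤ X ∧ 5 ≤ Real.log X ∧
      2 ^ 24 * (Real.log X) ^ ((9 * k0 : ℕ) : ℝ) ≤ (X : ℝ) ^ ((1 : ℝ) / 18) ∧
      12 * (Real.log X) ^ (((25 * k0 : ℕ) : ℝ) + A1) ≤ (X : ℝ) ^ (2 * ε) ∧
      3 * (Real.log X) ^ B' ≤ (X : ℝ) ^ (1 : ℝ) ∧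
      8 * (1 + (25 * k0 : ℕ) * Real.log (Real.log X)) ^ 2 + 4 ≤ Real.log X / 2 ∧
      16 * (Real.log X) ^ ((100 * k0 : ℕ) : ℝ) ≤ (X : ℝ) ^ (1 : ℝ) := by
    filter_upwards [Filter.eventually_ge_atTop X1, sm_log 5, sm_ev (2 ^ 24) ((9 * k0 : ℕ) : ℝ)
      ((1 : ℝ) / 18) (by norm_num), sm_ev 12 (((25 * k0 : ℕ) : ℝ) + A1) (2 * ε) (by positivity),
      sm_ev 3 B' 1 one_pos, sm_loglog ((25 * k0 : ℕ) : ℝ),
      sm_ev 16 ((100 * k0 : ℕ) : ℝ) 1 one_pos] with X h1 h2 h3 h4 h5 h6 h7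
    exact ⟨h1, h2, h3, h4, h5, h6, h7⟩
  obtain ⟨X0, hX0⟩ := Filter.eventually_atTop.1 hev
  refine ⟨X0, fun X hX Q M Z hQ1 hQ2 hM1 hM2 hZ => ?_⟩
  obtain ⟨e0, e1, e2, e3, e4, e5, e6⟩ := hX0 X hX
  rw [Real.rpow_natCast] at e2 e6
  rw [Real.rpow_one] at e4 e6
  set l : ℝ := Real.log X with hl
  have hl0 : 0 < l := by linarith
  have hl1 : 1 ≤ l := by linarith
  have hX10 : 10 ≤ X := hX1.trans e0
  have hXR : (10 : ℝ) ≤ X := by exact_mod_cast hX10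
  have hXp : (0 : ℝ) < X := by linarith
  have hX1R : (1 : ℝ) ≤ X := by linarith
  -- `κ`
  set κ : ℝ := (l ^ k0)⁻¹ with hκ
  have hlk : 1 ≤ l ^ k0 := one_le_pow₀ hl1
  have hκ0 : 0 < κ := by positivity
  have hκ1 : κ ≤ 1 := inv_le_one_of_one_le₀ hlk
  have hκ24 : 2 ^ 64 / κ ^ 24 ≤ (Q : ℝ) := by
    refine le_trans (le_of_eq ?_) hQ1
    rw [hκ, inv_pow, div_inv_eq_mul, ← pow_mul, mul_comm k0 24]
  have hQ1' : (1 : ℝ) ≤ Q := by
    refine le_trans ?_ hQ1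
    have : 1 ≤ l ^ (24 * k0) := one_le_pow₀ hl1
    have g1 : (1 : ℝ) ≤ 2 ^ 64 := by norm_num
    exact this.trans (le_mul_of_one_le_left (by linarith) g1)
  have hQn : 1 ≤ Q := by exact_mod_cast hQ1'
  have hQp : (0 : ℝ) < Q := by linarith
  have hMl : (X : ℝ) ^ ((1 : ℝ) / 18) ≤ M := by
    refine le_trans ?_ hM1
    exact Real.rpow_le_rpow_of_exponent_le hX1R (by linarith)
  have hκM : 2 ^ 24 ≤ κ ^ 9 * (M : ℝ) := by
    rw [hκ, inv_pow, ← pow_mul, inv_mul_eq_div, le_div_iff₀ (by positivity), mul_comm k0 9]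
    exact e2.trans hMl
  -- `h`
  set w : ℝ := (M : ℝ) ^ 3 / (6 * Q * l ^ A1) with hw
  have hlA1 : 1 ≤ l ^ A1 := Real.one_le_rpow hl1 hA1.le
  have hw0 : 0 ≤ w := by positivity
  set h : ℕ := ⌊w⌋₊ with hh
  have hhw : (h : ℝ) ≤ w := Nat.floor_le hw0
  have hM2R : (M : ℝ) ^ 3 ≤ X := by exact_mod_cast hM2
  have hM3 : (X : ℝ) ^ ((1 : ℝ) / 6 + 3 * ε) ≤ (M : ℝ) ^ 3 := by
    have h1 := pow_le_pow_left₀ (Real.rpow_nonneg hXp.le _) hM1 3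
    rw [← Real.rpow_natCast ((X : ℝ) ^ ((1 : ℝ) / 18 + ε)) 3, ← Real.rpow_mul hXp.le] at h1
    refine le_trans (le_of_eq ?_) h1
    congr 1
    push_cast
    ring
  have hhlow : (X : ℝ) ^ ((1 : ℝ) / 6 + ε) ≤ h := by
    have h1 : w - 1 < h := by
      have := Nat.lt_floor_add_one w
      rw [← hh] at this
      linarith
    have h2 : (X : ℝ) ^ ((1 : ℝ) / 6 + ε) + 1 ≤ w := by
      rw [hw, le_div_iff₀ (by positivity)]
      refine le_trans ?_ hM3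
      have h3 : 1 ≤ (X : ℝ) ^ ((1 : ℝ) / 6 + ε) := Real.one_le_rpow hX1R (by positivity)
      have h4 : 6 * (Q : ℝ) * l ^ A1 ≤ 6 * (l ^ (((25 * k0 : ℕ) : ℝ) + A1)) := by
        rw [Real.rpow_add hl0, Real.rpow_natCast]
        have := mul_le_mul_of_nonneg_right hQ2 (by positivity : 0 ≤ l ^ A1)
        linarith
      calc ((X : ℝ) ^ ((1 : ℝ) / 6 + ε) + 1) * (6 * Q * l ^ A1)
          ≤ (2 * (X : ℝ) ^ ((1 : ℝ) / 6 + ε)) * (6 * (l ^ (((25 * k0 : ℕ) : ℝ) + A1))) := by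
            apply mul_le_mul (by linarith) h4 (by positivity) (by positivity)
        _ = (X : ℝ) ^ ((1 : ℝ) / 6 + ε) * (12 * (l ^ (((25 * k0 : ℕ) : ℝ) + A1))) := by ring
        _ ≤ (X : ℝ) ^ ((1 : ℝ) / 6 + ε) * (X : ℝ) ^ (2 * ε) := by gcongr
        _ = (X : ℝ) ^ ((1 : ℝ) / 6 + 3 * ε) := by
            rw [← Real.rpow_add hXp]; congr 1; ring
    linarith
  have hh1 : 1 ≤ h := by
    have h1 : (1 : ℝ) ≤ h := (Real.one_le_rpow hX1R (by positivity)).trans hhlow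
    exact_mod_cast h1
  have hhp : (0 : ℝ) < h := by exact_mod_cast hh1
  have h6 : 6 * h * Q ≤ M ^ 3 := by
    have h1 : (6 : ℝ) * h * Q ≤ (M : ℝ) ^ 3 := by
      calc (6 : ℝ) * h * Q ≤ 6 * w * Q := by gcongr
        _ = (M : ℝ) ^ 3 / l ^ A1 := by
            rw [hw]; field_simp
        _ ≤ (M : ℝ) ^ 3 := div_le_self (by positivity) hlA1
    exact_mod_cast h1
  have hhup : (h : ℝ) ≤ X * l ^ (-A1) := by
    rw [Real.rpow_neg hl0.le, ← div_eq_mul_inv]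
    refine hhw.trans ?_
    rw [hw]
    calc (M : ℝ) ^ 3 / (6 * Q * l ^ A1) ≤ X / (6 * Q * l ^ A1) := by gcongr
      _ ≤ X / (l ^ A1) := by
          apply div_le_div_of_nonneg_left hXp.le (by positivity)
          have g1 : 1 * l ^ A1 ≤ 6 * (Q : ℝ) * l ^ A1 :=
            mul_le_mul_of_nonneg_right (by linarith) (by positivity)
          linarith
  have hQ2' : (Q : ℝ) ≤ l ^ ((25 : ℝ) * k0) := by
    refine hQ2.trans (le_of_eq ?_)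
    rw [← Real.rpow_natCast]; push_cast; rfl
  set V : ℝ := X * (h : ℝ) ^ 2 * l ^ (-(100 * k0 + A + 4 : ℝ)) with hV
  have htra := TP.tra (azr Q X Z) M X Q h κ V hM2 hκ0 hκ1 hκM hκ24 hh1 h6
    (fun q c hq hqQ hc => hrgz X e0 Z hZ Q q c hQ2' hq hqQ hc h hhlow hhup)
  -- the square sum
  have hZ3 : 3 ≤ Z := by
    have h1 : (3 : ℝ) ≤ X * l ^ (-B') := by
      rw [Real.rpow_neg hl0.le, ← div_eq_mul_inv, le_div_iff₀ (by positivity)]
      exact e4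
    exact_mod_cast h1.trans hZ
  have hsq := sm_sq Q X Z hQn hZ3
  have hlogQ : Real.log Q ≤ (25 * k0 : ℕ) * Real.log l := by
    rw [← Real.log_pow]
    exact Real.log_le_log hQp hQ2
  have hlogQ0 : 0 ≤ Real.log Q := Real.log_nonneg hQ1'
  have hsq2 : ∑ n ∈ Icc 1 (2 * X), ‖azr Q X Z n‖ ^ 2 ≤ X * l := by
    refine hsq.trans ?_
    have h1 : (1 + Real.log Q) ^ 2 ≤ (1 + (25 * k0 : ℕ) * Real.log l) ^ 2 := by
      apply pow_le_pow_left₀ (by linarith)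
      linarith
    have h2 : (Q : ℝ) ^ 4 ≤ l ^ (100 * k0) := by
      calc (Q : ℝ) ^ 4 ≤ (l ^ (25 * k0)) ^ 4 := by gcongr
        _ = l ^ (100 * k0) := by rw [← pow_mul]; congr 1; ring
    have h3 : 8 * (Q : ℝ) ^ 4 ≤ X / 2 := by linarith
    have h4 : (X : ℝ) / 2 ≤ X * l / 2 := by
      have g1 : (X : ℝ) * 1 ≤ X * l := mul_le_mul_of_nonneg_left hl1 hXp.le
      linarith
    have h5 : X * (8 * (1 + Real.log Q) ^ 2 + 4) ≤ X * (l / 2) := by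
      apply mul_le_mul_of_nonneg_left _ hXp.le
      linarith
    linarith
  have hterm1 : κ ^ 2 * (M : ℝ) ^ 2 * ∑ n ∈ Icc 1 (2 * X), ‖azr Q X Z n‖ ^ 2 ≤
      X * (M : ℝ) ^ 2 * (l ^ (-A) / l) := by
    have h1 : κ ^ 2 * l ≤ l ^ (-A) / l := by
      rw [le_div_iff₀ hl0]
      have h2 : κ ^ 2 * l * l = l ^ (-(2 * k0 : ℝ) + 2) := by
        rw [Real.rpow_add hl0, Real.rpow_neg hl0.le, hκ]
        have : l ^ ((2 : ℝ) * k0) = (l ^ k0) ^ 2 := by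
          rw [← pow_mul, ← Real.rpow_natCast]; push_cast; ring_nf
        rw [this, inv_pow]
        norm_num
        ring
      rw [h2]
      exact Real.rpow_le_rpow_of_exponent_le hl1 (by linarith)
    calc κ ^ 2 * (M : ℝ) ^ 2 * ∑ n ∈ Icc 1 (2 * X), ‖azr Q X Z n‖ ^ 2
        ≤ κ ^ 2 * (M : ℝ) ^ 2 * (X * l) := by gcongr
      _ = X * (M : ℝ) ^ 2 * (κ ^ 2 * l) := by ring
      _ ≤ _ := by gcongr
  have hterm2 : 4 * (M : ℝ) ^ 2 * (Q : ℝ) ^ 4 * V / (h : ℝ) ^ 2 ≤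
      X * (M : ℝ) ^ 2 * (4 * (l ^ (-A) / l)) := by
    have h1 : 4 * (M : ℝ) ^ 2 * (Q : ℝ) ^ 4 * V / (h : ℝ) ^ 2 =
        X * (M : ℝ) ^ 2 * (4 * ((Q : ℝ) ^ 4 * l ^ (-(100 * k0 + A + 4 : ℝ)))) := by
      rw [hV]; field_simp
    rw [h1]
    have h2 : (Q : ℝ) ^ 4 * l ^ (-(100 * k0 + A + 4 : ℝ)) ≤ l ^ (-A) / l := by
      have h3 : (Q : ℝ) ^ 4 ≤ l ^ ((100 : ℝ) * k0) := by
        have h4 : (Q : ℝ) ^ 4 ≤ l ^ (100 * k0) := by
          calc (Q : ℝ) ^ 4 ≤ (l ^ (25 * k0)) ^ 4 := by gcongr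
            _ = l ^ (100 * k0) := by rw [← pow_mul]; congr 1; ring
        refine h4.trans (le_of_eq ?_)
        rw [← Real.rpow_natCast]; push_cast; rfl
      rw [le_div_iff₀ hl0]
      calc (Q : ℝ) ^ 4 * l ^ (-(100 * k0 + A + 4 : ℝ)) * l
          ≤ l ^ ((100 : ℝ) * k0) * l ^ (-(100 * k0 + A + 4 : ℝ)) * l := by gcongr
        _ = l ^ (-A - 3) := by
            nth_rewrite 3 [← Real.rpow_one l]
            rw [← Real.rpow_add hl0, ← Real.rpow_add hl0]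
            congr 1; ring
        _ ≤ l ^ (-A) := Real.rpow_le_rpow_of_exponent_le hl1 (by linarith)
    gcongr
  have hsub : Ioc Z X ⊆ Icc 1 X := by
    intro k hk
    rw [mem_Ioc] at hk
    rw [mem_Icc]
    omega
  have hlA0 : 0 < l ^ (-A) := Real.rpow_pos_of_pos hl0 _
  calc ∑ k ∈ Ioc Z X, (∑ m ∈ Icc 1 M, az Q (m ^ 3 + k)) ^ 2
      = ∑ k ∈ Ioc Z X, ‖∑ m ∈ Icc 1 M, azr Q X Z (m ^ 3 + k)‖ ^ 2 :=
        sum_congr rfl fun k hk => (sm_win Q X Z M k hM2 hk).symm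
    _ ≤ ∑ k ∈ Icc 1 X, ‖∑ m ∈ Icc 1 M, azr Q X Z (m ^ 3 + k)‖ ^ 2 :=
        sum_le_sum_of_subset_of_nonneg hsub fun _ _ _ => by positivity
    _ ≤ X * (M : ℝ) ^ 2 * (l ^ (-A) / l) + X * (M : ℝ) ^ 2 * (4 * (l ^ (-A) / l)) :=
        htra.trans (add_le_add hterm1 hterm2)
    _ = X * (M : ℝ) ^ 2 * (5 * (l ^ (-A) / l)) := by ring
    _ ≤ X * (M : ℝ) ^ 2 * l ^ (-A) := by
        have : 5 * (l ^ (-A) / l) ≤ l ^ (-A) := by
          rw [← mul_div_assoc, div_le_iff₀ hl0]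
          have g1 : 5 * l ^ (-A) ≤ l * l ^ (-A) := mul_le_mul_of_nonneg_right (by linarith) hlA0.le
          linarith
        gcongr

end Pool.Agent.H43.HY
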